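import Pool.Agent.H8.SD.Defs

/-!
# SD Hom: factors of forms are forms (copy of `Pool.Agent.H74.KV.Bez` over a field)
-/

set_option autoImplicit false

namespace Pool.Agent.H8.SD

open MvPolynomial

variable {σ K : Type} [Field K]

/-- the substitution `X i ↦ X i t` -/
private noncomputable def phi (σ K : Type) [Field K] :
    MvPolynomial σ K →ₐ[K] Polynomial (MvPolynomial σ K) :=
  aeval fun i => Polynomial.monomial 1 (X i)

private theorem phi_hom {A : MvPolynomial σ K} {a : ℕ} (hA : A.IsHomogeneous a) :
    phi σ K A = Polynomial.monomial a A := by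
  classical
  have h1 : ∀ m : σ →₀ ℕ, ∀ c : K,
      phi σ K (monomial m c) = Polynomial.monomial m.degree (monomial m c) := by
    intro m c
    have h2 : phi σ K (monomial m c) =
        Polynomial.C (C c) * (m.prod fun i k =>
          (Polynomial.monomial 1 (X i : MvPolynomial σ K)) ^ k) := by
      unfold phi
      rw [aeval_monomial]
      rfl
    rw [h2]
    have h3 : (m.prod fun i k => (Polynomial.monomial 1 (X i : MvPolynomial σ K)) ^ k) =
        Polynomial.monomial m.degree (m.prod fun i k => (X i : MvPolynomial σ K) ^ k) := by
      simp only [Finsupp.prod, Polynomial.monomial_pow, one_mul]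
      have h4 : ∀ s : Finset σ,
          ∏ i ∈ s, Polynomial.monomial (m i) ((X i : MvPolynomial σ K) ^ m i) =
          Polynomial.monomial (∑ i ∈ s, m i) (∏ i ∈ s, (X i : MvPolynomial σ K) ^ m i) := by
        intro s
        induction s using Finset.induction_on with
        | empty => simp
        | insert a s ha ih =>
          rw [Finset.prod_insert ha, Finset.prod_insert ha, Finset.sum_insert ha, ih,
            Polynomial.monomial_mul_monomial]
      rw [h4]
      rfl
    rw [h3, Polynomial.C_mul_monomial, monomial_eq]
  rw [A.as_sum, map_sum, map_sum]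
  refine Finset.sum_congr rfl fun m hm => ?_
  have h2 : m.degree = a := by
    by_contra h
    exact (mem_support_iff.1 hm) (hA.coeff_eq_zero h)
  rw [h1, h2]

private theorem phi_coeff (A : MvPolynomial σ K) (k : ℕ) :
    (phi σ K A).coeff k = homogeneousComponent k A := by
  classical
  conv_lhs => rw [← sum_homogeneousComponent A]
  rw [map_sum, Polynomial.finsetSum_coeff]
  have h1 : ∀ i, (phi σ K (homogeneousComponent i A)).coeff k =
      if i = k then homogeneousComponent k A else 0 := by
    intro i
    rw [phi_hom (homogeneousComponent_isHomogeneous i A), Polynomial.coeff_monomial]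
    split_ifs with h
    · rw [h]
    · rfl
  rw [Finset.sum_congr rfl fun i _ => h1 i, Finset.sum_ite_eq']
  split_ifs with h
  · rfl
  · rw [Finset.mem_range, not_lt] at h
    exact (homogeneousComponent_eq_zero _ _ (by omega)).symm

/-- the factors of a form are forms -/
theorem hom_of_mul {A B : MvPolynomial σ K} {d : ℕ} (h : (A * B).IsHomogeneous d) (hA : A ≠ 0)
    (hB : B ≠ 0) : ∃ a b, A.IsHomogeneous a ∧ B.IsHomogeneous b ∧ a + b = d := by
  classical
  have key : ∀ A B : MvPolynomial σ K, (A * B).IsHomogeneous d → A ≠ 0 → B ≠ 0 →
      ∃ a, A.IsHomogeneous a := by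
    intro A B h hA hB
    have hprod : phi σ K A * phi σ K B = Polynomial.monomial d (A * B) := by
      rw [← map_mul, phi_hom h]
    have hne : ∀ P : MvPolynomial σ K, P ≠ 0 → phi σ K P ≠ 0 := by
      intro P hP h0
      apply hP
      rw [← sum_homogeneousComponent P]
      refine Finset.sum_eq_zero fun i _ => ?_
      rw [← phi_coeff, h0, Polynomial.coeff_zero]
    have hAB : A * B ≠ 0 := mul_ne_zero hA hB
    have e1 := Polynomial.natDegree_mul (hne A hA) (hne B hB)
    have e2 := Polynomial.natTrailingDegree_mul (hne A hA) (hne B hB)
    rw [hprod, Polynomial.natDegree_monomial_eq _ hAB] at e1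
    rw [hprod, Polynomial.natTrailingDegree_monomial hAB] at e2
    have e3 := Polynomial.natTrailingDegree_le_natDegree (phi σ K A)
    have e4 := Polynomial.natTrailingDegree_le_natDegree (phi σ K B)
    have e5 : (phi σ K A).natTrailingDegree = (phi σ K A).natDegree := by omega
    refine ⟨(phi σ K A).natDegree, ?_⟩
    have h6 : A = homogeneousComponent (phi σ K A).natDegree A := by
      conv_lhs => rw [← sum_homogeneousComponent A]
      have h7 : ∀ i, homogeneousComponent i A = if i = (phi σ K A).natDegree then
          homogeneousComponent (phi σ K A).natDegree A else 0 := by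
        intro i
        split_ifs with h
        · rw [h]
        · rw [← phi_coeff]
          rcases lt_or_gt_of_ne h with h8 | h8
          · exact Polynomial.coeff_eq_zero_of_lt_natTrailingDegree (by omega)
          · exact Polynomial.coeff_eq_zero_of_natDegree_lt h8
      rw [Finset.sum_congr rfl fun i _ => h7 i, Finset.sum_ite_eq']
      split_ifs with h
      · rfl
      · rw [Finset.mem_range, not_lt] at h
        exact (homogeneousComponent_eq_zero _ _ (by omega)).symm
    have h8 := homogeneousComponent_isHomogeneous (phi σ K A).natDegree A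
    rwa [← h6] at h8
  obtain ⟨a, ha⟩ := key A B h hA hB
  obtain ⟨b, hb⟩ := key B A (by rwa [mul_comm]) hB hA
  exact ⟨a, b, ha, hb, IsHomogeneous.inj_right (ha.mul hb) h (mul_ne_zero hA hB)⟩


end Pool.Agent.H8.SD
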