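import Pool.Agent.H8.SD.Defs

/-!
# SD DegA: the degree of `F ∘ M` in the variable `y_0` is at most `d - 2`

See the heading of `Deg.lean`.
-/

set_option autoImplicit false

open MvPolynomial Matrix

namespace Pool.Agent.H8.SD

private theorem da_lin_hom {K : Type} [Field K] {n : ℕ} (l : Fin n → K) : (lin l).IsHomogeneous 1 := by
  unfold lin
  refine IsHomogeneous.sum _ _ _ fun i _ => ?_
  have h := (isHomogeneous_C (Fin n) (l i)).mul (isHomogeneous_X K i)
  rwa [zero_add] at h

theorem da_pull_hom {K : Type} [Field K] {n k d : ℕ} (M : Matrix (Fin n) (Fin k) K)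
    {F : MvPolynomial (Fin n) K} (hF : F.IsHomogeneous d) : (pull M F).IsHomogeneous d := by
  have h := hF.aeval (fun i => lin (M i)) fun i => da_lin_hom (M i)
  rwa [one_mul] at h

private theorem da_sum {K : Type} [Field K] {n e : ℕ} {g : MvPolynomial (Fin n) K} (hg : g.IsHomogeneous e)
    {s : Fin n →₀ ℕ} (hs : coeff s g ≠ 0) : ∑ i, s i = e := by
  have h := hg hs
  rw [Finsupp.weight_apply, Finsupp.sum_fintype _ _ fun i => by simp] at h
  simpa using h

private theorem da_eval {K : Type} [Field K] {n e : ℕ} {g : MvPolynomial (Fin (n + 1)) K}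
    (hg : g.IsHomogeneous e) : eval (Pi.single 0 1) g = coeff (Finsupp.single 0 e) g := by
  classical
  rw [eval_eq']
  by_cases h : Finsupp.single (0 : Fin (n + 1)) e ∈ g.support
  · rw [Finset.sum_eq_single (Finsupp.single 0 e)]
    · rw [Finset.prod_eq_one, mul_one]
      intro i _
      by_cases hi : i = 0
      · rw [hi]
        simp
      · rw [Finsupp.single_eq_of_ne hi, pow_zero]
    · intro s hs hne
      have h1 : ∃ i, i ≠ 0 ∧ s i ≠ 0 := by
        by_contra hcon
        push Not at hcon
        apply hne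
        have h2 := da_sum hg (mem_support_iff.1 hs)
        rw [Finset.sum_eq_single 0 (fun i _ hi => hcon i hi) (by simp)] at h2
        ext i
        by_cases hi : i = 0
        · rw [hi, Finsupp.single_eq_same, h2]
        · rw [Finsupp.single_eq_of_ne hi, hcon i hi]
      obtain ⟨i, hi, hsi⟩ := h1
      rw [Finset.prod_eq_zero (Finset.mem_univ i), mul_zero]
      rw [Pi.single_eq_of_ne hi, zero_pow hsi]
    · intro h1
      exact absurd h h1
  · have h0 := notMem_support_iff.1 h
    rw [h0]
    refine Finset.sum_eq_zero fun s hs => ?_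
    have h1 : ∃ i, i ≠ 0 ∧ s i ≠ 0 := by
      by_contra hcon
      push Not at hcon
      apply h
      have h2 := da_sum hg (mem_support_iff.1 hs)
      rw [Finset.sum_eq_single 0 (fun i _ hi => hcon i hi) (by simp)] at h2
      have h3 : Finsupp.single 0 e = s := by
        ext i
        by_cases hi : i = 0
        · rw [hi, Finsupp.single_eq_same, h2]
        · rw [Finsupp.single_eq_of_ne hi, hcon i hi]
      rw [h3]
      exact hs
    obtain ⟨i, hi, hsi⟩ := h1
    rw [Finset.prod_eq_zero (Finset.mem_univ i), mul_zero]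
    rw [Pi.single_eq_of_ne hi, zero_pow hsi]

private theorem da_pderiv_lin {K : Type} [Field K] {n : ℕ} (l : Fin n → K) (j : Fin n) :
    pderiv j (lin l) = C (l j) := by
  classical
  unfold lin
  rw [map_sum, Finset.sum_eq_single j]
  · simp
  · intro b _ hb
    simp [pderiv_X_of_ne hb]
  · simp

/-- the chain rule -/
private theorem da_chain {K : Type} [Field K] {n k : ℕ} (M : Matrix (Fin n) (Fin k) K) (j : Fin k)
    (F : MvPolynomial (Fin n) K) :
    pderiv j (pull M F) = ∑ i, pull M (pderiv i F) * C (M i j) := by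
  classical
  induction F using MvPolynomial.induction_on with
  | C a =>
    have : pull M (C a) = C a := by simp [pull]
    rw [this]
    simp
  | add p q hp hq =>
    rw [map_add, map_add, hp, hq, ← Finset.sum_add_distrib]
    refine Finset.sum_congr rfl fun i _ => ?_
    rw [map_add, map_add, add_mul]
  | mul_X p i0 hp =>
    have hX : pull M (X i0) = lin (M i0) := by simp [pull]
    rw [map_mul, pderiv_mul, hp, hX, da_pderiv_lin]
    simp only [Derivation.leibniz, smul_eq_mul, map_add, map_mul, hX, add_mul,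
      Finset.sum_add_distrib, pderiv_X]
    rw [Finset.sum_mul, add_comm]
    congr 1
    · rw [Finset.sum_eq_single i0]
      · simp
      · intro b _ hb
        simp [hb.symm]
      · simp
    · refine Finset.sum_congr rfl fun i _ => ?_
      ring

theorem degreeOf_pull_le' {K : Type} [Field K] [CharZero K] {m d : ℕ} (hd : 3 ≤ d) (hd6 : d ≤ 6) {F : MvPolynomial (Fin (m + 2)) K}
    (hF : F.IsHomogeneous d)
    {Q : Fin (m + 2) → K} {M : Matrix (Fin (m + 2)) (Fin (m + 1)) K} (h0 : eval Q F = 0) (hM : Par F Q M) :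
    (pull M F).degreeOf 0 ≤ 4 := by
  classical
  have hf := da_pull_hom M hF
  have hQ : M *ᵥ (Pi.single 0 1) = Q := by
    rw [mulVec_single_one]
    exact funext hM.col
  have hA : coeff (Finsupp.single 0 d) (pull M F) = 0 := by
    rw [← da_eval hf, eval_pull, hQ, h0]
  have hB : ∀ j : Fin (m + 1), j ≠ 0 →
      coeff (Finsupp.single 0 (d - 1) + Finsupp.single j 1) (pull M F) = 0 := by
    intro j hj
    have h1 : (pderiv j (pull M F)).IsHomogeneous (d - 1) := hf.pderiv
    have h2 := da_eval h1
    rw [coeff_pderiv, Finsupp.single_eq_of_ne hj, Nat.cast_zero, zero_add, mul_one] at h2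
    rw [← h2, da_chain, map_sum]
    have h3 : grd F Q ⬝ᵥ (M *ᵥ Pi.single j 1) = 0 := (hM.ker _).2 ⟨_, rfl⟩
    rw [← h3, mulVec_single_one, dotProduct]
    refine Finset.sum_congr rfl fun i _ => ?_
    rw [map_mul, eval_pull, hQ, eval_C]
    rfl
  rw [degreeOf_le_iff]
  intro s hs
  have hs' := mem_support_iff.1 hs
  have hsum := da_sum hf hs'
  rw [← Finset.add_sum_erase _ _ (Finset.mem_univ 0)] at hsum
  by_contra hcon
  have hcases : s 0 = d ∨ s 0 = d - 1 := by omega
  rcases hcases with h | h
  · have h1 : ∑ i ∈ Finset.univ.erase 0, s i = 0 := by omega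
    apply hs'
    rw [← hA]
    congr 1
    ext i
    by_cases hi : i = 0
    · rw [hi, Finsupp.single_eq_same, h]
    · rw [Finsupp.single_eq_of_ne hi]
      exact (Finset.sum_eq_zero_iff.1 h1) i (Finset.mem_erase.2 ⟨hi, Finset.mem_univ i⟩)
  · have h1 : ∑ i ∈ Finset.univ.erase 0, s i = 1 := by omega
    have h2 : ∃ j ∈ Finset.univ.erase (0 : Fin (m + 1)), s j ≠ 0 := by
      by_contra h3
      push Not at h3
      rw [Finset.sum_eq_zero h3] at h1
      omega
    obtain ⟨j, hj, hsj⟩ := h2
    have hj0 := (Finset.mem_erase.1 hj).1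
    rw [← Finset.add_sum_erase _ _ hj] at h1
    have h4 : s j = 1 := by omega
    have h5 : ∑ i ∈ (Finset.univ.erase 0).erase j, s i = 0 := by omega
    apply hs'
    rw [← hB j hj0]
    congr 1
    ext i
    rw [Finsupp.add_apply]
    by_cases hi : i = 0
    · rw [hi, Finsupp.single_eq_same, Finsupp.single_eq_of_ne (Ne.symm hj0), h, add_zero]
    · rw [Finsupp.single_eq_of_ne hi, zero_add]
      by_cases hij : i = j
      · rw [hij, Finsupp.single_eq_same, h4]
      · rw [Finsupp.single_eq_of_ne hij]
        exact (Finset.sum_eq_zero_iff.1 h5) i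
          (Finset.mem_erase.2 ⟨hij, Finset.mem_erase.2 ⟨hi, Finset.mem_univ i⟩⟩)

end Pool.Agent.H8.SD
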