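import Pool.Agent.H8.SD.Defs

/-!
# SD Alg: an element killed by all derivations is algebraic over the constants

`π : K[X_0..X_m] → E` (a field) has kernel `(φ)`, `φ` irreducible with `deg_{X 0} φ ≥ 1`.  Let `B = K[X_1..X_m]`
(`MvPolynomial (Fin m) K`, embedded by `rename Fin.succ`).  `B → E` is injective (a multiple of `φ` which is not 0 has positive degree in
`X 0`, `degreeOf_mul_eq`), and `π (X 0)` is algebraic over `B` (root of `φ` read in `B[X]` by `finSuccEquiv`), so every `π g` is algebraic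
over `B`, and so is `r = π g / π h` (`IsAlgebraic.mul`, `.inv`; make `E` a `B`-algebra by `(π.comp (rename Fin.succ)).toRingHom.toAlgebra`).

`π (pderiv 0 φ) ≠ 0`: `pderiv 0 φ ≠ 0` (characteristic 0) has smaller degree in `X 0` than `φ`.

For `b ∈ B`: `dl π φ j b = π (pderiv j b)` (`pderiv 0 b = 0`).  Let `μ = ∑ μ_i T^i ∈ B[T]`, `μ ≠ 0`, `μ(r) = 0`, `k = natDegree μ`.  The
polynomial `R = ∑ μ_i g^i h^(k-i)` has `π R = (π h)^k μ(r) = 0`, so `φ ∣ R`, so `0 = dl j R` (`dl_of_dvd`)
`= ∑ π(∂_j μ_i) r^i (π h)^k + k (π h)^(k-1) dl j h ∑ μ_i r^i`, using `dl j g = r dl j h` (hypothesis `hD`) and `π g = r π h`.  So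
`∑ (∂_j μ_i) r^i = 0` for every `j`.

Choose `μ` with `k` minimal and then the total degree of the leading coefficient `c` minimal.  If `∂_j c ≠ 0` then `∑ (∂_j μ_i) T^i` has the
same degree `k` and a leading coefficient of smaller total degree: contradiction.  So `∂_j c = 0`, the polynomial `∑ (∂_j μ_i) T^i` has
degree `< k`, so it is `0`: `∂_j μ_i = 0` for all `i, j`, so (characteristic 0) `μ_i = C c_i` with `c_i ∈ K`, and `r` is algebraic over `K`.
-/

set_option autoImplicit false

open MvPolynomial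

namespace Pool.Agent.H8.SD

/-! ### reading a polynomial in the variable `X 0` -/

private theorem fse_C {K : Type} [Field K] {m : ℕ} (a : K) :
    finSuccEquiv K m (C a) = Polynomial.C (C a) := by
  exact (finSuccEquiv K m).commutes a

private theorem fse_pderiv {K : Type} [Field K] {m : ℕ} (g : MvPolynomial (Fin (m + 1)) K) :
    finSuccEquiv K m (pderiv 0 g) = Polynomial.derivative (finSuccEquiv K m g) := by
  induction g using MvPolynomial.induction_on with
  | C a => rw [pderiv_C, map_zero, fse_C, Polynomial.derivative_C]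
  | add p q hp hq => rw [map_add, map_add, map_add, map_add, hp, hq]
  | mul_X p i hp =>
    rw [Derivation.leibniz, map_mul, Polynomial.derivative_mul, map_add, smul_eq_mul, smul_eq_mul, map_mul,
      map_mul, hp]
    refine Fin.cases ?_ (fun j => ?_) i
    · rw [pderiv_X_self, finSuccEquiv_X_zero, Polynomial.derivative_X, map_one]; ring
    · rw [pderiv_X_of_ne (Fin.succ_ne_zero j), finSuccEquiv_X_succ, Polynomial.derivative_C, map_zero]; ring

private theorem fse_rename {K : Type} [Field K] {m : ℕ} (b : MvPolynomial (Fin m) K) :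
    finSuccEquiv K m (rename Fin.succ b) = Polynomial.C b := by
  induction b using MvPolynomial.induction_on with
  | C a => rw [rename_C, fse_C]
  | add p q hp hq => rw [map_add, map_add, hp, hq, Polynomial.C_add]
  | mul_X p i hp => rw [map_mul, map_mul, hp, rename_X, finSuccEquiv_X_succ, Polynomial.C_mul]

private theorem nd {K : Type} [Field K] {m : ℕ} {φ : MvPolynomial (Fin (m + 1)) K} (hdeg : φ.degreeOf 0 ≠ 0) :
    (finSuccEquiv K m φ).natDegree ≠ 0 := by
  rwa [natDegree_finSuccEquiv]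

private theorem fse_ne {K : Type} [Field K] {m : ℕ} {φ : MvPolynomial (Fin (m + 1)) K} (hdeg : φ.degreeOf 0 ≠ 0) :
    finSuccEquiv K m φ ≠ 0 := by
  intro h
  apply nd hdeg
  rw [h, Polynomial.natDegree_zero]

theorem pderiv_zero_ne {K E : Type} [Field K] [CharZero K] [Field E] [Algebra K E] {m : ℕ} {φ : MvPolynomial (Fin (m + 1)) K}
    (hdeg : φ.degreeOf 0 ≠ 0) (π : MvPolynomial (Fin (m + 1)) K →ₐ[K] E)
    (hπ : ∀ g, π g = 0 ↔ φ ∣ g) : π (pderiv 0 φ) ≠ 0 := by
  intro h0
  have h1 := (hπ _).mp h0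
  have h2 : finSuccEquiv K m φ ∣ Polynomial.derivative (finSuccEquiv K m φ) := by
    rw [← fse_pderiv]; exact map_dvd (finSuccEquiv K m) h1
  have h3 := Polynomial.eq_zero_of_dvd_of_degree_lt h2 (Polynomial.degree_derivative_lt (fse_ne hdeg))
  exact nd hdeg (Polynomial.derivative_eq_zero.mp h3)

/-- the embedding of the polynomials without `X 0` -/
private noncomputable def io {K E : Type} [Field K] [Field E] [Algebra K E] {m : ℕ}
    (π : MvPolynomial (Fin (m + 1)) K →ₐ[K] E) : MvPolynomial (Fin m) K →+* E :=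
  (π.comp (rename Fin.succ)).toRingHom

private theorem io_apply {K E : Type} [Field K] [Field E] [Algebra K E] {m : ℕ}
    (π : MvPolynomial (Fin (m + 1)) K →ₐ[K] E) (b : MvPolynomial (Fin m) K) :
    io π b = π (rename Fin.succ b) := rfl

private theorem eval_fse {K E : Type} [Field K] [Field E] [Algebra K E] {m : ℕ}
    (π : MvPolynomial (Fin (m + 1)) K →ₐ[K] E) (g : MvPolynomial (Fin (m + 1)) K) :
    (finSuccEquiv K m g).eval₂ (io π) (π (X 0)) = π g := by
  induction g using MvPolynomial.induction_on with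
  | C a => rw [fse_C, Polynomial.eval₂_C, io_apply, rename_C]
  | add p q hp hq => rw [map_add, Polynomial.eval₂_add, hp, hq, map_add]
  | mul_X p i hp =>
    rw [map_mul, Polynomial.eval₂_mul, hp, map_mul]
    congr 1
    refine Fin.cases ?_ (fun j => ?_) i
    · rw [finSuccEquiv_X_zero, Polynomial.eval₂_X]
    · rw [finSuccEquiv_X_succ, Polynomial.eval₂_C, io_apply, rename_X]

private theorem exists_root {K E : Type} [Field K] [Field E] [Algebra K E] {m : ℕ} {φ : MvPolynomial (Fin (m + 1)) K}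
    (hdeg : φ.degreeOf 0 ≠ 0) (π : MvPolynomial (Fin (m + 1)) K →ₐ[K] E)
    (hφ : π φ = 0) (g h : MvPolynomial (Fin (m + 1)) K) :
    ∃ μ : Polynomial (MvPolynomial (Fin m) K), μ ≠ 0 ∧ μ.eval₂ (io π) (π g / π h) = 0 := by
  let _ : Algebra (MvPolynomial (Fin m) K) E := (io π).toAlgebra
  have hX : IsAlgebraic (MvPolynomial (Fin m) K) (π (X 0)) := by
    refine ⟨finSuccEquiv K m φ, fse_ne hdeg, ?_⟩
    have := eval_fse π φ
    rw [hφ] at this
    exact this
  have hC : ∀ b : MvPolynomial (Fin m) K, IsAlgebraic (MvPolynomial (Fin m) K) (π (rename Fin.succ b)) := by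
    intro b
    exact isAlgebraic_algebraMap (R := MvPolynomial (Fin m) K) (A := E) b
  have hall : ∀ q : MvPolynomial (Fin (m + 1)) K, IsAlgebraic (MvPolynomial (Fin m) K) (π q) := by
    intro q
    induction q using MvPolynomial.induction_on with
    | C a => simpa using hC (C a)
    | add p q hp hq => rw [map_add]; exact hp.add hq
    | mul_X p i hp =>
      rw [map_mul]
      refine hp.mul ?_
      refine Fin.cases hX (fun j => ?_) i
      simpa using hC (X j)
  have hr : IsAlgebraic (MvPolynomial (Fin m) K) (π g / π h) := by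
    rw [div_eq_mul_inv]
    exact (hall g).mul (hall h).inv
  obtain ⟨μ, hμ, h0⟩ := hr
  exact ⟨μ, hμ, h0⟩

/-! ### differentiating the coefficients -/

private noncomputable def Dp {K : Type} [Field K] {m : ℕ} (j : Fin m) (μ : Polynomial (MvPolynomial (Fin m) K)) :
    Polynomial (MvPolynomial (Fin m) K) :=
  ∑ i ∈ Finset.range (μ.natDegree + 1), Polynomial.monomial i (pderiv j (μ.coeff i))

private theorem coeff_Dp {K : Type} [Field K] {m : ℕ} (j : Fin m) (μ : Polynomial (MvPolynomial (Fin m) K)) (n : ℕ) :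
    (Dp j μ).coeff n = pderiv j (μ.coeff n) := by
  unfold Dp
  rw [Polynomial.finsetSum_coeff]
  simp only [Polynomial.coeff_monomial]
  rw [Finset.sum_ite_eq']
  split_ifs with hn
  · rfl
  · rw [Finset.mem_range, not_lt] at hn
    rw [Polynomial.coeff_eq_zero_of_natDegree_lt (by omega), map_zero]

private theorem natDegree_Dp {K : Type} [Field K] {m : ℕ} (j : Fin m) (μ : Polynomial (MvPolynomial (Fin m) K)) :
    (Dp j μ).natDegree ≤ μ.natDegree := by
  rw [Polynomial.natDegree_le_iff_coeff_eq_zero]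
  intro N hN
  rw [coeff_Dp, Polynomial.coeff_eq_zero_of_natDegree_lt hN, map_zero]

private theorem eval_Dp {K E : Type} [Field K] [Field E] {m : ℕ} (f : MvPolynomial (Fin m) K →+* E) (r : E)
    (j : Fin m) (μ : Polynomial (MvPolynomial (Fin m) K)) :
    (Dp j μ).eval₂ f r = ∑ i ∈ Finset.range (μ.natDegree + 1), f (pderiv j (μ.coeff i)) * r ^ i := by
  unfold Dp
  rw [Polynomial.eval₂_finsetSum]
  refine Finset.sum_congr rfl fun i _ => ?_
  rw [Polynomial.eval₂_monomial]

section
variable {K E : Type} [Field K] [Field E] [Algebra K E] {m : ℕ} {φ : MvPolynomial (Fin (m + 1)) K}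
  {π : MvPolynomial (Fin (m + 1)) K →ₐ[K] E}

private theorem dl_rename (j : Fin m) (b : MvPolynomial (Fin m) K) :
    dl π φ j (rename Fin.succ b) = io π (pderiv j b) := by
  have h1 : pderiv (0 : Fin (m + 1)) (rename Fin.succ b) = 0 := by
    apply pderiv_eq_zero_of_notMem_vars
    intro h
    have h2 := vars_rename (Fin.succ : Fin m → Fin (m + 1)) b h
    rw [Finset.mem_image] at h2
    obtain ⟨a, _, ha⟩ := h2
    exact Fin.succ_ne_zero a ha
  rw [dl, pderiv_rename (Fin.succ_injective m), h1, map_zero, mul_zero, sub_zero]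
  rfl

private theorem dl_pow {g h : MvPolynomial (Fin (m + 1)) K} {r : E} (hr : π g = r * π h) {j : Fin m}
    (hd : dl π φ j g = r * dl π φ j h) (i : ℕ) :
    dl π φ j (g ^ i) * π h = (i : E) * (r ^ i * π h ^ i * dl π φ j h) := by
  induction i with
  | zero =>
    have : (g ^ 0 : MvPolynomial (Fin (m + 1)) K) = C 1 := by simp
    rw [this, dl_C]; simp
  | succ n ih =>
    rw [pow_succ, dl_mul, map_pow, hr, hd]
    push_cast
    linear_combination (r * π h) * ih

private theorem dl_pow_mul {g h : MvPolynomial (Fin (m + 1)) K} {r : E} (hr : π g = r * π h) {j : Fin m}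
    (hd : dl π φ j g = r * dl π φ j h) (i l : ℕ) :
    dl π φ j (g ^ i * h ^ l) * π h = ((i + l : ℕ) : E) * (r ^ i * π h ^ (i + l) * dl π φ j h) := by
  have h1 := dl_pow hr hd i
  have h2 := dl_pow (φ := φ) (π := π) (g := h) (h := h) (r := 1) (by ring) (j := j) (by ring) l
  rw [one_pow, one_mul] at h2
  rw [dl_mul, map_pow, map_pow, hr]
  push_cast
  rw [pow_add, mul_pow]
  linear_combination (π h ^ l) * h1 + (r ^ i * π h ^ i) * h2

private theorem Dp_root (hφ : π φ = 0) (hφ0 : π (pderiv 0 φ) ≠ 0) (hπ : ∀ g, π g = 0 ↔ φ ∣ g)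
    {g h : MvPolynomial (Fin (m + 1)) K} (hh : π h ≠ 0)
    {r : E} (hr : π g = r * π h) {j : Fin m} (hd : dl π φ j g = r * dl π φ j h)
    (μ : Polynomial (MvPolynomial (Fin m) K)) (hμ : μ.eval₂ (io π) r = 0) : (Dp j μ).eval₂ (io π) r = 0 := by
  set k := μ.natDegree with hk
  set R : MvPolynomial (Fin (m + 1)) K :=
    ∑ i ∈ Finset.range (k + 1), rename Fin.succ (μ.coeff i) * (g ^ i * h ^ (k - i)) with hR
  have hμ' : ∑ i ∈ Finset.range (k + 1), io π (μ.coeff i) * r ^ i = 0 := by
    rw [← hμ, Polynomial.eval₂_eq_sum_range]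
  have hterm : ∀ i ∈ Finset.range (k + 1), π (g ^ i * h ^ (k - i)) = r ^ i * π h ^ k := by
    intro i hi
    have hi' : i ≤ k := by have := Finset.mem_range.mp hi; omega
    rw [map_mul, map_pow, map_pow, hr, mul_pow, mul_assoc, ← pow_add, Nat.add_sub_cancel' hi']
  have hπR : π R = 0 := by
    rw [hR, map_sum]
    have : ∀ i ∈ Finset.range (k + 1), π (rename Fin.succ (μ.coeff i) * (g ^ i * h ^ (k - i)))
        = (io π (μ.coeff i) * r ^ i) * π h ^ k := by
      intro i hi
      rw [map_mul, hterm i hi, io_apply]; ring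
    rw [Finset.sum_congr rfl this, ← Finset.sum_mul, hμ', zero_mul]
  have hdl := dl_of_dvd hφ hφ0 j ((hπ R).mp hπR)
  have h2 : dl π φ j R * π h = π h ^ (k + 1) * (∑ i ∈ Finset.range (k + 1), io π (pderiv j (μ.coeff i)) * r ^ i)
      + ((k : E) * π h ^ k * dl π φ j h) * ∑ i ∈ Finset.range (k + 1), io π (μ.coeff i) * r ^ i := by
    rw [hR, dl_sum, Finset.sum_mul, Finset.mul_sum, Finset.mul_sum, ← Finset.sum_add_distrib]
    refine Finset.sum_congr rfl fun i hi => ?_
    have hi' : i ≤ k := by have := Finset.mem_range.mp hi; omega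
    have h3 := dl_pow_mul hr hd i (k - i)
    rw [Nat.add_sub_cancel' hi'] at h3
    rw [dl_mul, dl_rename, hterm i hi, ← io_apply]
    linear_combination (io π (μ.coeff i)) * h3
  rw [hdl, zero_mul, hμ', mul_zero, add_zero] at h2
  rw [eval_Dp]
  rcases mul_eq_zero.mp h2.symm with h3 | h3
  · exact absurd h3 (pow_ne_zero _ hh)
  · exact h3

end

theorem td_pderiv {K : Type} [Field K] {m : ℕ} (j : Fin m) (c : MvPolynomial (Fin m) K)
    (hc : pderiv j c ≠ 0) : (pderiv j c).totalDegree < c.totalDegree := by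
  have key : ∀ s ∈ (pderiv j c).support, (s.sum fun _ e => e) + 1 ≤ c.totalDegree := by
    intro s hs
    rw [mem_support_iff, coeff_pderiv] at hs
    have h1 : coeff (s + Finsupp.single j 1) c ≠ 0 := left_ne_zero_of_mul hs
    have h2 := le_totalDegree (mem_support_iff.mpr h1)
    rw [Finsupp.sum_add_index' (fun _ => rfl) (fun _ _ _ => rfl), Finsupp.sum_single_index rfl] at h2
    exact h2
  obtain ⟨s, hs⟩ := support_nonempty.mpr hc
  have h0 := key s hs
  rw [totalDegree, Finset.sup_lt_iff (by simpa using (by omega : 0 < c.totalDegree))]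
  intro t ht
  have := key t ht
  omega

theorem const_of_pderiv {K : Type} [Field K] [CharZero K] {m : ℕ} (b : MvPolynomial (Fin m) K)
    (hb : ∀ j, pderiv j b = 0) : b = C (constantCoeff b) := by
  ext s
  rw [coeff_C]
  split_ifs with hs
  · rw [← hs]; rfl
  · obtain ⟨j, hj⟩ : ∃ j, s j ≠ 0 := by
      by_contra hcon
      push Not at hcon
      exact hs (Finsupp.ext fun j => (hcon j).symm)
    have h1 := coeff_pderiv (i := j) b (s - Finsupp.single j 1)
    rw [hb j, coeff_zero] at h1
    have h2 : s - Finsupp.single j 1 + Finsupp.single j 1 = s := by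
      apply tsub_add_cancel_of_le
      rw [Finsupp.single_le_iff]
      omega
    rw [h2] at h1
    rcases mul_eq_zero.mp h1.symm with h3 | h3
    · exact h3
    · exact absurd h3 (Nat.cast_add_one_ne_zero _)

theorem alg_of_dl {K E : Type} [Field K] [CharZero K] [Field E] [Algebra K E] {m : ℕ} {φ : MvPolynomial (Fin (m + 1)) K}
    (hφ : Irreducible φ) (hdeg : φ.degreeOf 0 ≠ 0) (π : MvPolynomial (Fin (m + 1)) K →ₐ[K] E)
    (hπ : ∀ g, π g = 0 ↔ φ ∣ g) {g h : MvPolynomial (Fin (m + 1)) K} (hh : π h ≠ 0)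
    (hD : ∀ j : Fin m, dl π φ j g * π h = π g * dl π φ j h) : IsAlgebraic K (π g / π h) := by
  have hφπ : π φ = 0 := (hπ φ).mpr dvd_rfl
  have hφ0 := pderiv_zero_ne hdeg π hπ
  have hr : π g = (π g / π h) * π h := by rw [div_mul_cancel₀ _ hh]
  have hd : ∀ j : Fin m, dl π φ j g = (π g / π h) * dl π φ j h := by
    intro j
    rw [div_mul_eq_mul_div, eq_div_iff hh]
    exact hD j
  obtain ⟨μ₀, hμ₀, hroot₀⟩ := exists_root hdeg π hφπ g h
  obtain ⟨μ, ⟨hμ, hroot⟩, hmin⟩ := WellFounded.has_min
    (InvImage.wf (fun μ : Polynomial (MvPolynomial (Fin m) K) =>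
      (toLex (μ.natDegree, μ.leadingCoeff.totalDegree) : ℕ ×ₗ ℕ)) wellFounded_lt)
    {μ | μ ≠ 0 ∧ μ.eval₂ (io π) (π g / π h) = 0} ⟨μ₀, hμ₀, hroot₀⟩
  have hD0 : ∀ j, Dp j μ = 0 := by
    intro j
    by_contra hne
    have h1 := hmin (Dp j μ) ⟨hne, Dp_root hφπ hφ0 hπ hh hr (hd j) μ hroot⟩
    apply h1
    change toLex ((Dp j μ).natDegree, (Dp j μ).leadingCoeff.totalDegree)
      < toLex (μ.natDegree, μ.leadingCoeff.totalDegree)
    rw [Prod.Lex.toLex_lt_toLex]
    rcases lt_or_eq_of_le (natDegree_Dp j μ) with h2 | h2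
    · exact Or.inl h2
    · refine Or.inr ⟨h2, ?_⟩
      have h3 : (Dp j μ).leadingCoeff = pderiv j μ.leadingCoeff := by
        rw [Polynomial.leadingCoeff, h2, coeff_Dp]; rfl
      change (Dp j μ).leadingCoeff.totalDegree < μ.leadingCoeff.totalDegree
      rw [h3]
      apply td_pderiv
      rw [← h3]
      exact Polynomial.leadingCoeff_ne_zero.mpr hne
  have hcoef : ∀ n, μ.coeff n = C (constantCoeff (μ.coeff n)) := by
    intro n
    apply const_of_pderiv
    intro j
    rw [← coeff_Dp, hD0 j, Polynomial.coeff_zero]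
  have hmap : μ = (μ.map constantCoeff).map C := by
    ext1 n
    rw [Polynomial.coeff_map, Polynomial.coeff_map]
    exact hcoef n
  refine ⟨μ.map constantCoeff, ?_, ?_⟩
  · intro h0
    apply hμ
    rw [hmap, h0, Polynomial.map_zero]
  · have h1 : (μ.map constantCoeff).eval₂ ((io π).comp C) (π g / π h) = 0 := by
      rw [← Polynomial.eval₂_map, ← hmap]
      exact hroot
    have h2 : (io π).comp C = algebraMap K E := by
      ext a
      rw [RingHom.comp_apply, io_apply, rename_C, ← algebraMap_eq, AlgHom.commutes]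
    rw [h2] at h1
    exact h1

end Pool.Agent.H8.SD
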