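import Mathlib

/-! # SD Min: minimal primes of a pair (helper31) -/

set_option autoImplicit false

namespace Pool.Agent.H8.SD

/-- A prime generated by two elements which contains a prime element `F` and some `G` not divisible
by `F` is a minimal prime of `(F, G)`. -/
theorem mem_minimalPrimes_pair {R : Type*} [CommRing R] [IsDomain R] [IsNoetherianRing R] {F G : R}
    (hF : Prime F) (hG : ¬ F ∣ G) (P : Ideal R) [hP : P.IsPrime] (hFP : F ∈ P) (hGP : G ∈ P)
    (a b : R) (hab : P = Ideal.span {a, b}) : P ∈ (Ideal.span {F, G} : Ideal R).minimalPrimes := by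
  have hle : (Ideal.span {F, G} : Ideal R) ≤ P := by
    rw [Ideal.span_le]
    rintro x (rfl | rfl)
    · exact hFP
    · exact hGP
  obtain ⟨q, hq, hqP⟩ := Ideal.exists_minimalPrimes_le hle
  have hq1 : q.IsPrime := hq.1.1
  by_cases h : q = P
  · rw [← h]
    exact hq
  exfalso
  have hlt : q < P := lt_of_le_of_ne hqP h
  have hFp : (Ideal.span {F} : Ideal R).IsPrime := (Ideal.span_singleton_prime hF.ne_zero).2 hF
  have hFq : (Ideal.span {F} : Ideal R) < q := by
    refine lt_of_le_of_ne ?_ ?_
    · rw [Ideal.span_singleton_le_iff_mem]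
      exact hq.1.2 (Ideal.subset_span (by simp))
    · intro h1
      have h2 : G ∈ (Ideal.span {F} : Ideal R) := by
        rw [h1]
        exact hq.1.2 (Ideal.subset_span (by simp))
      exact hG (Ideal.mem_span_singleton.1 h2)
  have h0F : (⊥ : Ideal R) < Ideal.span {F} := by
    rw [bot_lt_iff_ne_bot, Ne, Ideal.span_singleton_eq_bot]
    exact hF.ne_zero
  have hbot : (⊥ : Ideal R).IsPrime := Ideal.isPrime_bot
  have e1 := Ideal.height_add_one_le_of_lt_of_isPrime h0F
  have e2 := Ideal.height_add_one_le_of_lt_of_isPrime hFq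
  have e3 := Ideal.height_add_one_le_of_lt_of_isPrime hlt
  have h3 : (3 : ℕ∞) ≤ P.height := by
    calc (3 : ℕ∞) = 0 + 1 + 1 + 1 := by norm_num
      _ ≤ (⊥ : Ideal R).height + 1 + 1 + 1 := by gcongr; exact zero_le
      _ ≤ (Ideal.span {F} : Ideal R).height + 1 + 1 := by gcongr
      _ ≤ q.height + 1 := by gcongr
      _ ≤ P.height := e3
  have h4 : P.height ≤ 2 := by
    have h5 : P ∈ (Ideal.span ({a, b} : Set R)).minimalPrimes := by
      rw [← hab, Ideal.minimalPrimes_eq_subsingleton_self]
      exact Set.mem_singleton _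
    have h6 := Ideal.height_le_card_of_mem_minimalPrimes_span (Set.toFinite _) h5
    refine h6.trans ?_
    have h7 := Set.ncard_insert_le a ({b} : Set R)
    rw [Set.ncard_singleton] at h7
    exact_mod_cast h7
  exact absurd (h3.trans h4) (by norm_num)

theorem finite_pair {R : Type*} [CommRing R] [IsNoetherianRing R] (F G : R) :
    ((Ideal.span {F, G} : Ideal R).minimalPrimes).Finite :=
  Ideal.finite_minimalPrimes_of_isNoetherianRing R _

end Pool.Agent.H8.SD
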