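import Pool.Agent.H8.SD.Dens
import Pool.Agent.H8.SD.Min

/-!
# SD Cls: finitely many prime ideals of components of tangent sections

`F` irreducible, `G` vanishes at all zeros of `F` in `K`, `F ∤ G`.  Let `Good F Q M φ` and `P = cls M φ`, a prime ideal (comap of the prime
ideal `(φ)`).  `F ∈ P` (`Good.dvd`); `G ∈ P` by `dens`: a zero `y` of `φ` gives the zero `M y` of `F` (`eval_pull`), so of `G`.

`P = span {N, pull R φ}` with `R M = 1`, `N = lin (grd F Q)`: `pull M N = 0`, and for every `g`,
`g - pull R (pull M g) ∈ span {N}` (two algebra homomorphisms to the quotient by `N`, enough for `g = X i`: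
`x - M R x = N(x) c`, because `1 - M R` kills the range of `M`, which is the kernel of the linear form `grd F Q ≠ 0`; if `grd F Q = 0` then
`Par.ker` says that `M` is surjective, impossible for dimensions), and if
`pull M g = φ h`, then `pull R (pull M g) = pull R φ * pull R h`.  Now `mem_minimalPrimes_pair` (Min.lean).
-/

set_option autoImplicit false

open MvPolynomial Matrix

namespace Pool.Agent.H8.SD

private theorem pull_pull {K : Type} [Field K] {a b c : ℕ} (A : Matrix (Fin a) (Fin b) K)
    (D : Matrix (Fin b) (Fin c) K) (g : MvPolynomial (Fin a) K) :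
    pull D (pull A g) = pull (A * D) g := by
  have h : (pull D).comp (pull A) = pull (A * D) := by
    refine MvPolynomial.algHom_ext fun i => ?_
    rw [AlgHom.comp_apply]
    have h1 : pull A (X i) = lin (A i) := by simp [pull]
    have h2 : pull (A * D) (X i) = lin ((A * D) i) := by simp [pull]
    rw [h1, h2, pull_lin]
    rfl
  exact DFunLike.congr_fun h g

private theorem lin_one {K : Type} [Field K] {a : ℕ} (i : Fin a) :
    lin ((1 : Matrix (Fin a) (Fin a) K) i) = X i := by
  unfold lin
  rw [Finset.sum_eq_single i]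
  · simp
  · intro b _ hb
    rw [Matrix.one_apply_ne hb.symm]
    simp
  · simp

private theorem pull_one {K : Type} [Field K] {a : ℕ} (g : MvPolynomial (Fin a) K) :
    pull (1 : Matrix (Fin a) (Fin a) K) g = g := by
  have h : pull (1 : Matrix (Fin a) (Fin a) K) = AlgHom.id K _ := by
    refine MvPolynomial.algHom_ext fun i => ?_
    have h1 : pull (1 : Matrix (Fin a) (Fin a) K) (X i) = lin ((1 : Matrix (Fin a) (Fin a) K) i) := by
      simp [pull]
    rw [h1, lin_one]
    rfl
  rw [h]
  rfl

private theorem lin_sub {K : Type} [Field K] {a : ℕ} (l l' : Fin a → K) :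
    lin (l - l') = lin l - lin l' := by
  simp [lin, sub_mul, Finset.sum_sub_distrib]

private theorem lin_smul {K : Type} [Field K] {a : ℕ} (c : K) (l : Fin a → K) :
    lin (c • l) = C c * lin l := by
  simp [lin, Finset.mul_sum, mul_assoc]

theorem grd_ne {K : Type} [Field K] {m : ℕ} {F : MvPolynomial (Fin (m + 2)) K}
    {Q : Fin (m + 2) → K} {M : Matrix (Fin (m + 2)) (Fin (m + 1)) K} (h : Par F Q M) :
    grd F Q ≠ 0 := by
  intro h0
  have hs : Function.Surjective M.mulVecLin := by
    intro v
    obtain ⟨y, hy⟩ := (h.ker v).1 (by rw [h0, zero_dotProduct])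
    exact ⟨y, by rw [Matrix.mulVecLin_apply, hy]⟩
  have h1 := LinearMap.finrank_le_finrank_of_surjective hs
  simp at h1

/-- The rows of `1 - M R` are multiples of the gradient. -/
private theorem row_eq {K : Type} [Field K] {m : ℕ} {F : MvPolynomial (Fin (m + 2)) K}
    {Q : Fin (m + 2) → K} {M : Matrix (Fin (m + 2)) (Fin (m + 1)) K} (h : Par F Q M)
    {R : Matrix (Fin (m + 1)) (Fin (m + 2)) K} (hR : R * M = 1) (i : Fin (m + 2)) :
    ∃ c : K, (1 : Matrix (Fin (m + 2)) (Fin (m + 2)) K) i - (M * R) i = c • grd F Q := by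
  obtain ⟨j, hj⟩ := Function.ne_iff.1 (grd_ne h)
  rw [Pi.zero_apply] at hj
  set l : Fin (m + 2) → K := (1 : Matrix (Fin (m + 2)) (Fin (m + 2)) K) i - (M * R) i with hl
  have hker : ∀ v, grd F Q ⬝ᵥ v = 0 → l ⬝ᵥ v = 0 := by
    intro v hv
    obtain ⟨y, rfl⟩ := (h.ker v).1 hv
    have e1 : (1 : Matrix (Fin (m + 2)) (Fin (m + 2)) K) i ⬝ᵥ (M *ᵥ y) = (M *ᵥ y) i := by
      have := congrFun (Matrix.one_mulVec (M *ᵥ y)) i
      exact this
    have e2 : (M * R) i ⬝ᵥ (M *ᵥ y) = (M *ᵥ y) i := by
      have h1 : (M * R) *ᵥ (M *ᵥ y) = M *ᵥ y := by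
        rw [Matrix.mulVec_mulVec, Matrix.mul_assoc, hR, Matrix.mul_one]
      exact congrFun h1 i
    rw [hl, sub_dotProduct, e1, e2, sub_self]
  refine ⟨l j / grd F Q j, ?_⟩
  funext k
  have h2 := hker (fun a => if a = k then grd F Q j else if a = j then - grd F Q k else 0)
  by_cases hkj : k = j
  · subst hkj
    rw [Pi.smul_apply, smul_eq_mul, div_mul_cancel₀ _ hj]
  · have hsum : ∀ u : Fin (m + 2) → K,
        u ⬝ᵥ (fun a => if a = k then grd F Q j else if a = j then - grd F Q k else 0) =
          u k * grd F Q j - u j * grd F Q k := by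
      intro u
      have e3 : (fun a : Fin (m + 2) => if a = k then grd F Q j else if a = j then - grd F Q k else 0) =
          Pi.single k (grd F Q j) + Pi.single j (- grd F Q k) := by
        funext a
        rw [Pi.add_apply]
        by_cases h3 : a = k
        · subst h3
          rw [if_pos rfl, Pi.single_eq_same, Pi.single_eq_of_ne hkj, add_zero]
        · rw [if_neg h3, Pi.single_eq_of_ne h3, zero_add]
          by_cases h4 : a = j
          · subst h4
            rw [if_pos rfl, Pi.single_eq_same]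
          · rw [if_neg h4, Pi.single_eq_of_ne h4]
      rw [e3, dotProduct_add, dotProduct_single, dotProduct_single]
      ring
    rw [hsum, hsum] at h2
    have h5 := h2 (by ring)
    rw [Pi.smul_apply, smul_eq_mul]
    field_simp
    linear_combination h5

theorem sub_mem {K : Type} [Field K] {m : ℕ} {F : MvPolynomial (Fin (m + 2)) K}
    {Q : Fin (m + 2) → K} {M : Matrix (Fin (m + 2)) (Fin (m + 1)) K} (h : Par F Q M)
    {R : Matrix (Fin (m + 1)) (Fin (m + 2)) K} (hR : R * M = 1) (g : MvPolynomial (Fin (m + 2)) K) :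
    g - pull R (pull M g) ∈ Ideal.span {lin (grd F Q)} := by
  set I : Ideal (MvPolynomial (Fin (m + 2)) K) := Ideal.span {lin (grd F Q)} with hI
  have h1 : Ideal.Quotient.mkₐ K I = (Ideal.Quotient.mkₐ K I).comp (pull (M * R)) := by
    refine MvPolynomial.algHom_ext fun i => ?_
    have h2 : pull (M * R) (X i) = lin ((M * R) i) := by simp [pull]
    rw [AlgHom.comp_apply, h2, Ideal.Quotient.mkₐ_eq_mk, Ideal.Quotient.eq, ← lin_one i, ← lin_sub]
    obtain ⟨c, hc⟩ := row_eq h hR i
    rw [hc, lin_smul]
    exact I.mul_mem_left _ (Ideal.subset_span (Set.mem_singleton _))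
  have h3 := DFunLike.congr_fun h1 g
  rw [AlgHom.comp_apply, Ideal.Quotient.mkₐ_eq_mk, Ideal.Quotient.eq] at h3
  rw [pull_pull]
  exact h3

theorem cls_mem_minimalPrimes {K : Type} [Field K] [CharZero K] (hK : Sol K) {m : ℕ} {F G : MvPolynomial (Fin (m + 2)) K}
    (hF : Irreducible F) (hG : ∀ x, eval x F = 0 → eval x G = 0) (hFG : ¬ F ∣ G) {Q : Fin (m + 2) → K}
    {M : Matrix (Fin (m + 2)) (Fin (m + 1)) K} {φ : MvPolynomial (Fin (m + 1)) K} (h : Good F Q M φ) :
    cls M φ ∈ (Ideal.span {F, G}).minimalPrimes := by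
  obtain ⟨R, hR⟩ := h.par.inv
  have hφp : (Ideal.span {φ} : Ideal (MvPolynomial (Fin (m + 1)) K)).IsPrime :=
    (Ideal.span_singleton_prime h.irr.ne_zero).2 h.irr.prime
  have hP : (cls M φ).IsPrime := Ideal.comap_isPrime _ _
  refine mem_minimalPrimes_pair hF.prime hFG (cls M φ) (mem_cls.2 h.dvd) (mem_cls.2 ?_)
    (lin (grd F Q)) (pull R φ) ?_
  · refine dens hK h.irr h.deg h.deg4 fun y hy => ?_
    rw [eval_pull]
    refine hG _ ?_
    rw [← eval_pull]
    obtain ⟨u, hu⟩ := h.dvd
    rw [hu, map_mul, hy, zero_mul]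
  · apply le_antisymm
    · intro g hg
      obtain ⟨u, hu⟩ := mem_cls.1 hg
      have h1 := sub_mem h.par hR g
      have h2 : Ideal.span {lin (grd F Q)} ≤ Ideal.span {lin (grd F Q), pull R φ} :=
        Ideal.span_mono (by intro x hx; rw [Set.mem_singleton_iff] at hx; simp [hx])
      have h3 : pull R (pull M g) ∈ Ideal.span {lin (grd F Q), pull R φ} := by
        rw [hu, map_mul]
        exact Ideal.mul_mem_right _ _ (Ideal.subset_span (by simp))
      have h4 := Ideal.add_mem _ (h2 h1) h3
      rwa [sub_add_cancel] at h4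
    · rw [Ideal.span_le]
      rintro x (rfl | rfl)
      · rw [SetLike.mem_coe, mem_cls, pull_lin]
        have h5 : grd F Q ᵥ* M = 0 := by
          funext j
          have h6 := (h.par.ker (M *ᵥ Pi.single j 1)).2 ⟨_, rfl⟩
          rw [dotProduct_mulVec, dotProduct_single, mul_one] at h6
          exact h6
        rw [h5]
        have h7 : lin (0 : Fin (m + 1) → K) = 0 := by simp [lin]
        rw [h7]
        exact dvd_zero _
      · rw [SetLike.mem_coe, mem_cls, pull_pull, hR, pull_one]

end Pool.Agent.H8.SD
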