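import Pool.Agent.H8.SD.Sec

/-!
# SD Cor: passage from the statement to `Good`
-/

set_option autoImplicit false

open MvPolynomial Matrix

namespace Pool.Agent.H8.SD

theorem pull_ne_zero {K : Type} [Field K] {m d : ℕ} (hd : 2 ≤ d) {F : MvPolynomial (Fin (m + 2)) K} (hF : F.IsHomogeneous d)
    (hFirr : Irreducible F) {P : Fin (m + 2) → K} {M : Matrix (Fin (m + 2)) (Fin (m + 1)) K} (hM : Par F P M) :
    pull M F ≠ 0 := by
  intro h0
  obtain ⟨R, hR⟩ := hM.inv
  have h1 := sub_mem hM hR F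
  rw [h0, map_zero, sub_zero, Ideal.mem_span_singleton] at h1
  have hne : lin (grd F P) ≠ 0 := by
    intro h2
    rw [h2, zero_dvd_iff] at h1
    exact hFirr.ne_zero h1
  have h3 : (lin (grd F P)).totalDegree ≤ 1 := by
    unfold lin
    refine (totalDegree_finset_sum _ _).trans (Finset.sup_le fun i _ => ?_)
    refine (totalDegree_mul _ _).trans ?_
    rw [totalDegree_C, totalDegree_X]
  have hFd : F.totalDegree = d := hF.totalDegree hFirr.ne_zero
  obtain ⟨g, hg⟩ := h1
  rcases hFirr.isUnit_or_isUnit hg with hu | hu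
  · -- a linear form is not a unit
    obtain ⟨u, hu', hCu⟩ := isUnit_iff_eq_C_of_isReduced.1 hu
    have h4 : eval 0 (lin (grd F P)) = 0 := by rw [eval_lin, dotProduct_zero]
    rw [hCu, eval_C] at h4
    rw [h4, C_0] at hCu
    exact hne hCu
  · have hg0 : g ≠ 0 := hu.ne_zero
    obtain ⟨u, hu', hCu⟩ := isUnit_iff_eq_C_of_isReduced.1 hu
    rw [hg, totalDegree_mul_of_isDomain hne hg0, hCu, totalDegree_C] at hFd
    omega

theorem good_of_factor {K : Type} [Field K] [CharZero K] {m d : ℕ} (hd : 3 ≤ d) (hd6 : d ≤ 6) {F : MvPolynomial (Fin (m + 2)) K}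
    (hF : F.IsHomogeneous d) (hFirr : Irreducible F) {P : Fin (m + 2) → K} {M : Matrix (Fin (m + 2)) (Fin (m + 1)) K}
    (h0 : eval P F = 0) (hM : Par F P M) {φ : MvPolynomial (Fin (m + 1)) K} (hφ : Irreducible φ) (hdvd : φ ∣ pull M F)
    (hp : pderiv 0 φ ≠ 0) : Good F P M φ := by
  have hf0 := pull_ne_zero (by omega : 2 ≤ d) hF hFirr hM
  have hhom : (pull M F).IsHomogeneous d := da_pull_hom M hF
  have hdeg : φ.degreeOf 0 ≠ 0 := by
    intro h1
    apply hp
    apply pderiv_eq_zero_of_notMem_vars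
    rw [mem_vars_iff_degreeOf_ne_zero]
    simpa using h1
  obtain ⟨g, hg⟩ := hdvd
  have hg0 : g ≠ 0 := by
    rintro rfl
    rw [mul_zero] at hg
    exact hf0 hg
  obtain ⟨a, b, ha, -, -⟩ := hom_of_mul (by rw [← hg]; exact hhom) hφ.ne_zero hg0
  have ha0 : a ≠ 0 := by
    rintro rfl
    apply hdeg
    have h1 := (totalDegree_eq_zero_iff_eq_C (p := φ)).1 (Nat.le_zero.1 ha.totalDegree_le)
    rw [h1]
    exact degreeOf_C _ _
  refine ⟨h0, hM, hφ, ⟨g, hg⟩, hdeg, ?_, ?_⟩
  · have := degreeOf_mul_eq (n := 0) hφ.ne_zero hg0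
    rw [← hg] at this
    have := degreeOf_pull_le hd hd6 hF h0 hM
    omega
  · have h1 : eval 0 φ = coeff 0 φ := by
      rw [← constantCoeff_eq]
      exact congrFun (congrArg DFunLike.coe eval_zero) φ
    rw [h1]
    exact ha.coeff_eq_zero (by simpa using ha0.symm)

theorem par_of_basis {K : Type} [Field K] {n k : ℕ} {F : MvPolynomial (Fin n) K} {P : Fin n → K} {v : Fin (k + 1) → Fin n → K}
    (hv : LinearIndependent K v) (hs : ∀ w, grd F P ⬝ᵥ w = 0 ↔ w ∈ Submodule.span K (Set.range v)) (h0 : v 0 = P) :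
    Par F P (Matrix.of fun i j => v j i) := by
  have hmul : ∀ y : Fin (k + 1) → K, (Matrix.of fun i j => v j i) *ᵥ y = ∑ j, y j • v j := by
    intro y
    funext i
    rw [mulVec, dotProduct, Finset.sum_apply]
    refine Finset.sum_congr rfl fun j _ => ?_
    rw [Matrix.of_apply, Pi.smul_apply, smul_eq_mul, mul_comm]
  refine ⟨?_, ?_, ?_⟩
  · have hinj : LinearMap.ker (Matrix.mulVecLin (Matrix.of fun i j => v j i : Matrix (Fin n) (Fin (k + 1)) K)) = ⊥ := by
      rw [LinearMap.ker_eq_bot']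
      intro y hy
      rw [Matrix.mulVecLin_apply, hmul] at hy
      exact funext ((Fintype.linearIndependent_iff.1 hv) y hy)
    obtain ⟨g, hg⟩ := LinearMap.exists_leftInverse_of_injective _ hinj
    refine ⟨LinearMap.toMatrix' g, ?_⟩
    have h1 := congrArg LinearMap.toMatrix' hg
    rw [LinearMap.toMatrix'_comp, LinearMap.toMatrix'_id] at h1
    rw [← h1]
    congr 1
    exact (LinearMap.toMatrix'_toLin' _).symm
  · intro w
    rw [hs, Submodule.mem_span_range_iff_exists_fun]
    simp only [hmul]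
  · intro i
    rw [Matrix.of_apply, h0]

end Pool.Agent.H8.SD
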