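import Mathlib

/-!
# PROJECT SD (MP_90ca13_nt, smooth sextic hypersurfaces over a field without extensions of degree <= 4): definitions

Paper proof: note 5480.  `K` has characteristic 0 and every polynomial of degree 1..4 over `K` has a root in `K` (`Sol K`); `L` is an
algebraically closed extension of `K`.  `F` is a form of degree 6 in `m + 2 ≥ 4` variables, smooth over `L`.
-/

set_option autoImplicit false

open MvPolynomial Matrix

namespace Pool.Agent.H8.SD

variable {K : Type} [Field K]

/-- Every polynomial of degree `1, 2, 3, 4` has a root. -/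
def Sol (K : Type) [Field K] : Prop :=
  ∀ p : Polynomial K, p.natDegree ≠ 0 → p.natDegree ≤ 4 → ∃ x, p.eval x = 0

/-- The gradient of `F` at `Q`. -/
noncomputable def grd {n : ℕ} (F : MvPolynomial (Fin n) K) (Q : Fin n → K) : Fin n → K :=
  fun i => eval Q (pderiv i F)

/-- `Q` is a star point of `F = 0`: the section with the tangent hyperplane is a cone with vertex `Q`. -/
def Star {n : ℕ} (F : MvPolynomial (Fin n) K) (Q : Fin n → K) : Prop :=
  ∀ v, grd F Q ⬝ᵥ v = 0 → eval (Q + v) F = eval v F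

/-- Smoothness over `L`. -/
def Smooth (L : Type) [Field L] [Algebra K L] {n : ℕ} (F : MvPolynomial (Fin n) K) : Prop :=
  ∀ x : Fin n → L, x ≠ 0 → ∃ i, aeval x (pderiv i F) ≠ 0

/-- The linear form with coefficients `l`. -/
noncomputable def lin {n : ℕ} (l : Fin n → K) : MvPolynomial (Fin n) K := ∑ i, C (l i) * X i

/-- `F ↦ F ∘ M`, `M` a matrix. -/
noncomputable def pull {n k : ℕ} (M : Matrix (Fin n) (Fin k) K) :
    MvPolynomial (Fin n) K →ₐ[K] MvPolynomial (Fin k) K :=
  aeval fun i => lin (M i)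

/-- `M` is a linear parametrisation of the tangent hyperplane at `Q`, with first column `Q`. -/
structure Par {n k : ℕ} (F : MvPolynomial (Fin n) K) (Q : Fin n → K) (M : Matrix (Fin n) (Fin (k + 1)) K) : Prop where
  inv : ∃ R : Matrix (Fin (k + 1)) (Fin n) K, R * M = 1
  ker : ∀ v, grd F Q ⬝ᵥ v = 0 ↔ ∃ y, M *ᵥ y = v
  col : ∀ i, M i 0 = Q i

/-- A zero `Q` of `F`, a parametrisation `M` of its tangent hyperplane and an irreducible factor of `F ∘ M` which is not a cone with vertex
`Q`. -/
structure Good {m : ℕ} (F : MvPolynomial (Fin (m + 2)) K) (Q : Fin (m + 2) → K) (M : Matrix (Fin (m + 2)) (Fin (m + 1)) K)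
    (φ : MvPolynomial (Fin (m + 1)) K) : Prop where
  zero : eval Q F = 0
  par : Par F Q M
  irr : Irreducible φ
  dvd : φ ∣ pull M F
  deg : φ.degreeOf 0 ≠ 0
  deg4 : φ.degreeOf 0 ≤ 4
  orig : eval 0 φ = 0

/-- The prime ideal of the component `φ = 0` of the tangent section. -/
noncomputable def cls {n k : ℕ} (M : Matrix (Fin n) (Fin k) K) (φ : MvPolynomial (Fin k) K) : Ideal (MvPolynomial (Fin n) K) :=
  Ideal.comap (pull M) (Ideal.span {φ})

theorem mem_cls {n k : ℕ} {M : Matrix (Fin n) (Fin k) K} {φ : MvPolynomial (Fin k) K} {g : MvPolynomial (Fin n) K} :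
    g ∈ cls M φ ↔ φ ∣ pull M g := by
  rw [cls, Ideal.mem_comap, Ideal.mem_span_singleton]

/-- The derivation `∂_{j+1} - (φ_{j+1} / φ_0) ∂_0` with values in a field `E` in which `φ = 0`. -/
noncomputable def dl {m : ℕ} {E : Type} [Field E] [Algebra K E] (π : MvPolynomial (Fin (m + 1)) K →ₐ[K] E) (φ : MvPolynomial (Fin (m + 1)) K)
    (j : Fin m) (g : MvPolynomial (Fin (m + 1)) K) : E :=
  π (pderiv j.succ g) - π (pderiv j.succ φ) / π (pderiv 0 φ) * π (pderiv 0 g)

/-! ### evaluation -/

theorem eval_lin {n : ℕ} (l x : Fin n → K) : eval x (lin l) = l ⬝ᵥ x := by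
  simp [lin, dotProduct]

theorem aeval_lin {n : ℕ} {L : Type} [CommRing L] [Algebra K L] (l : Fin n → K) (x : Fin n → L) :
    aeval x (lin l) = ∑ i, algebraMap K L (l i) * x i := by
  simp [lin]

theorem eval_pull {n k : ℕ} (M : Matrix (Fin n) (Fin k) K) (F : MvPolynomial (Fin n) K) (y : Fin k → K) :
    eval y (pull M F) = eval (M *ᵥ y) F := by
  have h : (aeval y : MvPolynomial (Fin k) K →ₐ[K] K).comp (pull M) = aeval (M *ᵥ y) := by
    ext i
    simp [pull, eval_lin, mulVec]
  have h2 := DFunLike.congr_fun h F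
  simpa [MvPolynomial.aeval_eq_eval] using h2

theorem aeval_pull {n k : ℕ} {L : Type} [CommRing L] [Algebra K L] (M : Matrix (Fin n) (Fin k) K) (F : MvPolynomial (Fin n) K)
    (y : Fin k → L) : aeval y (pull M F) = aeval ((M.map (algebraMap K L)) *ᵥ y) F := by
  have h : (aeval y : MvPolynomial (Fin k) K →ₐ[K] L).comp (pull M) = aeval ((M.map (algebraMap K L)) *ᵥ y) := by
    ext i
    simp [pull, aeval_lin, mulVec, dotProduct]
  exact DFunLike.congr_fun h F

theorem pull_lin {n k : ℕ} (M : Matrix (Fin n) (Fin k) K) (l : Fin n → K) : pull M (lin l) = lin (l ᵥ* M) := by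
  apply MvPolynomial.ext
  intro d
  congr 1
  unfold pull lin
  simp only [map_sum, map_mul, algHom_C, aeval_X, algebraMap_eq, vecMul, dotProduct]
  simp only [Finset.mul_sum, Finset.sum_mul, ← mul_assoc, ← C_mul]
  rw [Finset.sum_comm]

/-! ### the derivations -/

section
variable {m : ℕ} {E : Type} [Field E] [Algebra K E] {π : MvPolynomial (Fin (m + 1)) K →ₐ[K] E} {φ : MvPolynomial (Fin (m + 1)) K}

theorem dl_add (j : Fin m) (g h : MvPolynomial (Fin (m + 1)) K) : dl π φ j (g + h) = dl π φ j g + dl π φ j h := by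
  simp only [dl, map_add]; ring

theorem dl_mul (j : Fin m) (g h : MvPolynomial (Fin (m + 1)) K) : dl π φ j (g * h) = dl π φ j g * π h + π g * dl π φ j h := by
  simp only [dl, Derivation.leibniz, map_add, smul_eq_mul, map_mul]; ring

theorem dl_C (j : Fin m) (c : K) : dl π φ j (C c) = 0 := by
  simp [dl]

theorem dl_zero (j : Fin m) : dl π φ j 0 = 0 := by
  simp [dl]

theorem dl_sum {ι : Type} (j : Fin m) (s : Finset ι) (g : ι → MvPolynomial (Fin (m + 1)) K) :
    dl π φ j (∑ i ∈ s, g i) = ∑ i ∈ s, dl π φ j (g i) := by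
  classical
  induction s using Finset.induction_on with
  | empty => simp [dl_zero]
  | insert a s ha ih => rw [Finset.sum_insert ha, Finset.sum_insert ha, dl_add, ih]

theorem dl_C_mul (j : Fin m) (c : K) (g : MvPolynomial (Fin (m + 1)) K) : dl π φ j (C c * g) = algebraMap K E c * dl π φ j g := by
  rw [dl_mul, dl_C, zero_mul, zero_add]
  congr 1
  rw [← algebraMap_eq, AlgHom.commutes]

theorem dl_phi (h0 : π (pderiv 0 φ) ≠ 0) (j : Fin m) : dl π φ j φ = 0 := by
  rw [dl, div_mul_cancel₀ _ h0, sub_self]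

theorem dl_of_dvd (hφ : π φ = 0) (h0 : π (pderiv 0 φ) ≠ 0) (j : Fin m) {g : MvPolynomial (Fin (m + 1)) K} (hg : φ ∣ g) :
    dl π φ j g = 0 := by
  obtain ⟨h, rfl⟩ := hg
  rw [dl_mul, dl_phi h0, hφ, zero_mul, zero_mul, add_zero]

/-- the chain rule -/
theorem dl_pull {n : ℕ} (M : Matrix (Fin n) (Fin (m + 1)) K) (j : Fin m) (F : MvPolynomial (Fin n) K) :
    dl π φ j (pull M F) = ∑ i, π (pull M (pderiv i F)) * dl π φ j (lin (M i)) := by
  induction F using MvPolynomial.induction_on with
  | C a =>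
    have : pull M (C a) = C a := by simp [pull]
    rw [this, dl_C]
    simp
  | add p q hp hq =>
    rw [map_add, dl_add, hp, hq, ← Finset.sum_add_distrib]
    refine Finset.sum_congr rfl fun i _ => ?_
    rw [map_add, map_add, map_add, add_mul]
  | mul_X p k hp =>
    have hX : pull M (X k) = lin (M k) := by simp [pull]
    rw [map_mul, dl_mul, hp, hX]
    simp only [Derivation.leibniz, smul_eq_mul, map_add, map_mul, hX, add_mul, Finset.sum_add_distrib, pderiv_X]
    rw [Finset.sum_mul, add_comm]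
    congr 1
    · rw [Finset.sum_eq_single k]
      · simp
      · intro b _ hb
        simp [hb.symm]
      · simp
    · refine Finset.sum_congr rfl fun i _ => ?_
      ring

end

end Pool.Agent.H8.SD
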