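import Pool.Agent.H8.SD.Hom

/-!
# SD DegB: a zero which is not a star point has a good factor (given the degree bound)
-/

set_option autoImplicit false

open MvPolynomial Matrix

namespace Pool.Agent.H8.SD

private theorem degreeOf_unit {σ K : Type} [Field K] (i : σ) {u : MvPolynomial σ K} (hu : IsUnit u) :
    u.degreeOf i = 0 := by
  obtain ⟨v, hv⟩ := hu.exists_right_inv
  have h0 : u ≠ 0 := left_ne_zero_of_mul (a := u) (b := v) (by rw [hv]; exact one_ne_zero)
  have h1 : v ≠ 0 := right_ne_zero_of_mul (a := u) (b := v) (by rw [hv]; exact one_ne_zero)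
  have h2 := degreeOf_mul_eq (n := i) h0 h1
  rw [hv] at h2
  have h3 : degreeOf i (1 : MvPolynomial σ K) = 0 := by
    rw [← C_1]
    exact degreeOf_C _ _
  omega

private theorem exists_factor {σ K : Type} [Field K] (i : σ) (f : MvPolynomial σ K) :
    f ≠ 0 → f.degreeOf i ≠ 0 → ∃ φ, Irreducible φ ∧ φ ∣ f ∧ φ.degreeOf i ≠ 0 := by
  refine WfDvdMonoid.induction_on_irreducible f ?_ ?_ ?_
  · intro h
    exact absurd rfl h
  · intro u hu _ h
    exact absurd (degreeOf_unit i hu) h
  · intro a q ha hq ih _ h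
    rw [degreeOf_mul_eq hq.ne_zero ha] at h
    by_cases h1 : q.degreeOf i = 0
    · obtain ⟨φ, h2, h3, h4⟩ := ih ha (by omega)
      exact ⟨φ, h2, h3.mul_left q, h4⟩
    · exact ⟨q, hq, dvd_mul_right q a, h1⟩

private theorem eval_add_of_degreeOf {k : ℕ} {K : Type} [Field K] (f : MvPolynomial (Fin (k + 1)) K)
    (h : f.degreeOf 0 = 0) (y : Fin (k + 1) → K) : eval (Pi.single 0 1 + y) f = eval y f := by
  classical
  refine eval₂Hom_congr' rfl ?_ rfl
  intro i hi _
  have hi0 : i ≠ 0 := by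
    rintro rfl
    rw [mem_vars_iff_degreeOf_ne_zero] at hi
    exact hi h
  rw [Pi.add_apply, Pi.single_eq_of_ne hi0, zero_add]

theorem good_of_not_star' {K : Type} [Field K] [CharZero K] {m d : ℕ} (hd : 3 ≤ d) (hd6 : d ≤ 6) {F : MvPolynomial (Fin (m + 2)) K}
    (hF : F.IsHomogeneous d)
    {Q : Fin (m + 2) → K} {M : Matrix (Fin (m + 2)) (Fin (m + 1)) K} (h0 : eval Q F = 0) (hM : Par F Q M) (hQ : ¬ Star F Q)
    (hle : (pull M F).degreeOf 0 ≤ 4) :
    ∃ φ, Good F Q M φ := by
  classical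
  have hhom : (pull M F).IsHomogeneous d := by
    have h1 : ∀ i, (lin (M i)).IsHomogeneous 1 := by
      intro i
      unfold lin
      refine IsHomogeneous.sum _ _ _ fun j _ => ?_
      have := (isHomogeneous_C (Fin (m + 1)) (M i j)).mul (isHomogeneous_X K j)
      rwa [zero_add] at this
    have h2 := hF.aeval (fun i => lin (M i)) h1
    rwa [one_mul] at h2
  have hdeg : (pull M F).degreeOf 0 ≠ 0 := by
    intro hz
    apply hQ
    intro v hv
    obtain ⟨y, rfl⟩ := (hM.ker v).1 hv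
    have h1 : Q = M *ᵥ (Pi.single 0 1) := by
      ext i
      rw [mulVec_single_one]
      exact (hM.col i).symm
    have h2 := eval_add_of_degreeOf (pull M F) hz y
    rw [eval_pull, eval_pull, mulVec_add, ← h1] at h2
    exact h2
  have hf0 : pull M F ≠ 0 := by
    intro hz
    rw [hz] at hdeg
    exact hdeg (degreeOf_zero _)
  obtain ⟨φ, hirr, hdvd, hφ⟩ := exists_factor 0 (pull M F) hf0 hdeg
  obtain ⟨g, hg⟩ := hdvd
  have hg0 : g ≠ 0 := by
    rintro rfl
    rw [mul_zero] at hg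
    exact hf0 hg
  obtain ⟨a, b, ha, -, -⟩ := hom_of_mul (by rw [← hg]; exact hhom) hirr.ne_zero hg0
  have ha0 : a ≠ 0 := by
    rintro rfl
    apply hφ
    have h1 := (totalDegree_eq_zero_iff_eq_C (p := φ)).1 (Nat.le_zero.1 ha.totalDegree_le)
    rw [h1]
    exact degreeOf_C _ _
  refine ⟨φ, h0, hM, hirr, ⟨g, hg⟩, hφ, ?_, ?_⟩
  · have := degreeOf_mul_eq (n := 0) hirr.ne_zero hg0
    rw [← hg] at this
    omega
  · have h1 : eval 0 φ = coeff 0 φ := by
      rw [← constantCoeff_eq]
      exact congrFun (congrArg DFunLike.coe eval_zero) φ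
    rw [h1]
    exact ha.coeff_eq_zero (by simpa using ha0.symm)

end Pool.Agent.H8.SD
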