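import Pool.Agent.H8.SD.DegA
import Pool.Agent.H8.SD.DegB

/-!
# SD Deg: a zero which is not a star point has a good factor

`F` is a form of degree `d`, `3 ≤ d ≤ 6`.  Put `f = pull M F`, a form of degree `d` in `y_0..y_m` (`lin` is homogeneous of degree 1).  The
coefficient of `y_0^d` is `eval (Pi.single 0 1) f = eval Q F = 0` (`eval_pull`, first column), the coefficient of `y_0^(d-1) y_j` (`j ≠ 0`) is
`eval (Pi.single 0 1) (pderiv j f) = grd F Q ⬝ᵥ (column j of M) = 0` (chain rule, `Par.ker`).  So `degreeOf 0 f ≤ d - 2 ≤ 4`.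

If `degreeOf 0 f = 0` then `eval (y + Pi.single 0 1) f = eval y f` for all `y`, that is `eval (Q + v) F = eval v F` for all `v = M y`, that
is for all `v` with `grd F Q ⬝ᵥ v = 0`: star.  So `degreeOf 0 f ≠ 0` (in particular `f ≠ 0`), and some irreducible factor `φ` of `f` has
`degreeOf 0 φ ≠ 0` (`MvPolynomial.degreeOf_mul_eq`, UFD: induction on factors, `UniqueFactorizationMonoid.induction_on_prime` or
`normalizedFactors`); `φ` is a form (`hom_of_mul`) of positive degree, so `eval 0 φ = 0`; `degreeOf 0 φ ≤ degreeOf 0 f ≤ 4`.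
-/

set_option autoImplicit false

open MvPolynomial Matrix

namespace Pool.Agent.H8.SD

theorem degreeOf_pull_le {K : Type} [Field K] [CharZero K] {m d : ℕ} (hd : 3 ≤ d) (hd6 : d ≤ 6) {F : MvPolynomial (Fin (m + 2)) K}
    (hF : F.IsHomogeneous d)
    {Q : Fin (m + 2) → K} {M : Matrix (Fin (m + 2)) (Fin (m + 1)) K} (h0 : eval Q F = 0) (hM : Par F Q M) :
    (pull M F).degreeOf 0 ≤ 4 :=
  degreeOf_pull_le' hd hd6 hF h0 hM

theorem good_of_not_star {K : Type} [Field K] [CharZero K] {m d : ℕ} (hd : 3 ≤ d) (hd6 : d ≤ 6) {F : MvPolynomial (Fin (m + 2)) K}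
    (hF : F.IsHomogeneous d)
    {Q : Fin (m + 2) → K} {M : Matrix (Fin (m + 2)) (Fin (m + 1)) K} (h0 : eval Q F = 0) (hM : Par F Q M) (hQ : ¬ Star F Q) :
    ∃ φ, Good F Q M φ :=
  good_of_not_star' hd hd6 hF h0 hM hQ (degreeOf_pull_le' hd hd6 hF h0 hM)

end Pool.Agent.H8.SD
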