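import Pool.Agent.H8.SD.Defs

/-!
# SD Dens: the zeros of an irreducible polynomial of degree 1..4 in one variable are dense

Let `φ` be irreducible with `1 ≤ deg_{X 0} φ ≤ 4`.  Suppose `φ ∤ g`.  With `MvPolynomial.finSuccEquiv` read `φ, g` in `B[X]`,
`B = MvPolynomial (Fin m) K` (UFD), `natDegree φ = degreeOf 0 φ` (`natDegree_finSuccEquiv`).  By Gauss (`IsPrimitive`,
`Polynomial.IsPrimitive.irreducible_iff_irreducible_map_fraction_map`, `...dvd_iff_fraction_map_dvd`) `φ` is irreducible over `Frac B` and
does not divide `g` there, so `a φ + b g = 1` over `Frac B`, and `A φ + B' g = C ρ` with `ρ ∈ B`, `ρ ≠ 0`, `A, B' ∈ B[X]` (clear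
denominators, `IsLocalization.integerNormalization` or a common denominator of the finitely many coefficients; or use the resultant).
`K` is infinite (characteristic 0): choose `y' : Fin m → K` with `ρ(y') ≠ 0` and (leading coefficient of φ)(y') ≠ 0
(`MvPolynomial.funext`).  Then `φ(X, y')` has the same degree as `φ` in `X`, so it has a root `y₀` in `K` (`Sol`), `y = (y₀, y')` is a zero
of `φ`, so of `g`, so `ρ(y') = 0`: contradiction.
-/

set_option autoImplicit false

open MvPolynomial

namespace Pool.Agent.H8.SD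

/-- Clearing denominators. -/
private theorem clear {R : Type} [CommRing R] [IsDomain R] (p : Polynomial (FractionRing R)) :
    ∃ (c : R) (q : Polynomial R), c ≠ 0 ∧
      q.map (algebraMap R (FractionRing R)) = Polynomial.C (algebraMap R (FractionRing R) c) * p := by
  obtain ⟨b, hbm, hb⟩ := IsLocalization.integerNormalization_spec (nonZeroDivisors R) p
  refine ⟨b, IsLocalization.integerNormalization (nonZeroDivisors R) p, nonZeroDivisors.ne_zero hbm, ?_⟩
  rw [hb]
  ext i
  rw [Polynomial.coeff_smul, Polynomial.coeff_C_mul, Algebra.smul_def]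

/-- Bezout. -/
private theorem bezout {R : Type} [CommRing R] [IsDomain R] [UniqueFactorizationMonoid R] {P Q : Polynomial R}
    (hP : Irreducible P) (h0 : P.natDegree ≠ 0) (hQ : ¬ P ∣ Q) :
    ∃ (c : R) (A B : Polynomial R), c ≠ 0 ∧ A * P + B * Q = Polynomial.C c := by
  classical
  let _ : StrongNormalizationMonoid R := UniqueFactorizationMonoid.strongNormalizationMonoid
  let _ : StrongNormalizedGCDMonoid R := UniqueFactorizationMonoid.toStrongNormalizedGCDMonoid R
  set i := algebraMap R (FractionRing R) with hi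
  have hinj : Function.Injective i := IsFractionRing.injective R (FractionRing R)
  have hinj' : Function.Injective (Polynomial.map i) := Polynomial.map_injective i hinj
  have hprim : P.IsPrimitive := hP.isPrimitive h0
  have hirr : Irreducible (P.map i) :=
    (hprim.irreducible_iff_irreducible_map_fraction_map (K := FractionRing R)).1 hP
  have hnd : ¬ P.map i ∣ Q.map i := by
    rintro ⟨H, hH⟩
    obtain ⟨c, H', hc, hH'⟩ := clear H
    have h1 : P ∣ Polynomial.C c * Q := by
      refine ⟨H', hinj' ?_⟩
      rw [Polynomial.map_mul, Polynomial.map_mul, Polynomial.map_C, hH', hH]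
      ring
    rcases hP.prime.dvd_or_dvd h1 with h2 | h2
    · have h3 := Polynomial.natDegree_le_of_dvd h2 (Polynomial.C_ne_zero.2 hc)
      rw [Polynomial.natDegree_C] at h3
      omega
    · exact hQ h2
  obtain ⟨a, b, hab⟩ := hirr.coprime_iff_not_dvd.2 hnd
  obtain ⟨ca, A, hca, hA⟩ := clear a
  obtain ⟨cb, B, hcb, hB⟩ := clear b
  refine ⟨ca * cb, Polynomial.C cb * A, Polynomial.C ca * B, mul_ne_zero hca hcb, hinj' ?_⟩
  rw [Polynomial.map_add, Polynomial.map_mul, Polynomial.map_mul, Polynomial.map_mul, Polynomial.map_mul, Polynomial.map_C,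
    Polynomial.map_C, Polynomial.map_C, hA, hB, map_mul, Polynomial.C_mul]
  linear_combination (Polynomial.C (i ca) * Polynomial.C (i cb)) * hab

theorem dens {K : Type} [Field K] [CharZero K] (hK : Sol K) {m : ℕ} {φ g : MvPolynomial (Fin (m + 1)) K} (hφ : Irreducible φ)
    (h0 : φ.degreeOf 0 ≠ 0) (h4 : φ.degreeOf 0 ≤ 4) (hg : ∀ y, eval y φ = 0 → eval y g = 0) : φ ∣ g := by
  classical
  by_contra hdvd
  have hdeg : (finSuccEquiv K m φ).natDegree = φ.degreeOf 0 := natDegree_finSuccEquiv φ
  have hirr : Irreducible (finSuccEquiv K m φ) := (MulEquiv.irreducible_iff (finSuccEquiv K m)).2 hφ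
  have hnd : ¬ finSuccEquiv K m φ ∣ finSuccEquiv K m g := fun h => hdvd ((map_dvd_iff (finSuccEquiv K m)).1 h)
  obtain ⟨c, A, B, hc, hAB⟩ := bezout hirr (by rw [hdeg]; exact h0) hnd
  have hlc : (finSuccEquiv K m φ).leadingCoeff ≠ 0 := Polynomial.leadingCoeff_ne_zero.2 hirr.ne_zero
  have hex : ∃ y : Fin m → K, eval y (c * (finSuccEquiv K m φ).leadingCoeff) ≠ 0 := by
    by_contra hcon
    push Not at hcon
    exact mul_ne_zero hc hlc (MvPolynomial.funext fun y => by rw [hcon y, map_zero])
  obtain ⟨y, hy⟩ := hex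
  rw [map_mul] at hy
  have hyc := left_ne_zero_of_mul hy
  have hyl := right_ne_zero_of_mul hy
  have hd : ((finSuccEquiv K m φ).map (eval y)).natDegree = φ.degreeOf 0 := by
    rw [Polynomial.natDegree_map_of_leadingCoeff_ne_zero _ hyl, hdeg]
  obtain ⟨x, hx⟩ := hK ((finSuccEquiv K m φ).map (eval y)) (by rw [hd]; exact h0) (by rw [hd]; exact h4)
  have h1 : eval (Fin.cons x y : Fin (m + 1) → K) φ = 0 := by
    rw [eval_eq_eval_mv_eval', hx]
  have h2 := hg _ h1
  rw [eval_eq_eval_mv_eval'] at h2
  have h3 := congrArg (fun p => Polynomial.eval x (p.map (eval y))) hAB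
  simp only [Polynomial.map_add, Polynomial.map_mul, Polynomial.map_C, Polynomial.eval_add, Polynomial.eval_mul,
    Polynomial.eval_C, hx, h2, mul_zero, add_zero] at h3
  exact hyc h3.symm

end Pool.Agent.H8.SD
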