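import Pool.Agent.H8.SD.Defs

/-!
# SD Desc: density over `K` implies density over an extension
-/

set_option autoImplicit false

open MvPolynomial

namespace Pool.Agent.H8.SD

theorem dvd_map_of_forall {K L : Type} [Field K] [Field L] [Algebra K L] {n : ℕ} {F : MvPolynomial (Fin n) K}
    (h : ∀ G : MvPolynomial (Fin n) K, (∀ x, eval x F = 0 → eval x G = 0) → F ∣ G) {G : MvPolynomial (Fin n) L}
    (hG : ∀ x : Fin n → K, eval x F = 0 → eval (fun i => algebraMap K L (x i)) G = 0) :
    map (algebraMap K L) F ∣ G := by
  classical
  let ω := Module.Basis.ofVectorSpace K L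
  let s := G.support.biUnion fun m => (ω.repr (coeff m G)).support
  let g : Module.Basis.ofVectorSpaceIndex K L → MvPolynomial (Fin n) K := fun i =>
    ∑ m ∈ G.support, monomial m (ω.repr (coeff m G) i)
  have hsum : G = ∑ i ∈ s, C (ω i) * map (algebraMap K L) (g i) := by
    have h1 : ∀ m ∈ G.support, coeff m G = ∑ i ∈ s, ω i * algebraMap K L (ω.repr (coeff m G) i) := by
      intro m hm
      conv_lhs => rw [← ω.linearCombination_repr (coeff m G)]
      rw [Finsupp.linearCombination_apply, Finsupp.sum_of_support_subset (s := s)]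
      · refine Finset.sum_congr rfl fun i _ => ?_
        rw [Algebra.smul_def, mul_comm]
      · exact Finset.subset_biUnion_of_mem (fun m => (ω.repr (coeff m G)).support) hm
      · intro i _
        exact zero_smul _ _
    conv_lhs => rw [G.as_sum]
    have h2 : ∀ m ∈ G.support, monomial m (coeff m G) =
        ∑ i ∈ s, C (ω i) * map (algebraMap K L) (monomial m (ω.repr (coeff m G) i)) := by
      intro m hm
      conv_lhs => rw [h1 m hm]
      rw [map_sum]
      refine Finset.sum_congr rfl fun i _ => ?_
      rw [map_monomial, C_mul_monomial]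
    rw [Finset.sum_congr rfl h2, Finset.sum_comm]
    refine Finset.sum_congr rfl fun i _ => ?_
    simp only [g, map_sum, Finset.mul_sum]
  have hdvd : ∀ i ∈ s, F ∣ g i := by
    intro i hi
    refine h _ fun x hx => ?_
    have h3 := hG x hx
    rw [hsum, map_sum] at h3
    have h4 : ∀ j ∈ s, eval (fun i => algebraMap K L (x i)) (C (ω j) * map (algebraMap K L) (g j)) = eval x (g j) • ω j := by
      intro j _
      rw [map_mul, eval_C, Algebra.smul_def, mul_comm]
      congr 1
      rw [eval_map, eval₂_comp]
      rfl
    rw [Finset.sum_congr rfl h4] at h3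
    exact (linearIndependent_iff'.1 ω.linearIndependent) s (fun j => eval x (g j)) h3 i hi
  rw [hsum]
  refine Finset.dvd_sum fun i hi => ?_
  exact Dvd.dvd.mul_left (map_dvd (map (algebraMap K L)) (hdvd i hi)) _

end Pool.Agent.H8.SD
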