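import Pool.Agent.H8.SD.Alg

/-!
# SD Elim: a set of zeros which is infinitesimally dense is dense

`exists_elim`: elimination of the variable `c`.  For `c = 0` read in `B[X]` by `finSuccEquiv`, Gauss lemma, Bezout over `Frac B` or the
resultant (`exists_bezout` in the proof of `Dens.lean`, by helper31: make a copy); for general `c` rename the variables by `Equiv.swap 0 c`
(`renameEquiv`, `pderiv_rename`).

`dvd_of_tangent`: `U` is a set of zeros of `F` at which `∂F/∂x_c ≠ 0`; `hT`: every polynomial `g` which vanishes on `U` has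
`grd g Q ⬝ᵥ u = 0` for all `Q ∈ U` and all `u` in the tangent hyperplane of `F` at `Q`.  Suppose `G` vanishes on `U` and `F ∤ G`.  The set of the
`ρ ≠ 0` which vanish on `U` and have `pderiv c ρ = 0` is not empty (`exists_elim`; `F.degreeOf c ≠ 0` because `pderiv c F ≠ 0`).  Take `ρ` in
it of minimal total degree.  For `a ≠ c` the polynomial `pderiv a ρ` vanishes on `U` (`hT` for `u = F_c(Q) e_a - F_a(Q) e_c`:
`F_c(Q) ∂_a ρ(Q) = F_a(Q) ∂_c ρ(Q) = 0`), `pderiv c (pderiv a ρ) = pderiv a (pderiv c ρ) = 0` and its total degree is smaller (`td_pderiv`),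
so it is `0`.  So all derivatives of `ρ` are `0`, `ρ = C r` (`const_of_pderiv`), and `ρ(P) = 0` gives `ρ = 0`: contradiction.
-/

set_option autoImplicit false

open MvPolynomial Matrix

namespace Pool.Agent.H8.SD

/-- Clearing denominators. -/
private theorem elimClear {R : Type} [CommRing R] [IsDomain R] (p : Polynomial (FractionRing R)) :
    ∃ (c : R) (q : Polynomial R), c ≠ 0 ∧
      q.map (algebraMap R (FractionRing R)) = Polynomial.C (algebraMap R (FractionRing R) c) * p := by
  obtain ⟨b, hbm, hb⟩ := IsLocalization.integerNormalization_spec (nonZeroDivisors R) p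
  refine ⟨b, IsLocalization.integerNormalization (nonZeroDivisors R) p, nonZeroDivisors.ne_zero hbm, ?_⟩
  rw [hb]
  ext i
  rw [Polynomial.coeff_smul, Polynomial.coeff_C_mul, Algebra.smul_def]

/-- Bezout. -/
private theorem elimBezout {R : Type} [CommRing R] [IsDomain R] [UniqueFactorizationMonoid R] {P Q : Polynomial R}
    (hP : Irreducible P) (h0 : P.natDegree ≠ 0) (hQ : ¬ P ∣ Q) :
    ∃ (c : R) (A B : Polynomial R), c ≠ 0 ∧ A * P + B * Q = Polynomial.C c := by
  classical
  let _ : StrongNormalizationMonoid R := UniqueFactorizationMonoid.strongNormalizationMonoid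
  let _ : StrongNormalizedGCDMonoid R := UniqueFactorizationMonoid.toStrongNormalizedGCDMonoid R
  set i := algebraMap R (FractionRing R) with hi
  have hinj : Function.Injective i := IsFractionRing.injective R (FractionRing R)
  have hinj' : Function.Injective (Polynomial.map i) := Polynomial.map_injective i hinj
  have hprim : P.IsPrimitive := hP.isPrimitive h0
  have hirr : Irreducible (P.map i) :=
    (hprim.irreducible_iff_irreducible_map_fraction_map (K := FractionRing R)).1 hP
  have hnd : ¬ P.map i ∣ Q.map i := by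
    rintro ⟨H, hH⟩
    obtain ⟨c, H', hc, hH'⟩ := elimClear H
    have h1 : P ∣ Polynomial.C c * Q := by
      refine ⟨H', hinj' ?_⟩
      rw [Polynomial.map_mul, Polynomial.map_mul, Polynomial.map_C, hH', hH]
      ring
    rcases hP.prime.dvd_or_dvd h1 with h2 | h2
    · have h3 := Polynomial.natDegree_le_of_dvd h2 (Polynomial.C_ne_zero.2 hc)
      rw [Polynomial.natDegree_C] at h3
      omega
    · exact hQ h2
  obtain ⟨a, b, hab⟩ := hirr.coprime_iff_not_dvd.2 hnd
  obtain ⟨ca, A, hca, hA⟩ := elimClear a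
  obtain ⟨cb, B, hcb, hB⟩ := elimClear b
  refine ⟨ca * cb, Polynomial.C cb * A, Polynomial.C ca * B, mul_ne_zero hca hcb, hinj' ?_⟩
  rw [Polynomial.map_add, Polynomial.map_mul, Polynomial.map_mul, Polynomial.map_mul, Polynomial.map_mul, Polynomial.map_C,
    Polynomial.map_C, Polynomial.map_C, hA, hB, map_mul, Polynomial.C_mul]
  linear_combination (Polynomial.C (i ca) * Polynomial.C (i cb)) * hab

private theorem fse_rename_succ {K : Type} [Field K] {m : ℕ} (b : MvPolynomial (Fin m) K) :
    finSuccEquiv K m (rename Fin.succ b) = Polynomial.C b := by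
  induction b using MvPolynomial.induction_on with
  | C a => rw [rename_C]; exact (finSuccEquiv K m).commutes a
  | add p q hp hq => rw [map_add, map_add, hp, hq, Polynomial.C_add]
  | mul_X p i hp => rw [map_mul, map_mul, hp, rename_X, finSuccEquiv_X_succ, Polynomial.C_mul]

private theorem pderiv_rename_succ {K : Type} [Field K] {m : ℕ} (b : MvPolynomial (Fin m) K) :
    pderiv (0 : Fin (m + 1)) (rename Fin.succ b) = 0 := by
  apply pderiv_eq_zero_of_notMem_vars
  intro h
  have h2 := vars_rename (Fin.succ : Fin m → Fin (m + 1)) b h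
  rw [Finset.mem_image] at h2
  obtain ⟨a, _, ha⟩ := h2
  exact Fin.succ_ne_zero a ha

private theorem exists_elim_zero {K : Type} [Field K] {n : ℕ} {F G : MvPolynomial (Fin (n + 1)) K} (hF : Irreducible F)
    (hc : F.degreeOf 0 ≠ 0) (hFG : ¬ F ∣ G) :
    ∃ A B ρ : MvPolynomial (Fin (n + 1)) K, ρ ≠ 0 ∧ A * F + B * G = ρ ∧ pderiv 0 ρ = 0 := by
  have hdeg : (finSuccEquiv K n F).natDegree = F.degreeOf 0 := natDegree_finSuccEquiv F
  have hirr : Irreducible (finSuccEquiv K n F) := (MulEquiv.irreducible_iff (finSuccEquiv K n)).2 hF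
  have hnd : ¬ finSuccEquiv K n F ∣ finSuccEquiv K n G := fun h => hFG ((map_dvd_iff (finSuccEquiv K n)).1 h)
  obtain ⟨c, A, B, hc0, hAB⟩ := elimBezout hirr (by rw [hdeg]; exact hc) hnd
  refine ⟨(finSuccEquiv K n).symm A, (finSuccEquiv K n).symm B, rename Fin.succ c, ?_, ?_, pderiv_rename_succ c⟩
  · intro h
    exact hc0 (rename_injective _ (Fin.succ_injective n) (by rw [h, map_zero]))
  · apply (finSuccEquiv K n).injective
    rw [map_add, map_mul, map_mul, AlgEquiv.apply_symm_apply, AlgEquiv.apply_symm_apply, fse_rename_succ]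
    exact hAB

theorem exists_elim {K : Type} [Field K] {n : ℕ} {F G : MvPolynomial (Fin (n + 1)) K} (hF : Irreducible F) (c : Fin (n + 1))
    (hc : F.degreeOf c ≠ 0) (hFG : ¬ F ∣ G) :
    ∃ A B ρ : MvPolynomial (Fin (n + 1)) K, ρ ≠ 0 ∧ A * F + B * G = ρ ∧ pderiv c ρ = 0 := by
  classical
  set e := renameEquiv K (Equiv.swap (0 : Fin (n + 1)) c) with he
  have hee : ∀ p, e (e p) = p := by
    intro p
    rw [he, renameEquiv_apply, renameEquiv_apply, rename_rename]
    have : (⇑(Equiv.swap (0 : Fin (n + 1)) c) ∘ ⇑(Equiv.swap (0 : Fin (n + 1)) c)) = id := by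
      funext x; simp
    rw [this, rename_id_apply]
  have hF' : Irreducible (e F) := (MulEquiv.irreducible_iff e).2 hF
  have hFG' : ¬ e F ∣ e G := fun h => hFG ((map_dvd_iff e).1 h)
  have hc' : (e F).degreeOf 0 ≠ 0 := by
    have h1 := degreeOf_rename_of_injective (p := F) (Equiv.swap (0 : Fin (n + 1)) c).injective c
    rw [Equiv.swap_apply_right] at h1
    rw [he, renameEquiv_apply, h1]
    exact hc
  obtain ⟨A, B, ρ, hρ, hAB, hd⟩ := exists_elim_zero hF' hc' hFG'
  refine ⟨e A, e B, e ρ, ?_, ?_, ?_⟩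
  · intro h
    exact hρ (e.injective (by rw [h, map_zero]))
  · rw [← hAB, map_add, map_mul, map_mul, hee, hee]
  · have h1 := pderiv_rename (R := K) (Equiv.swap (0 : Fin (n + 1)) c).injective (0 : Fin (n + 1)) ρ
    rw [Equiv.swap_apply_left] at h1
    rw [he, renameEquiv_apply, h1, hd, map_zero]

theorem dvd_of_tangent {K : Type} [Field K] [CharZero K] {n : ℕ} {F : MvPolynomial (Fin (n + 1)) K} (hF : Irreducible F)
    {U : Set (Fin (n + 1) → K)} (hU : ∀ Q ∈ U, eval Q F = 0) {P : Fin (n + 1) → K} (hP : P ∈ U) (c : Fin (n + 1))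
    (hc : ∀ Q ∈ U, eval Q (pderiv c F) ≠ 0)
    (hT : ∀ g : MvPolynomial (Fin (n + 1)) K, (∀ Q ∈ U, eval Q g = 0) →
      ∀ Q ∈ U, ∀ u, grd F Q ⬝ᵥ u = 0 → grd g Q ⬝ᵥ u = 0)
    {G : MvPolynomial (Fin (n + 1)) K} (hG : ∀ Q ∈ U, eval Q G = 0) : F ∣ G := by
  classical
  by_contra hFG
  have hdeg : F.degreeOf c ≠ 0 := by
    intro h0
    apply hc P hP
    have : pderiv c F = 0 := by
      apply pderiv_eq_zero_of_notMem_vars
      intro hv
      rw [mem_vars] at hv
      obtain ⟨d, hd, hdc⟩ := hv
      have h1 := monomial_le_degreeOf c hd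
      rw [h0, Nat.le_zero] at h1
      exact (Finsupp.mem_support_iff.mp hdc) h1
    rw [this, map_zero]
  obtain ⟨A, B, ρ₀, hρ₀, hAB, hd₀⟩ := exists_elim hF c hdeg hFG
  have hv₀ : ∀ Q ∈ U, eval Q ρ₀ = 0 := by
    intro Q hQ
    rw [← hAB, map_add, map_mul, map_mul, hU Q hQ, hG Q hQ, mul_zero, mul_zero, add_zero]
  obtain ⟨ρ, ⟨hρ, hv, hd⟩, hmin⟩ := WellFounded.has_min
    (InvImage.wf (fun ρ : MvPolynomial (Fin (n + 1)) K => ρ.totalDegree) wellFounded_lt)
    {ρ | ρ ≠ 0 ∧ (∀ Q ∈ U, eval Q ρ = 0) ∧ pderiv c ρ = 0} ⟨ρ₀, hρ₀, hv₀, hd₀⟩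
  have hall : ∀ a, pderiv a ρ = 0 := by
    intro a
    by_contra hne
    have hac : a ≠ c := by
      rintro rfl
      exact hne hd
    have hva : ∀ Q ∈ U, eval Q (pderiv a ρ) = 0 := by
      intro Q hQ
      have h1 := hT ρ hv Q hQ
        (eval Q (pderiv c F) • Pi.single a 1 - eval Q (pderiv a F) • Pi.single c 1) (by
          rw [dotProduct_sub, dotProduct_smul, dotProduct_smul, dotProduct_single, dotProduct_single]
          simp only [grd, smul_eq_mul]
          ring)
      rw [dotProduct_sub, dotProduct_smul, dotProduct_smul, dotProduct_single, dotProduct_single] at h1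
      simp only [grd, smul_eq_mul, hd, map_zero, mul_one, mul_zero, sub_zero] at h1
      exact (mul_eq_zero.mp h1).resolve_left (hc Q hQ)
    have hda : pderiv c (pderiv a ρ) = 0 := by
      have hcomm : pderiv c (pderiv a ρ) = pderiv a (pderiv c ρ) := by
        ext s
        simp only [coeff_pderiv, Finsupp.add_apply, Finsupp.single_apply]
        rw [if_neg hac, if_neg (Ne.symm hac), add_right_comm]
        push_cast
        ring
      rw [hcomm, hd, map_zero]
    exact hmin _ ⟨hne, hva, hda⟩ (td_pderiv a ρ hne)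
  have hconst := const_of_pderiv ρ hall
  have h0 := hv P hP
  rw [hconst, eval_C] at h0
  exact hρ (by rw [hconst, h0, C_0])

end Pool.Agent.H8.SD
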