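import Pool.Agent.H8.SD.Zero
import Pool.Agent.H8.SD.Alg

/-!
# SD Gau: the Gauss map is not constant on a hypersurface `φ = 0` of a hyperplane

Write `N a = pull M (pderiv a F)`.  `R M = 1`, so `M` is injective over `L` (map `R`).  If `x : Fin (m+1) → L`, `x ≠ 0`, then by smoothness
`aeval x (N a) = aeval (M x) (pderiv a F) ≠ 0` for some `a` (`aeval_pull`).

`gauss`: suppose `dl j (N a) * π (N b) = π (N a) * dl j (N b)` for all `a, b, j`.  There is `b` with `π (N b) ≠ 0`: otherwise `φ ∣ N b` for all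
`b`; take `x ≠ 0` in `L` with `aeval x φ = 0` (`exists_common_zero` for `φ, φ`; `eval 0 φ = 0`).  Let `x ≠ 0` be a common zero of `φ` and
`N b` in `L` (`eval 0 (N b) = 0`: homogeneous of degree `d - 1 ≥ 1`).  For every `a`, `r = π (N a) / π (N b)` is algebraic over `K`
(`alg_of_dl`); with its minimal polynomial `∑ c_i T^i`, `c_k = 1`, `k ≥ 1`: `π (∑ C c_i * (N a)^i * (N b)^(k-i)) = 0`, so `φ` divides this
polynomial; at `x` it is `(N a)(x)^k`, so `aeval x (N a) = 0` for all `a`: contradiction.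

`not_const`: if `φ ∣ N a * C (l b) - N b * C (l a)` for all `a, b`, choose `b` with `l b ≠ 0` and `x ≠ 0` a common zero of `φ` and `N b`:
`aeval x (N a) = 0` for all `a`.
-/

set_option autoImplicit false

open MvPolynomial Matrix

namespace Pool.Agent.H8.SD

variable {K L : Type} [Field K] [Field L] [Algebra K L]

private theorem mulVec_ne {m : ℕ} {M : Matrix (Fin (m + 2)) (Fin (m + 1)) K}
    (hM : ∃ R : Matrix (Fin (m + 1)) (Fin (m + 2)) K, R * M = 1) {x : Fin (m + 1) → L} (hx : x ≠ 0) :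
    (M.map (algebraMap K L)) *ᵥ x ≠ 0 := by
  obtain ⟨R, hR⟩ := hM
  intro h0
  apply hx
  have h1 : (R.map (algebraMap K L)) *ᵥ ((M.map (algebraMap K L)) *ᵥ x) = x := by
    rw [mulVec_mulVec, ← Matrix.map_mul, hR, Matrix.map_one _ (map_zero _) (map_one _), one_mulVec]
  rw [← h1, h0, mulVec_zero]

private theorem exists_ne {m : ℕ} {F : MvPolynomial (Fin (m + 2)) K} (hs : Smooth L F)
    {M : Matrix (Fin (m + 2)) (Fin (m + 1)) K}
    (hM : ∃ R : Matrix (Fin (m + 1)) (Fin (m + 2)) K, R * M = 1) {x : Fin (m + 1) → L} (hx : x ≠ 0) :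
    ∃ a, aeval x (pull M (pderiv a F)) ≠ 0 := by
  obtain ⟨a, ha⟩ := hs _ (mulVec_ne hM hx)
  exact ⟨a, by rw [aeval_pull]; exact ha⟩

private theorem eval_zero_N {m d : ℕ} (hd : 2 ≤ d) {F : MvPolynomial (Fin (m + 2)) K}
    (hF : F.IsHomogeneous d) (M : Matrix (Fin (m + 2)) (Fin (m + 1)) K) (b : Fin (m + 2)) :
    eval 0 (pull M (pderiv b F)) = 0 := by
  have h1 : (pderiv b F).IsHomogeneous (d - 1) := hF.pderiv
  have h2 : coeff 0 (pderiv b F) = 0 := by
    by_contra hne
    have h3 := h1 hne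
    simp at h3
    omega
  rw [eval_pull, mulVec_zero, MvPolynomial.eval_zero, constantCoeff_eq]
  exact h2

private theorem aeval_eq_zero_of_dvd {n : ℕ} {φ g : MvPolynomial (Fin n) K} {x : Fin n → L}
    (hx : aeval x φ = 0) (h : φ ∣ g) : aeval x g = 0 := by
  obtain ⟨q, rfl⟩ := h
  rw [map_mul, hx, zero_mul]

theorem gauss {K L : Type} [Field K] [CharZero K] [Field L] [IsAlgClosed L] [Algebra K L] {m d : ℕ} (hm : 2 ≤ m) (hd : 2 ≤ d)
    {F : MvPolynomial (Fin (m + 2)) K} (hF : F.IsHomogeneous d) (hs : Smooth L F) {M : Matrix (Fin (m + 2)) (Fin (m + 1)) K}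
    (hM : ∃ R : Matrix (Fin (m + 1)) (Fin (m + 2)) K, R * M = 1) {φ : MvPolynomial (Fin (m + 1)) K} (hφ : Irreducible φ)
    (hdeg : φ.degreeOf 0 ≠ 0) (horig : eval 0 φ = 0) {E : Type} [Field E] [Algebra K E] (π : MvPolynomial (Fin (m + 1)) K →ₐ[K] E)
    (hπ : ∀ g, π g = 0 ↔ φ ∣ g) :
    ∃ (a b : Fin (m + 2)) (j : Fin m), dl π φ j (pull M (pderiv a F)) * π (pull M (pderiv b F)) ≠
      π (pull M (pderiv a F)) * dl π φ j (pull M (pderiv b F)) := by
  by_contra hcon
  push Not at hcon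
  obtain ⟨b, hb⟩ : ∃ b, π (pull M (pderiv b F)) ≠ 0 := by
    by_contra h0
    push Not at h0
    obtain ⟨x, hx0, hx, -⟩ := exists_common_zero (L := L) (by omega : 3 ≤ m + 1) φ φ horig horig
    obtain ⟨a, ha⟩ := exists_ne hs hM hx0
    exact ha (aeval_eq_zero_of_dvd hx ((hπ _).1 (h0 a)))
  obtain ⟨x, hx0, hx, hxb⟩ := exists_common_zero (L := L) (by omega : 3 ≤ m + 1) φ
    (pull M (pderiv b F)) horig (eval_zero_N hd hF M b)
  obtain ⟨a, ha⟩ := exists_ne hs hM hx0
  have halg : IsAlgebraic K (π (pull M (pderiv a F)) / π (pull M (pderiv b F))) :=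
    alg_of_dl hφ hdeg π hπ hb fun j => hcon a b j
  have hint : IsIntegral K (π (pull M (pderiv a F)) / π (pull M (pderiv b F))) := halg.isIntegral
  generalize hNa : pull M (pderiv a F) = Na at *
  generalize hNb : pull M (pderiv b F) = Nb at *
  set p : Polynomial K := minpoly K (π Na / π Nb) with hp
  have hpm : p.Monic := minpoly.monic hint
  have hdvd : φ ∣ ∑ i ∈ Finset.range (p.natDegree + 1),
      C (p.coeff i) * Na ^ i * Nb ^ (p.natDegree - i) := by
    rw [← hπ, map_sum]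
    have h1 : Polynomial.aeval (π Na / π Nb) p = 0 := minpoly.aeval K _
    rw [Polynomial.aeval_eq_sum_range] at h1
    have h2 : ∀ i ∈ Finset.range (p.natDegree + 1),
        π (C (p.coeff i) * Na ^ i * Nb ^ (p.natDegree - i)) =
          π Nb ^ p.natDegree * (p.coeff i • (π Na / π Nb) ^ i) := by
      intro i hi
      have hi' : i ≤ p.natDegree := Nat.lt_succ_iff.1 (Finset.mem_range.1 hi)
      have h3 : π (C (p.coeff i)) = algebraMap K E (p.coeff i) := by
        rw [← algebraMap_eq, AlgHom.commutes]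
      rw [map_mul, map_mul, map_pow, map_pow, h3, Algebra.smul_def, div_pow]
      have h4 : π Nb ^ p.natDegree = π Nb ^ i * π Nb ^ (p.natDegree - i) := by
        rw [← pow_add]
        congr 1
        omega
      rw [h4]
      field_simp
    rw [Finset.sum_congr rfl h2, ← Finset.mul_sum, h1, mul_zero]
  have h5 := aeval_eq_zero_of_dvd hx hdvd
  rw [map_sum, Finset.sum_range_succ, Finset.sum_eq_zero] at h5
  · simp only [map_pow, Nat.sub_self, pow_zero, mul_one, zero_add,
      Polynomial.coeff_natDegree, hpm.leadingCoeff, map_one, one_mul] at h5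
    exact pow_ne_zero _ ha h5
  · intro i hi
    have hi' : i < p.natDegree := Finset.mem_range.1 hi
    rw [map_mul, map_pow, hxb, zero_pow (by omega), mul_zero]

theorem not_const {K L : Type} [Field K] [Field L] [IsAlgClosed L] [Algebra K L] {m d : ℕ} (hm : 2 ≤ m) (hd : 2 ≤ d)
    {F : MvPolynomial (Fin (m + 2)) K} (hF : F.IsHomogeneous d) (hs : Smooth L F) {M : Matrix (Fin (m + 2)) (Fin (m + 1)) K}
    (hM : ∃ R : Matrix (Fin (m + 1)) (Fin (m + 2)) K, R * M = 1) {φ : MvPolynomial (Fin (m + 1)) K}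
    (horig : eval 0 φ = 0) {l : Fin (m + 2) → K} (hl : l ≠ 0) :
    ∃ a b : Fin (m + 2), ¬ φ ∣ pull M (pderiv a F) * C (l b) - pull M (pderiv b F) * C (l a) := by
  by_contra hcon
  push Not at hcon
  obtain ⟨b, hb⟩ : ∃ b, l b ≠ 0 := by
    by_contra h0
    push Not at h0
    exact hl (funext h0)
  obtain ⟨x, hx0, hx, hxb⟩ := exists_common_zero (L := L) (by omega : 3 ≤ m + 1) φ
    (pull M (pderiv b F)) horig (eval_zero_N hd hF M b)
  obtain ⟨a, ha⟩ := exists_ne hs hM hx0
  have h1 := aeval_eq_zero_of_dvd hx (hcon a b)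
  rw [map_sub, map_mul, map_mul, hxb, zero_mul, sub_zero, mul_eq_zero] at h1
  rcases h1 with h1 | h1
  · exact ha h1
  · rw [aeval_C, map_eq_zero] at h1
    exact hb h1

end Pool.Agent.H8.SD
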