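import Pool.Agent.H8.SD.Dens
import Pool.Agent.H8.SD.Alg

/-!
# SD GauN: if the Gauss map is not constant along `φ = 0`, then its derivative is not zero there

`hN`: the gradient of `F` is not proportional to a constant vector over `K` modulo `φ`.  If all `D_j (n_a) n_b = n_a D_j (n_b)`, then
`n_a / n_b` is algebraic over `K`; its minimal polynomial has a root in `K` (the value at a zero `y` of `φ` in `K` with `N_b(y) ≠ 0`, which
exists by `dens`), so `n_a / n_b ∈ K` for all `a`.
-/

set_option autoImplicit false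

open MvPolynomial Matrix

namespace Pool.Agent.H8.SD

theorem gaussN {K : Type} [Field K] [CharZero K] (hK : Sol K) {m : ℕ} {F : MvPolynomial (Fin (m + 2)) K}
    {M : Matrix (Fin (m + 2)) (Fin (m + 1)) K} {φ : MvPolynomial (Fin (m + 1)) K} (hφ : Irreducible φ)
    (hdeg : φ.degreeOf 0 ≠ 0) (hdeg4 : φ.degreeOf 0 ≤ 4)
    (hN : ∀ c : Fin (m + 2) → K, c ≠ 0 → ∃ a b, ¬ φ ∣ pull M (pderiv a F) * C (c b) - pull M (pderiv b F) * C (c a))
    {E : Type} [Field E] [Algebra K E] (π : MvPolynomial (Fin (m + 1)) K →ₐ[K] E) (hπ : ∀ g, π g = 0 ↔ φ ∣ g) :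
    ∃ (a b : Fin (m + 2)) (j : Fin m), dl π φ j (pull M (pderiv a F)) * π (pull M (pderiv b F)) ≠
      π (pull M (pderiv a F)) * dl π φ j (pull M (pderiv b F)) := by
  by_contra hcon
  push Not at hcon
  obtain ⟨b, hb⟩ : ∃ b, π (pull M (pderiv b F)) ≠ 0 := by
    by_contra h0
    push Not at h0
    obtain ⟨a, b, hab⟩ := hN (fun _ => 1) (by
      intro h
      exact one_ne_zero (congrFun h 0))
    apply hab
    rw [← hπ, map_sub, map_mul, map_mul, h0, h0, zero_mul, sub_zero]
  obtain ⟨y, hy, hyb⟩ : ∃ y, eval y φ = 0 ∧ eval y (pull M (pderiv b F)) ≠ 0 := by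
    by_contra h0
    push Not at h0
    exact hb ((hπ _).2 (dens hK hφ hdeg hdeg4 h0))
  have key : ∀ a, ∃ c : K, algebraMap K E c = π (pull M (pderiv a F)) / π (pull M (pderiv b F)) := by
    intro a
    have halg : IsAlgebraic K (π (pull M (pderiv a F)) / π (pull M (pderiv b F))) :=
      alg_of_dl hφ hdeg π hπ hb fun j => hcon a b j
    have hint : IsIntegral K (π (pull M (pderiv a F)) / π (pull M (pderiv b F))) := halg.isIntegral
    generalize pull M (pderiv a F) = Na at *
    generalize pull M (pderiv b F) = Nb at *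
    set p : Polynomial K := minpoly K (π Na / π Nb) with hp
    have hdvd : φ ∣ ∑ i ∈ Finset.range (p.natDegree + 1),
        C (p.coeff i) * Na ^ i * Nb ^ (p.natDegree - i) := by
      rw [← hπ, map_sum]
      have h1 : Polynomial.aeval (π Na / π Nb) p = 0 := minpoly.aeval K _
      rw [Polynomial.aeval_eq_sum_range] at h1
      have h2 : ∀ i ∈ Finset.range (p.natDegree + 1),
          π (C (p.coeff i) * Na ^ i * Nb ^ (p.natDegree - i)) =
            π Nb ^ p.natDegree * (p.coeff i • (π Na / π Nb) ^ i) := by
        intro i hi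
        have hi' : i ≤ p.natDegree := Nat.lt_succ_iff.1 (Finset.mem_range.1 hi)
        have h3 : π (C (p.coeff i)) = algebraMap K E (p.coeff i) := by
          rw [← algebraMap_eq, AlgHom.commutes]
        rw [map_mul, map_mul, map_pow, map_pow, h3, Algebra.smul_def, div_pow]
        have h4 : π Nb ^ p.natDegree = π Nb ^ i * π Nb ^ (p.natDegree - i) := by
          rw [← pow_add]
          congr 1
          omega
        rw [h4]
        field_simp
      rw [Finset.sum_congr rfl h2, ← Finset.mul_sum, h1, mul_zero]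
    have h5 : eval y (∑ i ∈ Finset.range (p.natDegree + 1),
        C (p.coeff i) * Na ^ i * Nb ^ (p.natDegree - i)) = 0 := by
      obtain ⟨q, hq⟩ := hdvd
      rw [hq, map_mul, hy, zero_mul]
    have h6 : eval y Nb ^ p.natDegree * p.eval (eval y Na / eval y Nb) = 0 := by
      rw [← h5, Polynomial.eval_eq_sum_range, Finset.mul_sum, map_sum]
      refine Finset.sum_congr rfl fun i hi => ?_
      have hi' : i ≤ p.natDegree := Nat.lt_succ_iff.1 (Finset.mem_range.1 hi)
      have h4 : eval y Nb ^ p.natDegree = eval y Nb ^ i * eval y Nb ^ (p.natDegree - i) := by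
        rw [← pow_add]
        congr 1
        omega
      rw [map_mul, map_mul, map_pow, map_pow, eval_C, h4, div_pow]
      field_simp
    have h7 : p.IsRoot (eval y Na / eval y Nb) :=
      (mul_eq_zero.1 h6).resolve_left (pow_ne_zero _ hyb)
    have h8 : p.degree = 1 := Polynomial.degree_eq_one_of_irreducible_of_root (minpoly.irreducible hint) h7
    obtain ⟨c, hc⟩ := minpoly.mem_range_of_degree_eq_one K _ h8
    exact ⟨c, hc⟩
  choose c hc using key
  have hcb : c b = 1 := by
    have h1 := hc b
    rw [div_self hb] at h1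
    exact (algebraMap K E).injective (by rw [h1, map_one])
  obtain ⟨a, a', haa⟩ := hN c (by
    intro h
    rw [h] at hcb
    exact zero_ne_one hcb)
  apply haa
  have hC : ∀ c : K, π (C c) = algebraMap K E c := fun c => by rw [← algebraMap_eq, AlgHom.commutes]
  rw [← hπ, map_sub, map_mul, map_mul, hC, hC, hc, hc]
  field_simp
  ring

end Pool.Agent.H8.SD
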