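import Pool.Agent.H8.SD.Defs

/-!
# SD HesA: the Hessian form
-/

set_option autoImplicit false

open MvPolynomial Matrix

namespace Pool.Agent.H8.SD

/-- The Hessian form of `F` at `Q`. -/
noncomputable def hes {K : Type} [Field K] {n : ℕ} (F : MvPolynomial (Fin n) K) (Q u v : Fin n → K) : K :=
  ∑ i, ∑ j, u i * v j * eval Q (pderiv i (pderiv j F))

end Pool.Agent.H8.SD
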