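import Pool.Agent.H8.SD.Defs

/-!
# SD Hess: at a star point the second fundamental form is zero

`star_hess`: `Q` a star point of the form `F` of degree `d ≥ 3`.  For `v` with `grd F Q ⬝ᵥ v = 0` and `s : K`:
`eval (Q + s • v) F = eval (s • v) F = s ^ d * eval v F`.  As polynomials in `s` (`K` infinite) the coefficients of `s²` agree:
`∑ i j, v i * v j * eval Q (pderiv i (pderiv j F)) = 0` (the second derivative of `s ↦ eval (Q + s • v) F` at 0; `d ≥ 3`).  Then polarise
(the second derivatives commute, characteristic 0).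

One way: put `p : K[X] := aeval (fun i => C (Q i) + C (v i) * X) F` and `q := C (eval v F) * X ^ d`; `p = q` (`Polynomial.funext`), so the
second derivatives at `0` agree; `derivative (aeval (fun i => C (Q i) + C (v i) * X) G) = ∑ i, C (v i) * aeval _ (pderiv i G)` by induction on `G`.

`test`: for indices `a b c e` the polynomial
`tst F a b c e = N_a N_c H_be - N_a N_e H_bc - N_b N_c H_ae + N_b N_e H_ac` (`N = ∂F`, `H = ∂∂F`) is `u^T H v` with `u = N_a e_b - N_b e_a`,
`v = N_c e_e - N_e e_c`, both killed by `grd F Q`.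
-/

set_option autoImplicit false

open MvPolynomial Matrix

namespace Pool.Agent.H8.SD

variable {K : Type} [Field K]

/-- The test polynomials which vanish at star points. -/
noncomputable def tst {n : ℕ} (F : MvPolynomial (Fin n) K) (a b c e : Fin n) : MvPolynomial (Fin n) K :=
  pderiv a F * pderiv c F * pderiv b (pderiv e F) - pderiv a F * pderiv e F * pderiv b (pderiv c F)
    - pderiv b F * pderiv c F * pderiv a (pderiv e F) + pderiv b F * pderiv e F * pderiv a (pderiv c F)

/-- the restriction of a polynomial to the line `s ↦ Q + s v` -/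
private noncomputable def rline {n : ℕ} (Q v : Fin n → K) : MvPolynomial (Fin n) K →ₐ[K] Polynomial K :=
  aeval (fun i => Polynomial.C (Q i) + Polynomial.C (v i) * Polynomial.X)

private theorem rline_eval {n : ℕ} (Q v : Fin n → K) (G : MvPolynomial (Fin n) K) (s : K) :
    (rline Q v G).eval s = eval (Q + s • v) G := by
  have h : (Polynomial.aeval s : Polynomial K →ₐ[K] K).comp (rline Q v) = aeval (Q + s • v) := by
    ext i
    simp only [AlgHom.comp_apply, rline, aeval_X, map_add, map_mul, Polynomial.aeval_C, Polynomial.aeval_X, Pi.add_apply,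
      Pi.smul_apply, smul_eq_mul, Algebra.algebraMap_self, RingHom.id_apply]
    ring
  have h2 := DFunLike.congr_fun h G
  simpa [MvPolynomial.aeval_eq_eval, Polynomial.coe_aeval_eq_eval] using h2

private theorem rline_deriv {n : ℕ} (Q v : Fin n → K) (G : MvPolynomial (Fin n) K) :
    Polynomial.derivative (rline Q v G) = ∑ i, Polynomial.C (v i) * rline Q v (pderiv i G) := by
  induction G using MvPolynomial.induction_on with
  | C a => simp [rline]
  | add p q hp hq =>
    rw [map_add, Polynomial.derivative_add, hp, hq, ← Finset.sum_add_distrib]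
    refine Finset.sum_congr rfl fun i _ => ?_
    rw [map_add, map_add, mul_add]
  | mul_X p k hp =>
    have hX : rline Q v (X k) = Polynomial.C (Q k) + Polynomial.C (v k) * Polynomial.X := by simp [rline]
    have e3 : ∀ i, Polynomial.C (v i) * rline Q v (pderiv i (p * X k)) =
        Polynomial.C (v i) * rline Q v (pderiv i p) * rline Q v (X k) + if i = k then rline Q v p * Polynomial.C (v k) else 0 := by
      intro i
      rw [Derivation.leibniz, pderiv_X, map_add, smul_eq_mul, smul_eq_mul, map_mul, map_mul]
      by_cases h : i = k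
      · subst h
        rw [Pi.single_eq_same, map_one, if_pos rfl]
        ring
      · rw [Pi.single_eq_of_ne (Ne.symm h), map_zero, if_neg h]
        ring
    have e2 : Polynomial.derivative (Polynomial.C (Q k) + Polynomial.C (v k) * Polynomial.X) = Polynomial.C (v k) := by
      simp
    rw [map_mul, Polynomial.derivative_mul, hp, Finset.sum_congr rfl fun i _ => e3 i, Finset.sum_add_distrib, ← Finset.sum_mul,
      Finset.sum_ite_eq' Finset.univ k, if_pos (Finset.mem_univ k), hX, e2]

private theorem hess_self {n : ℕ} (Q v : Fin n → K) (F : MvPolynomial (Fin n) K) :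
    (Polynomial.derivative (Polynomial.derivative (rline Q v F))).eval 0 =
      ∑ i, ∑ j, v i * v j * eval Q (pderiv i (pderiv j F)) := by
  rw [rline_deriv, map_sum, Polynomial.eval_finsetSum, Finset.sum_comm]
  refine Finset.sum_congr rfl fun j _ => ?_
  rw [Polynomial.derivative_C_mul, rline_deriv, Polynomial.eval_C_mul, Polynomial.eval_finsetSum, Finset.mul_sum]
  refine Finset.sum_congr rfl fun i _ => ?_
  rw [Polynomial.eval_C_mul, rline_eval, zero_smul, add_zero]
  ring

private theorem eval_smul_hom {n d : ℕ} {F : MvPolynomial (Fin n) K} (hF : F.IsHomogeneous d) (s : K) (v : Fin n → K) :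
    eval (s • v) F = s ^ d * eval v F := by
  rw [eval_eq', eval_eq', Finset.mul_sum]
  refine Finset.sum_congr rfl fun m hm => ?_
  have h1 : ∑ i, m i = d := by
    have h2 := hF.degree_eq_sum_deg_support hm
    rw [h2]
    exact (Finset.sum_subset (Finset.subset_univ _) (fun i _ hi => Finsupp.notMem_support_iff.mp hi)).symm
  simp only [Pi.smul_apply, smul_eq_mul, mul_pow, Finset.prod_mul_distrib, Finset.prod_pow_eq_pow_sum, h1]
  ring

private theorem pderiv_swap {n : ℕ} (i j : Fin n) (F : MvPolynomial (Fin n) K) :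
    pderiv i (pderiv j F) = pderiv j (pderiv i F) := by
  have h : ⁅pderiv (R := K) i, pderiv (R := K) j⁆ = 0 := by
    refine MvPolynomial.derivation_ext fun k => ?_
    rw [Derivation.commutator_apply]
    have h0 : ∀ a b : Fin n, pderiv (R := K) a (Pi.single (M := fun _ : Fin n => MvPolynomial (Fin n) K) b 1 k) = 0 := by
      intro a b
      rw [Pi.single_apply]
      split_ifs
      · exact pderiv_one
      · exact map_zero _
    rw [pderiv_X, pderiv_X, h0, h0, sub_zero]
    rfl
  have h1 := congrArg (fun D : Derivation K (MvPolynomial (Fin n) K) (MvPolynomial (Fin n) K) => D F) h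
  simp only [Derivation.commutator_apply, Derivation.coe_zero, Pi.zero_apply] at h1
  exact sub_eq_zero.1 h1

private theorem hess_zero [CharZero K] {n d : ℕ} (hd : 3 ≤ d) {F : MvPolynomial (Fin n) K} (hF : F.IsHomogeneous d) {Q : Fin n → K}
    (hQ : Star F Q) {v : Fin n → K} (hv : grd F Q ⬝ᵥ v = 0) :
    ∑ i, ∑ j, v i * v j * eval Q (pderiv i (pderiv j F)) = 0 := by
  have h1 : rline Q v F = Polynomial.C (eval v F) * Polynomial.X ^ d := by
    apply Polynomial.funext
    intro s
    rw [rline_eval, hQ (s • v) (by rw [dotProduct_smul, hv, smul_zero])]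
    simp only [Polynomial.eval_mul, Polynomial.eval_C, Polynomial.eval_pow, Polynomial.eval_X]
    rw [eval_smul_hom hF, mul_comm]
  rw [← hess_self, h1]
  obtain ⟨k, rfl⟩ : ∃ k, d = k + 3 := ⟨d - 3, by omega⟩
  simp

theorem star_hess [CharZero K] {n d : ℕ} (hd : 3 ≤ d) {F : MvPolynomial (Fin n) K} (hF : F.IsHomogeneous d) {Q : Fin n → K}
    (hQ : Star F Q) {u v : Fin n → K} (hu : grd F Q ⬝ᵥ u = 0) (hv : grd F Q ⬝ᵥ v = 0) :
    ∑ i, ∑ j, u i * v j * eval Q (pderiv i (pderiv j F)) = 0 := by
  have h1 := hess_zero hd hF hQ hu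
  have h2 := hess_zero hd hF hQ hv
  have h3 := hess_zero hd hF hQ (v := u + v) (by rw [dotProduct_add, hu, hv, add_zero])
  have hsym : ∑ i, ∑ j, v i * u j * eval Q (pderiv i (pderiv j F)) =
      ∑ i, ∑ j, u i * v j * eval Q (pderiv i (pderiv j F)) := by
    rw [Finset.sum_comm]
    refine Finset.sum_congr rfl fun i _ => Finset.sum_congr rfl fun j _ => ?_
    have h4 : pderiv j (pderiv i F) = pderiv i (pderiv j F) := pderiv_swap j i F
    rw [h4]
    ring
  have h5 : ∑ i, ∑ j, (u + v) i * (u + v) j * eval Q (pderiv i (pderiv j F)) =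
      ∑ i, ∑ j, u i * u j * eval Q (pderiv i (pderiv j F)) +
      ∑ i, ∑ j, v i * v j * eval Q (pderiv i (pderiv j F)) +
      (∑ i, ∑ j, u i * v j * eval Q (pderiv i (pderiv j F)) +
      ∑ i, ∑ j, v i * u j * eval Q (pderiv i (pderiv j F))) := by
    simp only [← Finset.sum_add_distrib]
    refine Finset.sum_congr rfl fun i _ => Finset.sum_congr rfl fun j _ => ?_
    simp only [Pi.add_apply]
    ring
  rw [h5, h1, h2, hsym] at h3
  have h6 : (2 : K) * ∑ i, ∑ j, u i * v j * eval Q (pderiv i (pderiv j F)) = 0 := by
    linear_combination h3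
  exact (mul_eq_zero.mp h6).resolve_left two_ne_zero

theorem tst_star [CharZero K] {n d : ℕ} (hd : 3 ≤ d) {F : MvPolynomial (Fin n) K} (hF : F.IsHomogeneous d) {Q : Fin n → K}
    (hQ : Star F Q) (a b c e : Fin n) : eval Q (tst F a b c e) = 0 := by
  have key : ∀ x y : Fin n, grd F Q ⬝ᵥ (Pi.single y (grd F Q x) - Pi.single x (grd F Q y)) = 0 := by
    intro x y
    rw [dotProduct_sub, dotProduct_single, dotProduct_single]
    ring
  have h1 := star_hess hd hF hQ (key a b) (key c e)
  have h2 : ∀ (u v : Fin n → K), ∑ i, ∑ j, u i * v j * eval Q (pderiv i (pderiv j F)) =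
      u ⬝ᵥ ((Matrix.of fun i j => eval Q (pderiv i (pderiv j F))) *ᵥ v) := by
    intro u v
    simp only [dotProduct, mulVec, Matrix.of_apply, Finset.mul_sum]
    refine Finset.sum_congr rfl fun i _ => Finset.sum_congr rfl fun j _ => ?_
    ring
  rw [h2, Matrix.mulVec_sub, sub_dotProduct, dotProduct_sub, dotProduct_sub] at h1
  simp only [single_dotProduct, Matrix.mulVec_single, Pi.smul_apply, Matrix.col_apply, Matrix.of_apply, MulOpposite.smul_eq_mul_unop,
    MulOpposite.unop_op] at h1
  unfold tst
  simp only [map_add, map_sub, map_mul]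
  unfold grd at h1
  linear_combination h1

end Pool.Agent.H8.SD
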