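import Pool.Agent.H8.SD.Zero
import Pool.Agent.H8.SD.Hom

/-!
# SD Irr: a smooth form of degree at least two in at least three variables is irreducible

`F ≠ 0` and `F` is not a unit (at a vector `x ≠ 0` some derivative of `F` is not zero, and `F` is a form of degree `d ≥ 2`: if `F = C c`
then all derivatives are 0).  If `F = A B` with non-units `A, B`, then `A, B` are forms (`hom_of_mul`) of positive degree, so
`eval 0 A = eval 0 B = 0`, so they have a common zero `x ≠ 0` in `L` (`exists_common_zero`), and
`∂_i (A B) = A ∂_i B + B ∂_i A` is zero at `x` for all `i`.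
-/

set_option autoImplicit false

open MvPolynomial

namespace Pool.Agent.H8.SD

theorem irreducible_of_smooth {K L : Type} [Field K] [Field L] [IsAlgClosed L] [Algebra K L] {n d : ℕ} (hn : 3 ≤ n)
    {F : MvPolynomial (Fin n) K} (hF : F.IsHomogeneous d) (hs : Smooth L F) : Irreducible F := by
  have hone : (fun _ : Fin n => (1 : L)) ≠ 0 := by
    intro h
    have h1 := congrFun h (⟨0, by omega⟩ : Fin n)
    exact one_ne_zero h1
  have hconst : ∀ c : K, F ≠ C c := by
    intro c hc
    obtain ⟨i, hi⟩ := hs _ hone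
    rw [hc, pderiv_C, map_zero] at hi
    exact hi rfl
  have hF0 : F ≠ 0 := by
    have h := hconst 0
    rwa [C_0] at h
  -- a homogeneous non-unit vanishes at the origin
  have hzero : ∀ (A : MvPolynomial (Fin n) K) (a : ℕ), A.IsHomogeneous a → A ≠ 0 → ¬ IsUnit A → eval 0 A = 0 := by
    intro A a hA hA0 hAu
    have ha : a ≠ 0 := by
      rintro rfl
      apply hAu
      have h1 : A.totalDegree = 0 := hA.totalDegree hA0
      have h2 : A = C (coeff 0 A) := totalDegree_eq_zero_iff_eq_C.1 h1
      have h3 : coeff 0 A ≠ 0 := by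
        intro h4
        apply hA0
        rw [h2, h4, C_0]
      rw [h2]
      exact (isUnit_iff_ne_zero.2 h3).map C
    rw [eval_zero]
    change coeff 0 A = 0
    refine hA.coeff_eq_zero ?_
    simpa using ha.symm
  refine ⟨?_, ?_⟩
  · intro hu
    obtain ⟨r, -, hr⟩ := isUnit_iff_eq_C_of_isReduced.1 hu
    exact hconst r hr
  · intro A B hAB
    by_contra hcon
    push Not at hcon
    obtain ⟨hA, hB⟩ := hcon
    have hA0 : A ≠ 0 := by
      rintro rfl
      exact hF0 (by rw [hAB, zero_mul])
    have hB0 : B ≠ 0 := by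
      rintro rfl
      exact hF0 (by rw [hAB, mul_zero])
    obtain ⟨a, b, ha, hb, -⟩ := hom_of_mul (hAB ▸ hF) hA0 hB0
    obtain ⟨x, hx, h1, h2⟩ := exists_common_zero (L := L) hn A B (hzero A a ha hA0 hA) (hzero B b hb hB0 hB)
    obtain ⟨i, hi⟩ := hs x hx
    apply hi
    rw [hAB, Derivation.leibniz, map_add, smul_eq_mul, smul_eq_mul, map_mul, map_mul, h1, h2, zero_mul, zero_mul, add_zero]

end Pool.Agent.H8.SD
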