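import Pool.Agent.H8.SD.Defs

/-!
# SD Lin: the linear forms in the prime ideal of a component

`pull M (lin l) = lin (l ᵥ* M)` (`pull_lin`); it is zero iff `l ᵥ* M = 0` iff `l` is a multiple of `grd F Q` (`Par.ker`: the range of `M` is the
kernel of the linear form `grd F Q`; if `grd F Q = 0`, then `M` would be surjective, impossible by dimension).

`lin_cases`: if some `l₂` with `φ ∣ pull M (lin l₂)` is not a multiple of `grd F Q`, then `lin (l₂ ᵥ* M) ≠ 0` is divisible by the non-unit `φ`: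
`φ` is associated to it (total degree 1: the cofactor has total degree 0), so `φ ∣ pull M (lin l)` gives `lin (l ᵥ* M) = c • lin (l₂ ᵥ* M)`
(again by total degrees), `l - c • l₂` is a multiple of `grd F Q`.

`not_both`: `l₁, l₂` independent with `φ ∣ pull M (lin l₁), pull M (lin l₂)`: one of the two is not zero (otherwise both are multiples of
`grd F Q`), say `lin (l_s ᵥ* M) = φ * C c`, `c ≠ 0`; `degreeOf 0 φ ≠ 0` means that `(l_s ᵥ* M) 0 ≠ 0`; but
`(l_s ᵥ* M) 0 = l_s ⬝ᵥ Q` (`Par.col`).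
-/

set_option autoImplicit false

open MvPolynomial Matrix

namespace Pool.Agent.H8.SD

variable {K : Type} [Field K] {m : ℕ} {F : MvPolynomial (Fin (m + 2)) K} {Q : Fin (m + 2) → K}
  {M : Matrix (Fin (m + 2)) (Fin (m + 1)) K} {φ : MvPolynomial (Fin (m + 1)) K}

private lemma lin_ne_zero {k : ℕ} {u : Fin k → K} (hu : u ≠ 0) : lin u ≠ 0 := by
  intro h
  apply hu
  funext i
  have h1 := eval_lin u (Pi.single i 1)
  rw [h, map_zero, dotProduct_single, mul_one] at h1
  exact h1.symm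

private lemma lin_smul {k : ℕ} (c : K) (u : Fin k → K) : lin (c • u) = C c * lin u := by
  unfold lin
  rw [Finset.mul_sum]
  refine Finset.sum_congr rfl fun i _ => ?_
  rw [Pi.smul_apply, smul_eq_mul, C_mul, mul_assoc]

private lemma totalDegree_lin {k : ℕ} (u : Fin k → K) : (lin u).totalDegree ≤ 1 := by
  unfold lin
  refine (totalDegree_finsetSum _ _).trans (Finset.sup_le fun i _ => ?_)
  refine (totalDegree_mul _ _).trans ?_
  rw [totalDegree_C, totalDegree_X]

private lemma eq_lin {k : ℕ} {φ : MvPolynomial (Fin k) K} (hφ : Irreducible φ) {u : Fin k → K} (hu : u ≠ 0)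
    (hd : φ ∣ lin u) : ∃ c : K, c ≠ 0 ∧ φ = lin (c • u) := by
  obtain ⟨ψ, hψ⟩ := hd
  have h0 : lin u ≠ 0 := lin_ne_zero hu
  have hφ0 : φ ≠ 0 := hφ.ne_zero
  have hψ0 : ψ ≠ 0 := by
    rintro rfl
    rw [mul_zero] at hψ
    exact h0 hψ
  have h1 : (lin u).totalDegree = φ.totalDegree + ψ.totalDegree := by
    rw [hψ]
    exact totalDegree_mul_of_isDomain hφ0 hψ0
  have h2 : φ.totalDegree ≠ 0 := by
    intro h
    have h3 := totalDegree_eq_zero_iff_eq_C.mp h
    apply hφ.not_isUnit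
    rw [h3]
    have h4 : coeff 0 φ ≠ 0 := by
      intro h5
      rw [h5, C_0] at h3
      exact hφ0 h3
    exact (isUnit_iff_ne_zero.mpr h4).map C
  have h3 := totalDegree_lin u
  have h4 : ψ.totalDegree = 0 := by omega
  have h5 := totalDegree_eq_zero_iff_eq_C.mp h4
  have h6 : coeff 0 ψ ≠ 0 := by
    intro h7
    rw [h7, C_0] at h5
    exact hψ0 h5
  refine ⟨(coeff 0 ψ)⁻¹, inv_ne_zero h6, ?_⟩
  rw [lin_smul, hψ]
  conv_rhs => rw [h5]
  rw [coeff_C, if_pos rfl]
  rw [mul_left_comm, ← C_mul, inv_mul_cancel₀ h6, C_1, mul_one]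

private lemma vecMul_dot {n k : ℕ} (l : Fin n → K) (N : Matrix (Fin n) (Fin k) K) (y : Fin k → K) :
    (l ᵥ* N) ⬝ᵥ y = l ⬝ᵥ (N *ᵥ y) := (dotProduct_mulVec l N y).symm

theorem grd_ne_zero (h : Good F Q M φ) : grd F Q ≠ 0 := by
  intro h0
  have hs : Function.Surjective (Matrix.mulVecLin M) := by
    intro v
    obtain ⟨y, hy⟩ := (h.par.ker v).mp (by rw [h0, zero_dotProduct])
    exact ⟨y, hy⟩
  have h1 := LinearMap.finrank_le_finrank_of_surjective (f := Matrix.mulVecLin M) hs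
  rw [Module.finrank_fin_fun, Module.finrank_fin_fun] at h1
  omega

private lemma grd_vecMul (h : Good F Q M φ) : grd F Q ᵥ* M = 0 := by
  funext j
  have h1 := vecMul_dot (grd F Q) M (Pi.single j 1)
  rw [dotProduct_single, mul_one] at h1
  rw [h1]
  exact (h.par.ker _).mpr ⟨_, rfl⟩

private lemma of_vecMul_eq_zero (h : Good F Q M φ) {l : Fin (m + 2) → K} (hl : l ᵥ* M = 0) :
    ∃ c : K, l = c • grd F Q := by
  obtain ⟨i, hi⟩ := Function.ne_iff.mp (grd_ne_zero h)
  rw [Pi.zero_apply] at hi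
  refine ⟨l i / grd F Q i, ?_⟩
  funext j
  have h1 : grd F Q ⬝ᵥ (grd F Q i • Pi.single j 1 - grd F Q j • Pi.single i 1) = 0 := by
    rw [dotProduct_sub, dotProduct_smul, dotProduct_smul, dotProduct_single, dotProduct_single, mul_one, mul_one,
      smul_eq_mul, smul_eq_mul, mul_comm, sub_self]
  obtain ⟨y, hy⟩ := (h.par.ker _).mp h1
  have h2 : l ⬝ᵥ (grd F Q i • Pi.single j 1 - grd F Q j • Pi.single i 1) = 0 := by
    rw [← hy, ← vecMul_dot, hl, zero_dotProduct]
  rw [dotProduct_sub, dotProduct_smul, dotProduct_smul, dotProduct_single, dotProduct_single, mul_one, mul_one,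
    smul_eq_mul, smul_eq_mul, sub_eq_zero] at h2
  rw [Pi.smul_apply, smul_eq_mul]
  field_simp
  linear_combination h2

theorem lin_grd_mem (h : Good F Q M φ) : lin (grd F Q) ∈ cls M φ := by
  rw [mem_cls, pull_lin, grd_vecMul h]
  have h1 : lin (0 : Fin (m + 1) → K) = 0 := by
    simp [lin]
  rw [h1]
  exact dvd_zero _

theorem lin_cases (h : Good F Q M φ) :
    (∀ l : Fin (m + 2) → K, lin l ∈ cls M φ → ∃ c : K, l = c • grd F Q) ∨
    ∃ l₂ : Fin (m + 2) → K, LinearIndependent K ![grd F Q, l₂] ∧ lin l₂ ∈ cls M φ ∧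
      ∀ l : Fin (m + 2) → K, lin l ∈ cls M φ → ∃ a b : K, l = a • grd F Q + b • l₂ := by
  by_cases hc : ∀ l : Fin (m + 2) → K, lin l ∈ cls M φ → ∃ c : K, l = c • grd F Q
  · exact Or.inl hc
  · right
    push Not at hc
    obtain ⟨l₂, h2, h3⟩ := hc
    refine ⟨l₂, ?_, h2, ?_⟩
    · rw [LinearIndependent.pair_iff]
      intro s t hst
      have ht : t = 0 := by
        by_contra ht
        apply h3 (-s / t)
        have h4 : t • l₂ = (-s) • grd F Q := by
          rw [neg_smul]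
          exact eq_neg_of_add_eq_zero_right hst
        rw [div_eq_inv_mul, mul_smul, ← h4, smul_smul, inv_mul_cancel₀ ht, one_smul]
      refine ⟨?_, ht⟩
      rw [ht, zero_smul, add_zero] at hst
      exact (smul_eq_zero.mp hst).resolve_right (grd_ne_zero h)
    · intro l hl
      have hu : l₂ ᵥ* M ≠ 0 := by
        intro h0
        obtain ⟨c, hc⟩ := of_vecMul_eq_zero h h0
        exact h3 c hc
      rw [mem_cls, pull_lin] at h2 hl
      obtain ⟨c, hc0, hc⟩ := eq_lin h.irr hu h2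
      have hb : ∃ b : K, l ᵥ* M = b • (l₂ ᵥ* M) := by
        by_cases hw : l ᵥ* M = 0
        · exact ⟨0, by rw [hw, zero_smul]⟩
        · obtain ⟨d, hd0, hd⟩ := eq_lin h.irr hw hl
          have h5 : d • (l ᵥ* M) = c • (l₂ ᵥ* M) := by
            funext i
            have h6 := eval_lin (d • (l ᵥ* M)) (Pi.single i 1)
            rw [← hd, hc, eval_lin, dotProduct_single, dotProduct_single, mul_one, mul_one] at h6
            exact h6.symm
          refine ⟨d⁻¹ * c, ?_⟩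
          rw [mul_smul, ← h5, smul_smul, inv_mul_cancel₀ hd0, one_smul]
      obtain ⟨b, hb⟩ := hb
      have h7 : (l - b • l₂) ᵥ* M = 0 := by
        rw [sub_vecMul, smul_vecMul, hb, sub_self]
      obtain ⟨a, ha⟩ := of_vecMul_eq_zero h h7
      exact ⟨a, b, by rw [← ha, sub_add_cancel]⟩

private lemma degreeOf_lin {k : ℕ} {u : Fin (k + 1) → K} (hu : u 0 = 0) : (lin u).degreeOf 0 = 0 := by
  rw [← Nat.le_zero]
  unfold lin
  refine (degreeOf_sum_le _ _ _).trans (Finset.sup_le fun i _ => ?_)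
  by_cases hi : i = 0
  · rw [hi, hu, C_0, zero_mul, degreeOf_zero]
  · refine (degreeOf_C_mul_le _ _ _).trans ?_
    rw [degreeOf_X_of_ne (Ne.symm hi)]

private lemma dot_ne_zero (h : Good F Q M φ) {l : Fin (m + 2) → K} (hl : lin l ∈ cls M φ) (h0 : l ᵥ* M ≠ 0) :
    l ⬝ᵥ Q ≠ 0 := by
  intro he
  rw [mem_cls, pull_lin] at hl
  obtain ⟨c, hc0, hc⟩ := eq_lin h.irr h0 hl
  apply h.deg
  rw [hc]
  apply degreeOf_lin
  have h1 : (l ᵥ* M) 0 = l ⬝ᵥ Q := by
    rw [vecMul, dotProduct, dotProduct]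
    exact Finset.sum_congr rfl fun i _ => by rw [h.par.col i]
  rw [Pi.smul_apply, h1, he, smul_zero]

theorem not_both (h : Good F Q M φ) {l₁ l₂ : Fin (m + 2) → K} (hl : LinearIndependent K ![l₁, l₂]) (h1 : lin l₁ ∈ cls M φ)
    (h2 : lin l₂ ∈ cls M φ) (e1 : l₁ ⬝ᵥ Q = 0) : l₂ ⬝ᵥ Q ≠ 0 := by
  have h3 : l₁ ᵥ* M = 0 := by
    by_contra h4
    exact dot_ne_zero h h1 h4 e1
  apply dot_ne_zero h h2
  intro h4
  obtain ⟨c, hc⟩ := of_vecMul_eq_zero h h3
  obtain ⟨d, hd⟩ := of_vecMul_eq_zero h h4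
  rw [LinearIndependent.pair_iff] at hl
  obtain ⟨h5, h6⟩ := hl d (-c) (by rw [hc, hd, smul_smul, smul_smul, neg_mul, neg_smul, mul_comm, add_neg_cancel])
  have h7 : c = 0 := by
    rw [← neg_neg c, h6, neg_zero]
  rw [h7, zero_smul] at hc
  obtain ⟨h8, -⟩ := hl 1 0 (by rw [hc, smul_zero, zero_smul, add_zero])
  exact one_ne_zero h8

end Pool.Agent.H8.SD
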