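import Pool.Agent.H8.SD.Dens
import Pool.Agent.H8.SD.HesA

/-!
# SD LocA: a branch of zeros through `Q` with tangent direction `u`

`F` is a form of degree `d ≤ 6` (homogeneity is not needed, only total degree `≤ 6`), `eval Q F = 0`, `u, w` tangent vectors at `Q`,
`hes F Q u u = 0`, `hes F Q u w ≠ 0`.  `g` vanishes at all zeros of `F` at which `h` does not, `h(Q) ≠ 0`.  Claim `grd g Q ⬝ᵥ u = 0`.

In `MvPolynomial (Fin 2) K` (`t = X 0`, `y = X 1`) put `f = aeval (fun i => C (Q i) + X 0 * (C (u i) + C (w i) * X 1)) F`, that is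
`F(Q + t(u + y w))`.  `f` and `∂_0 f` vanish at `t = 0` (as polynomials in `y`), so `f = X 0 ^ 2 * e`; `degreeOf 0 f ≤ 6` (total degree), so
`degreeOf 0 e ≤ 4`.  `∂_0 ∂_0 f` at `t = 0` is `2 e(0, y) = hes F Q (u + y w) (u + y w) = 2 y hes F Q u w + y² hes F Q w w` (the Hessian is
symmetric), so `e(0,0) = 0`, `(∂_1 e)(0,0) = hes F Q u w ≠ 0`.  So `e ≠ 0` has an irreducible factor `φ` with `φ(0,0) = 0`, `e = φ η`, and
`(∂_1 φ)(0,0) ≠ 0` (product rule at `(0,0)`).
Put `k = aeval (same substitution) (g * h)`.  Claim `φ ∣ k`: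
(a) `degreeOf 0 φ ≠ 0`: by `dens` (`degreeOf 0 φ ≤ degreeOf 0 e ≤ 4`): a zero `(t, y)` of `φ` gives the zero `x = Q + t(u + y w)` of `F`, and
`g(x) h(x) = 0` (if `h(x) ≠ 0` then `g(x) = 0`).
(b) `degreeOf 0 φ = 0`: then `φ(t, 0) = φ(0, 0) = 0` for all `t`, so `φ` vanishes at `(t,0)`, so `F(Q + t u) = 0` for all `t`, so
`k(t, 0) = 0` for all `t`; directly `0 = (∂_0 k)(0,0)` in this case.
In case (a) `k = φ κ`, `(∂_1 k)(0,0) = 0` (because `k(0, y) = g(Q) h(Q) = 0`), and it is `(∂_1 φ)(0,0) κ(0,0)`, so `κ(0,0) = 0`, so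
`(∂_0 k)(0,0) = 0`.  In both cases `0 = (∂_0 k)(0,0) = grd (g h) Q ⬝ᵥ u = h(Q) * (grd g Q ⬝ᵥ u)` (`g(Q) = 0`).
-/

set_option autoImplicit false

open MvPolynomial Matrix

namespace Pool.Agent.H8.SD

section
variable {K : Type} [Field K]

/-- The chain rule. -/
private theorem chainA {n m : ℕ} (s : Fin n → MvPolynomial (Fin m) K) (j : Fin m) (G : MvPolynomial (Fin n) K) :
    pderiv j (aeval s G) = ∑ i, aeval s (pderiv i G) * pderiv j (s i) := by
  induction G using MvPolynomial.induction_on with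
  | C a =>
    have h : aeval s (C a : MvPolynomial (Fin n) K) = (C a : MvPolynomial (Fin m) K) := by simp
    rw [h, pderiv_C]
    simp
  | add p q hp hq =>
    rw [map_add, map_add, hp, hq, ← Finset.sum_add_distrib]
    refine Finset.sum_congr rfl fun i _ => ?_
    rw [map_add, map_add, add_mul]
  | mul_X p k hp =>
    rw [map_mul, pderiv_mul, hp, aeval_X]
    have h : ∀ i : Fin n, aeval s (pderiv i (p * X k)) * pderiv j (s i) =
        aeval s (pderiv i p) * pderiv j (s i) * s k + (if i = k then aeval s p * pderiv j (s i) else 0) := by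
      intro i
      rw [pderiv_mul, map_add, map_mul, map_mul, aeval_X]
      by_cases hik : i = k
      · subst hik
        rw [pderiv_X_self, map_one, if_pos rfl]
        ring
      · rw [pderiv_X_of_ne (Ne.symm hik), map_zero, if_neg hik]
        ring
    rw [Finset.sum_congr rfl fun i _ => h i, Finset.sum_add_distrib, Finset.sum_mul, Finset.sum_ite_eq' Finset.univ k,
      if_pos (Finset.mem_univ _)]

/-- The second derivatives commute. -/
private theorem commA {n : ℕ} (i j : Fin n) (F : MvPolynomial (Fin n) K) : pderiv i (pderiv j F) = pderiv j (pderiv i F) := by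
  have h : ⁅pderiv (R := K) i, pderiv (R := K) j⁆ = 0 := by
    refine MvPolynomial.derivation_ext fun k => ?_
    rw [Derivation.commutator_apply]
    have h0 : ∀ a b : Fin n, pderiv (R := K) a (Pi.single (M := fun _ : Fin n => MvPolynomial (Fin n) K) b 1 k) = 0 := by
      intro a b
      rw [Pi.single_apply]
      split_ifs
      · exact pderiv_one
      · exact map_zero _
    rw [pderiv_X, pderiv_X, h0, h0, sub_zero]
    rfl
  have h2 := congrArg (fun D : Derivation K (MvPolynomial (Fin n) K) (MvPolynomial (Fin n) K) => D F) h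
  simp only [Derivation.commutator_apply, Derivation.coe_zero, Pi.zero_apply] at h2
  exact sub_eq_zero.1 h2

private theorem hes_symA {n : ℕ} (F : MvPolynomial (Fin n) K) (Q u v : Fin n → K) : hes F Q u v = hes F Q v u := by
  unfold hes
  rw [Finset.sum_comm]
  refine Finset.sum_congr rfl fun i _ => Finset.sum_congr rfl fun j _ => ?_
  rw [commA j i]
  ring

/-- A polynomial which vanishes at `X 0 = 0` is divisible by `X 0`. -/
private theorem X_dvdA [CharZero K] {m : ℕ} {p : MvPolynomial (Fin (m + 1)) K}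
    (hp : ∀ y : Fin m → K, eval (Fin.cons 0 y : Fin (m + 1) → K) p = 0) : X 0 ∣ p := by
  have h : Polynomial.X ∣ finSuccEquiv K m p := by
    rw [Polynomial.X_dvd_iff]
    refine MvPolynomial.funext fun y => ?_
    have h1 := hp y
    rw [eval_eq_eval_mv_eval', ← Polynomial.coeff_zero_eq_eval_zero, Polynomial.coeff_map] at h1
    rw [h1, map_zero]
  rw [← finSuccEquiv_X_zero] at h
  exact (map_dvd_iff (finSuccEquiv K m)).1 h

private theorem degA {n m : ℕ} (s : Fin n → MvPolynomial (Fin m) K) (j : Fin m) (hs : ∀ i, degreeOf j (s i) ≤ 1)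
    (F : MvPolynomial (Fin n) K) : degreeOf j (aeval s F) ≤ F.totalDegree := by
  rw [aeval_def, eval₂_eq]
  refine (degreeOf_sum_le _ _ _).trans (Finset.sup_le fun d hd => ?_)
  refine (degreeOf_mul_le _ _ _).trans ?_
  rw [algebraMap_eq, degreeOf_C, zero_add]
  refine (degreeOf_prod_le _ _ _).trans ?_
  refine le_trans ?_ (le_totalDegree hd)
  rw [Finsupp.sum]
  refine Finset.sum_le_sum fun i _ => ?_
  exact (degreeOf_pow_le _ _ _).trans ((Nat.mul_le_mul_left _ (hs i)).trans_eq (mul_one _))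

private theorem deg_mulA {m : ℕ} {p q : MvPolynomial (Fin (m + 1)) K} (hp : p ≠ 0) (hq : q ≠ 0) :
    degreeOf 0 (p * q) = degreeOf 0 p + degreeOf 0 q := by
  rw [← natDegree_finSuccEquiv, ← natDegree_finSuccEquiv, ← natDegree_finSuccEquiv, map_mul]
  refine Polynomial.natDegree_mul ?_ ?_
  · exact fun h => hp ((map_eq_zero_iff _ (finSuccEquiv K m).injective).1 h)
  · exact fun h => hq ((map_eq_zero_iff _ (finSuccEquiv K m).injective).1 h)

/-- The substitution `x = Q + t (u + y w)`, `t = X 0`, `y = X 1`. -/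
private noncomputable def sb {n : ℕ} (Q u w : Fin n → K) (i : Fin n) : MvPolynomial (Fin 2) K :=
  C (Q i) + X 0 * (C (u i) + C (w i) * X 1)

private theorem sb_d0 {n : ℕ} (Q u w : Fin n → K) (i : Fin n) : pderiv 0 (sb Q u w i) = C (u i) + C (w i) * X 1 := by
  unfold sb
  rw [map_add, pderiv_C, pderiv_mul, pderiv_X_self, map_add, pderiv_C, pderiv_C_mul, pderiv_X_of_ne (by decide)]
  ring

private theorem sb_d1 {n : ℕ} (Q u w : Fin n → K) (i : Fin n) : pderiv 1 (sb Q u w i) = X 0 * C (w i) := by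
  unfold sb
  rw [map_add, pderiv_C, pderiv_mul, pderiv_X_of_ne (by decide), map_add, pderiv_C, pderiv_C_mul, pderiv_X_self]
  ring

private theorem sb_deg {n : ℕ} (Q u w : Fin n → K) (i : Fin n) : degreeOf 0 (sb Q u w i) ≤ 1 := by
  unfold sb
  refine (degreeOf_add_le _ _ _).trans (max_le ?_ ?_)
  · rw [degreeOf_C]
    exact Nat.zero_le _
  · refine (degreeOf_mul_le _ _ _).trans ?_
    have h1 : degreeOf 0 (X 0 : MvPolynomial (Fin 2) K) = 1 := by
      rw [degreeOf_X]
      simp
    have h2 : degreeOf 0 (C (u i) + C (w i) * X 1 : MvPolynomial (Fin 2) K) = 0 := by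
      refine Nat.le_zero.1 ((degreeOf_add_le _ _ _).trans (max_le ?_ ?_))
      · rw [degreeOf_C]
      · refine (degreeOf_mul_le _ _ _).trans ?_
        rw [degreeOf_C, degreeOf_X]
        simp
    rw [h1, h2]

private theorem eval_sb {n : ℕ} (Q u w : Fin n → K) (z : Fin 2 → K) (G : MvPolynomial (Fin n) K) :
    eval z (aeval (sb Q u w) G) = eval (fun i => Q i + z 0 * (u i + w i * z 1)) G := by
  have h : (aeval z : MvPolynomial (Fin 2) K →ₐ[K] K).comp (aeval (sb Q u w)) =
      aeval (fun i => Q i + z 0 * (u i + w i * z 1)) := by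
    ext i
    simp [sb]
  have h2 := DFunLike.congr_fun h G
  simpa [MvPolynomial.aeval_eq_eval] using h2

end

theorem loc_dir {K : Type} [Field K] [CharZero K] (hK : Sol K) {n : ℕ} {F : MvPolynomial (Fin n) K} (hF : F.totalDegree ≤ 6)
    {g h : MvPolynomial (Fin n) K} {Q : Fin n → K} (hQ : eval Q F = 0) (hh : eval Q h ≠ 0)
    (hg : ∀ x, eval x F = 0 → eval x h ≠ 0 → eval x g = 0) {u w : Fin n → K} (hu : grd F Q ⬝ᵥ u = 0) (hw : grd F Q ⬝ᵥ w = 0)
    (huu : hes F Q u u = 0) (huw : hes F Q u w ≠ 0) : grd g Q ⬝ᵥ u = 0 := by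
  classical
  have hgQ : eval Q g = 0 := hg Q hQ hh
  -- evaluation at points with first coordinate `0`
  have ev0 : ∀ (z : Fin 2 → K), z 0 = 0 → ∀ G : MvPolynomial (Fin n) K, eval z (aeval (sb Q u w) G) = eval Q G := by
    intro z hz G
    rw [eval_sb, hz]
    simp
  -- derivatives
  have d0 : ∀ G : MvPolynomial (Fin n) K, pderiv 0 (aeval (sb Q u w) G) =
      ∑ i, aeval (sb Q u w) (pderiv i G) * (C (u i) + C (w i) * X 1) := by
    intro G
    rw [chainA]
    exact Finset.sum_congr rfl fun i _ => by rw [sb_d0]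
  have d1 : ∀ G : MvPolynomial (Fin n) K, pderiv 1 (aeval (sb Q u w) G) =
      ∑ i, aeval (sb Q u w) (pderiv i G) * (X 0 * C (w i)) := by
    intro G
    rw [chainA]
    exact Finset.sum_congr rfl fun i _ => by rw [sb_d1]
  have d1z : ∀ G : MvPolynomial (Fin n) K, eval 0 (pderiv 1 (aeval (sb Q u w) G)) = 0 := by
    intro G
    rw [d1, map_sum]
    refine Finset.sum_eq_zero fun i _ => ?_
    rw [map_mul, map_mul, eval_X]
    simp
  set f : MvPolynomial (Fin 2) K := aeval (sb Q u w) F with hf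
  -- `f = X 0 * f1`
  obtain ⟨f1, hf1⟩ : X 0 ∣ f := X_dvdA fun y => by rw [hf, ev0 _ (by simp), hQ]
  have hd0 : ∀ z : Fin 2 → K, z 0 = 0 → eval z (pderiv 0 f) = 0 := by
    intro z hz
    rw [hf, d0, map_sum]
    have h1 : ∀ i : Fin n, eval z (aeval (sb Q u w) (pderiv i F) * (C (u i) + C (w i) * X 1)) =
        grd F Q i * u i + grd F Q i * w i * z 1 := by
      intro i
      rw [map_mul, ev0 z hz]
      simp only [map_add, map_mul, eval_C, eval_X, grd]
      ring
    rw [Finset.sum_congr rfl fun i _ => h1 i, Finset.sum_add_distrib, ← Finset.sum_mul]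
    simp only [dotProduct] at hu hw
    rw [hu, hw, zero_mul, add_zero]
  obtain ⟨e, he1⟩ : X 0 ∣ f1 := X_dvdA fun y => by
    have h1 := hd0 (Fin.cons 0 y) (by simp)
    rw [hf1, pderiv_mul, pderiv_X_self, map_add, map_mul, map_mul, map_one, one_mul, eval_X, Fin.cons_zero, zero_mul, add_zero] at h1
    exact h1
  have he : f = X 0 * (X 0 * e) := by rw [hf1, he1]
  -- the second derivative
  have hdd : pderiv 0 (pderiv 0 f) = ∑ i, ∑ j, aeval (sb Q u w) (pderiv j (pderiv i F)) *
      ((C (u j) + C (w j) * X 1) * (C (u i) + C (w i) * X 1)) := by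
    rw [hf, d0, map_sum]
    refine Finset.sum_congr rfl fun i _ => ?_
    have h1 : pderiv 0 (C (u i) + C (w i) * X 1 : MvPolynomial (Fin 2) K) = 0 := by
      rw [map_add, pderiv_C, pderiv_C_mul, pderiv_X_of_ne (by decide)]
      ring
    rw [pderiv_mul, h1, mul_zero, add_zero, d0, Finset.sum_mul]
    refine Finset.sum_congr rfl fun j _ => ?_
    ring
  have hde : pderiv 0 (pderiv 0 f) = 2 * e + X 0 * (4 * pderiv 0 e + X 0 * pderiv 0 (pderiv 0 e)) := by
    have hX : ∀ q : MvPolynomial (Fin 2) K, pderiv 0 (X 0 * q) = q + X 0 * pderiv 0 q := by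
      intro q
      rw [pderiv_mul, pderiv_X_self, one_mul]
    rw [he]
    simp only [hX, map_add]
    ring
  -- `e (0,0) = 0`
  have hx : ∀ (p q : MvPolynomial (Fin 2) K), eval 0 (p + X 0 * q) = eval 0 p := by
    intro p q
    rw [map_add, map_mul, eval_X]
    simp
  have he00 : eval 0 e = 0 := by
    have h1 := congrArg (eval (0 : Fin 2 → K)) (hde.symm.trans hdd)
    rw [hx, map_mul, map_sum] at h1
    have h2 : ∑ i, eval (0 : Fin 2 → K) (∑ j, aeval (sb Q u w) (pderiv j (pderiv i F)) *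
        ((C (u j) + C (w j) * X 1) * (C (u i) + C (w i) * X 1))) = hes F Q u u := by
      unfold hes
      refine Finset.sum_congr rfl fun i _ => ?_
      rw [map_sum]
      refine Finset.sum_congr rfl fun j _ => ?_
      rw [map_mul, ev0 0 rfl, commA j i]
      simp
      ring
    rw [h2, huu] at h1
    have h3 : eval (0 : Fin 2 → K) (2 : MvPolynomial (Fin 2) K) ≠ 0 := by
      rw [map_ofNat]
      exact two_ne_zero
    exact (mul_eq_zero.1 h1).resolve_left h3
  have he01 : eval 0 (pderiv 1 e) ≠ 0 := by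
    have h1 := congrArg (fun p => eval (0 : Fin 2 → K) (pderiv 1 p)) (hde.symm.trans hdd)
    have h4 : ∀ q : MvPolynomial (Fin 2) K, pderiv 1 (X 0 * q) = X 0 * pderiv 1 q := by
      intro q
      rw [pderiv_mul, pderiv_X_of_ne (by decide)]
      ring
    have h5 : pderiv 1 (2 * e) = 2 * pderiv 1 e := by
      have h9 : (2 : MvPolynomial (Fin 2) K) = C 2 := (map_ofNat C 2).symm
      rw [h9, pderiv_C_mul]
    simp only [map_add (pderiv (R := K) (1 : Fin 2)), h4, h5] at h1
    rw [hx, map_mul, map_sum, map_sum] at h1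
    have h2 : ∑ i, eval (0 : Fin 2 → K) (pderiv 1 (∑ j, aeval (sb Q u w) (pderiv j (pderiv i F)) *
        ((C (u j) + C (w j) * X 1) * (C (u i) + C (w i) * X 1)))) = hes F Q u w + hes F Q w u := by
      unfold hes
      rw [← Finset.sum_add_distrib]
      refine Finset.sum_congr rfl fun i _ => ?_
      rw [map_sum, map_sum, ← Finset.sum_add_distrib]
      refine Finset.sum_congr rfl fun j _ => ?_
      have h6 : ∀ a b : K, pderiv 1 (C a + C b * X 1 : MvPolynomial (Fin 2) K) = C b := by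
        intro a b
        rw [map_add, pderiv_C, pderiv_C_mul, pderiv_X_self]
        ring
      rw [pderiv_mul, pderiv_mul, h6, h6, map_add, map_mul, d1z, zero_mul, zero_add, map_mul, ev0 0 rfl, commA j i]
      simp
      ring
    rw [h2, hes_symA F Q w u, map_ofNat] at h1
    intro h7
    rw [h7, mul_zero, ← two_mul] at h1
    exact mul_ne_zero two_ne_zero huw h1.symm
  have hene : e ≠ 0 := by
    rintro rfl
    apply he01
    rw [map_zero, map_zero]
  -- the irreducible factor
  obtain ⟨φ, hφi, hφe, hφ0⟩ : ∃ φ : MvPolynomial (Fin 2) K, Irreducible φ ∧ φ ∣ e ∧ eval 0 φ = 0 := by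
    obtain ⟨s, hs, hse⟩ := UniqueFactorizationMonoid.exists_prime_factors e hene
    have h1 : eval (0 : Fin 2 → K) s.prod = 0 := by
      obtain ⟨v, hv⟩ := hse
      rw [← hv, map_mul] at he00
      refine (mul_eq_zero.1 he00).resolve_right ?_
      exact (v.isUnit.map (eval (0 : Fin 2 → K))).ne_zero
    rw [map_multiset_prod, Multiset.prod_eq_zero_iff, Multiset.mem_map] at h1
    obtain ⟨φ, hφs, hφ0⟩ := h1
    exact ⟨φ, (hs φ hφs).irreducible, (Multiset.dvd_prod hφs).trans hse.dvd, hφ0⟩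
  obtain ⟨η, hη⟩ := hφe
  have hφ1 : eval 0 (pderiv 1 φ) ≠ 0 := by
    intro h1
    apply he01
    rw [hη, pderiv_mul, map_add, map_mul, map_mul, h1, hφ0, zero_mul, zero_mul, add_zero]
  -- degrees
  have hφ4 : φ.degreeOf 0 ≤ 4 := by
    have hφne : φ ≠ 0 := hφi.ne_zero
    have hηne : η ≠ 0 := by
      rintro rfl
      exact hene (by rw [hη, mul_zero])
    have h1 : degreeOf 0 f ≤ 6 := (degA (sb Q u w) 0 (sb_deg Q u w) F).trans hF
    have hX : (X 0 : MvPolynomial (Fin 2) K) ≠ 0 := X_ne_zero 0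
    have hXd : degreeOf 0 (X 0 : MvPolynomial (Fin 2) K) = 1 := by
      rw [degreeOf_X]
      simp
    rw [he, deg_mulA hX (mul_ne_zero hX hene), deg_mulA hX hene, hXd, hη, deg_mulA hφne hηne] at h1
    omega
  -- zeros of `φ` are zeros of `f`, so of `g h`
  have hz : ∀ z : Fin 2 → K, eval z φ = 0 → eval z (aeval (sb Q u w) (g * h)) = 0 := by
    intro z hz
    have h1 : eval z f = 0 := by
      rw [he, hη, map_mul, map_mul, map_mul, hz]
      simp
    rw [hf, eval_sb] at h1
    rw [eval_sb, map_mul]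
    by_cases h2 : eval (fun i => Q i + z 0 * (u i + w i * z 1)) h = 0
    · rw [h2, mul_zero]
    · rw [hg _ h1 h2, zero_mul]
  -- it is enough to know the derivative of `g h`
  suffices hfin : ∑ i, eval Q (pderiv i (g * h)) * u i = 0 by
    have h1 : ∀ i : Fin n, eval Q (pderiv i (g * h)) * u i = eval Q h * (grd g Q i * u i) := by
      intro i
      rw [pderiv_mul, map_add, map_mul, map_mul, hgQ, zero_mul, add_zero, grd]
      ring
    rw [Finset.sum_congr rfl fun i _ => h1 i, ← Finset.mul_sum] at hfin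
    exact (mul_eq_zero.1 hfin).resolve_left hh
  by_cases hφd : φ.degreeOf 0 = 0
  · -- `φ (t, 0) = 0` for all `t`
    have h1 : ∀ t : K, eval (Fin.cons t 0 : Fin 2 → K) φ = 0 := by
      intro t
      rw [← natDegree_finSuccEquiv] at hφd
      obtain ⟨c, hc⟩ := Polynomial.natDegree_eq_zero.1 hφd
      have h2 : ∀ t : K, eval (Fin.cons t 0 : Fin 2 → K) φ = eval 0 c := by
        intro t
        rw [eval_eq_eval_mv_eval', ← hc, Polynomial.map_C, Polynomial.eval_C]
      have h3 : (Fin.cons 0 0 : Fin 2 → K) = 0 := by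
        ext i
        refine Fin.cases ?_ (fun j => ?_) i <;> simp
      rw [h2 t, ← h2 0, h3, hφ0]
    -- the line `Q + t u`
    have h4 : (aeval (sb Q u 0) (g * h) : MvPolynomial (Fin 2) K) = 0 := by
      refine MvPolynomial.funext fun z => ?_
      have h5 := hz (Fin.cons (z 0) 0) (h1 (z 0))
      rw [eval_sb] at h5
      rw [eval_sb, map_zero, ← h5]
      congr 1
      congr 1
      ext i
      have h6 : (Fin.cons (z 0) 0 : Fin 2 → K) 1 = 0 := rfl
      rw [h6]
      simp
    have h7 := congrArg (fun p => eval (0 : Fin 2 → K) (pderiv 0 p)) h4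
    simp only [map_zero] at h7
    rw [chainA, map_sum] at h7
    rw [← h7]
    refine Finset.sum_congr rfl fun i _ => ?_
    rw [RingHom.map_mul, eval_sb, sb_d0]
    simp
  · obtain ⟨κ, hκ⟩ := dens hK hφi hφd hφ4 hz
    have h1 := d1z (g * h)
    rw [hκ, pderiv_mul, map_add, map_mul, map_mul, hφ0, zero_mul, add_zero] at h1
    have h2 : eval 0 κ = 0 := (mul_eq_zero.1 h1).resolve_left hφ1
    have h3 : eval (0 : Fin 2 → K) (pderiv 0 (aeval (sb Q u w) (g * h))) = 0 := by
      rw [hκ, pderiv_mul, map_add, map_mul, map_mul, hφ0, h2, zero_mul, mul_zero, add_zero]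
    rw [d0, map_sum] at h3
    rw [← h3]
    refine Finset.sum_congr rfl fun i _ => ?_
    rw [RingHom.map_mul, ev0 0 rfl]
    simp

end Pool.Agent.H8.SD
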