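import Pool.Agent.H8.SD.Defs

/-!
# SD Par: parametrisation of the tangent hyperplane

`T = {v | grd F Q ⬝ᵥ v = 0}` has dimension `k + 1` (kernel of a nonzero linear form on `K^(k+2)`) and contains `Q`, because
`grd F Q ⬝ᵥ Q = d * eval Q F = 0` (Euler: `MvPolynomial.IsHomogeneous.sum_X_mul_pderiv` or similar).  Take a basis of `T` indexed by
`Fin (k + 1)` whose vector 0 is `Q ≠ 0`, as the columns of `M`; an injective linear map between finite dimensional spaces has a left
inverse `R`.
-/

set_option autoImplicit false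

open MvPolynomial Matrix

namespace Pool.Agent.H8.SD

/-- A nonzero vector is the first vector of a basis. -/
private theorem exists_basis_cons {K V : Type*} [Field K] [AddCommGroup V] [Module K V] [FiniteDimensional K V] {k : ℕ}
    (hV : Module.finrank K V = k + 1) {y : V} (hy : y ≠ 0) : ∃ b : Module.Basis (Fin (k + 1)) K V, b 0 = y := by
  obtain ⟨N, hN⟩ := Submodule.exists_isCompl (Submodule.span K {y})
  have hfN : Module.finrank K N = k := by
    have h1 := Submodule.finrank_add_eq_of_isCompl hN
    rw [finrank_span_singleton hy, hV] at h1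
    omega
  have hli : ∀ (c : K), ∀ x ∈ N, c • y + x = 0 → c = 0 := by
    intro c x hx hc
    have h1 : c • y ∈ N := by
      have : c • y = -x := eq_neg_of_add_eq_zero_left hc
      rw [this]
      exact N.neg_mem hx
    have h2 : c • y ∈ Submodule.span K {y} := Submodule.smul_mem _ _ (Submodule.mem_span_singleton_self y)
    have h3 : c • y = 0 := (Submodule.disjoint_def.1 hN.disjoint) _ h2 h1
    rcases smul_eq_zero.1 h3 with h | h
    · exact h
    · exact absurd h hy
  have hsp : ∀ z : V, ∃ c : K, z + c • y ∈ N := by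
    intro z
    have hz : z ∈ Submodule.span K {y} ⊔ N := by
      rw [hN.sup_eq_top]
      exact Submodule.mem_top
    obtain ⟨a, ha, n, hn, han⟩ := Submodule.mem_sup.1 hz
    obtain ⟨c, rfl⟩ := Submodule.mem_span_singleton.1 ha
    refine ⟨-c, ?_⟩
    rw [← han, neg_smul]
    have : c • y + n + -(c • y) = n := by abel
    rw [this]
    exact hn
  refine ⟨Module.Basis.mkFinCons y (Module.finBasisOfFinrankEq K N hfN) hli hsp, ?_⟩
  rw [Module.Basis.coe_mkFinCons]
  rfl

theorem grd_dot_self {K : Type} [Field K] {n d : ℕ} {F : MvPolynomial (Fin n) K} (hF : F.IsHomogeneous d) (Q : Fin n → K) :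
    grd F Q ⬝ᵥ Q = d * eval Q F := by
  have h := congrArg (eval Q) hF.sum_X_mul_pderiv
  simp only [map_sum, map_mul, eval_X, nsmul_eq_mul, map_natCast] at h
  rw [← h]
  simp only [grd, dotProduct]
  exact Finset.sum_congr rfl fun i _ => mul_comm _ _

theorem exists_par {K : Type} [Field K] {k d : ℕ} {F : MvPolynomial (Fin (k + 2)) K} (hF : F.IsHomogeneous d) {Q : Fin (k + 2) → K}
    (hQ : Q ≠ 0) (h0 : eval Q F = 0) (hg : grd F Q ≠ 0) : ∃ M : Matrix (Fin (k + 2)) (Fin (k + 1)) K, Par F Q M := by
  classical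
  obtain ⟨l, hlv⟩ : ∃ l : (Fin (k + 2) → K) →ₗ[K] K, ∀ v, l v = grd F Q ⬝ᵥ v :=
    ⟨{ toFun := fun v => grd F Q ⬝ᵥ v
       map_add' := fun v w => dotProduct_add _ _ _
       map_smul' := fun c v => by rw [dotProduct_smul]; rfl }, fun v => rfl⟩
  have hmem : ∀ v, v ∈ LinearMap.ker l ↔ grd F Q ⬝ᵥ v = 0 := fun v => by rw [LinearMap.mem_ker, hlv]
  have hlne : l ≠ 0 := by
    intro h
    apply hg
    ext i
    have h1 := LinearMap.congr_fun h (Pi.single i 1)
    rw [hlv, LinearMap.zero_apply, dotProduct_single_one] at h1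
    exact h1
  have hfT : Module.finrank K (LinearMap.ker l) = k + 1 := by
    have h1 := LinearMap.finrank_range_add_finrank_ker l
    have h2 : LinearMap.range l = ⊤ := LinearMap.range_eq_top.2 (LinearMap.surjective hlne)
    rw [h2, finrank_top, Module.finrank_self, Module.finrank_fin_fun] at h1
    omega
  have hQT : Q ∈ LinearMap.ker l := by rw [hmem, grd_dot_self hF, h0, mul_zero]
  have hyne : (⟨Q, hQT⟩ : LinearMap.ker l) ≠ 0 := by
    intro h
    exact hQ (congrArg Subtype.val h)
  obtain ⟨b, hb0⟩ := exists_basis_cons hfT hyne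
  set M : Matrix (Fin (k + 2)) (Fin (k + 1)) K := Matrix.of fun i j => (b j : Fin (k + 2) → K) i with hM
  have hMy : ∀ w, M *ᵥ w = ((b.equivFun.symm w : LinearMap.ker l) : Fin (k + 2) → K) := by
    intro w
    ext i
    rw [Module.Basis.equivFun_symm_apply]
    simp only [mulVec, dotProduct, hM, Matrix.of_apply, Submodule.coe_sum, Submodule.coe_smul, Finset.sum_apply, Pi.smul_apply,
      smul_eq_mul]
    exact Finset.sum_congr rfl fun j _ => mul_comm _ _
  refine ⟨M, ?_, ?_, ?_⟩
  · have hinj : LinearMap.ker (Matrix.toLin' M) = ⊥ := by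
      rw [LinearMap.ker_eq_bot]
      intro w w' hww
      rw [Matrix.toLin'_apply, Matrix.toLin'_apply, hMy, hMy] at hww
      exact b.equivFun.symm.injective (Subtype.ext hww)
    obtain ⟨g, hg'⟩ := LinearMap.exists_leftInverse_of_injective _ hinj
    refine ⟨LinearMap.toMatrix' g, ?_⟩
    have h1 := congrArg LinearMap.toMatrix' hg'
    rw [LinearMap.toMatrix'_comp, LinearMap.toMatrix'_toLin', LinearMap.toMatrix'_id] at h1
    exact h1
  · intro v
    rw [← hmem]
    constructor
    · intro hv
      refine ⟨b.equivFun ⟨v, hv⟩, ?_⟩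
      rw [hMy, LinearEquiv.symm_apply_apply]
    · rintro ⟨w, rfl⟩
      rw [hMy]
      exact Subtype.coe_prop _
  · intro i
    change (b 0 : Fin (k + 2) → K) i = Q i
    rw [hb0]

end Pool.Agent.H8.SD
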