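import Pool.Agent.H8.SD.Alg

/-!
# SD Pen: all tangent hyperplanes along `φ = 0` contain a fixed subspace of codimension two

`n a = π (pull M (pderiv a F))`, `n' a = dl π φ j (pull M (pderiv a F))`.  Hypothesis: `φ ∣ ∑ C (v i) * pull M (pderiv i F)` for all `v` with
`l₁ ⬝ᵥ v = l₂ ⬝ᵥ v = 0`; so `∑ v i n i = 0` and `∑ v i n' i = 0` (`dl_of_dvd`, `dl_C_mul`, `dl_sum`).  Take `w₁, w₂` with
`l_s ⬝ᵥ w_t = δ_st` (independence); for every `i` the vector `e_i - l₁ i • w₁ - l₂ i • w₂` is killed by `l₁, l₂`, so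
`n i = l₁ i * α + l₂ i * β` and `n' i = l₁ i * α' + l₂ i * β'` with `α = ∑ w₁ i n i`, ...
Euler: `∑ X i * pderiv i F = d • F`, pulled back: `∑ lin (M i) * pull M (pderiv i F) = d • pull M F`.  Apply `π`: `∑ x i n i = 0`,
`x i = π (lin (M i))`.  Apply `dl j`: `∑ dl j (lin (M i)) n i + ∑ x i n' i = d • dl j (pull M F) = 0`, and `∑ n i dl j (lin (M i)) =
dl j (pull M F) = 0` (`dl_pull`, `dl_of_dvd`).  So `∑ x i n' i = 0`.  With `X_s = ∑ l_s i x i = π (pull M (lin l_s))`: `α X₁ + β X₂ = 0`,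
`α' X₁ + β' X₂ = 0`.  If `(X₁, X₂) ≠ 0` then `α β' = α' β`, for every `j`, so
`n' a * n b - n a * n' b = (α' β - α β') (l₁ a l₂ b - l₂ a l₁ b) = 0` for all `a, b, j`, contradiction to `hg`.  So `X₁ = X₂ = 0`.
-/

set_option autoImplicit false

open MvPolynomial Matrix

namespace Pool.Agent.H8.SD

/-- A dual pair of vectors. -/
private theorem dual_pair {K : Type} [Field K] {n : ℕ} {l₁ l₂ : Fin n → K} (hl : LinearIndependent K ![l₁, l₂]) :
    ∃ w₁ w₂ : Fin n → K, l₁ ⬝ᵥ w₁ = 1 ∧ l₂ ⬝ᵥ w₁ = 0 ∧ l₁ ⬝ᵥ w₂ = 0 ∧ l₂ ⬝ᵥ w₂ = 1 := by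
  classical
  have key : ∀ s : Fin 2, ∃ w : Fin n → K, ∀ t : Fin 2, (![l₁, l₂] t) ⬝ᵥ w = if s = t then 1 else 0 := by
    intro s
    obtain ⟨g, hg⟩ := LinearMap.exists_extend ((Finsupp.lapply s : (Fin 2 →₀ K) →ₗ[K] K).comp hl.repr)
    refine ⟨fun i => g (Pi.single i 1), fun t => ?_⟩
    have h1 : g (![l₁, l₂] t) = if s = t then 1 else 0 := by
      have h2 := LinearMap.congr_fun hg ⟨![l₁, l₂] t, Submodule.subset_span (Set.mem_range_self t)⟩
      simp only [LinearMap.comp_apply, Submodule.subtype_apply] at h2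
      rw [h2]
      have h3 : hl.repr ⟨![l₁, l₂] t, Submodule.subset_span (Set.mem_range_self t)⟩ = Finsupp.single t 1 :=
        hl.repr_eq_single t _ rfl
      rw [h3, Finsupp.lapply_apply, Finsupp.single_apply]
      simp [eq_comm]
    rw [← h1]
    have h5 : (![l₁, l₂] t) = ∑ i, (![l₁, l₂] t) i • (Pi.single i (1 : K) : Fin n → K) := by
      funext k
      simp [Finset.sum_apply, Pi.single_apply]
    conv_rhs => rw [h5, map_sum]
    simp only [dotProduct, map_smul, smul_eq_mul]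
  obtain ⟨w₁, h1⟩ := key 0
  obtain ⟨w₂, h2⟩ := key 1
  exact ⟨w₁, w₂, by simpa using h1 0, by simpa using h1 1, by simpa using h2 0, by simpa using h2 1⟩

/-- A family killed by all relations is a combination of `l₁` and `l₂`. -/
private theorem comb {K E : Type} [Field K] [Field E] [Algebra K E] {n : ℕ} {l₁ l₂ w₁ w₂ : Fin n → K}
    (h11 : l₁ ⬝ᵥ w₁ = 1) (h21 : l₂ ⬝ᵥ w₁ = 0) (h12 : l₁ ⬝ᵥ w₂ = 0) (h22 : l₂ ⬝ᵥ w₂ = 1) (c : Fin n → E)
    (h : ∀ v : Fin n → K, l₁ ⬝ᵥ v = 0 → l₂ ⬝ᵥ v = 0 → ∑ i, algebraMap K E (v i) * c i = 0) :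
    ∃ α β : E, ∀ i, c i = algebraMap K E (l₁ i) * α + algebraMap K E (l₂ i) * β := by
  classical
  refine ⟨∑ k, algebraMap K E (w₁ k) * c k, ∑ k, algebraMap K E (w₂ k) * c k, fun i => ?_⟩
  have h1 := h (Pi.single i 1 - l₁ i • w₁ - l₂ i • w₂)
    (by rw [dotProduct_sub, dotProduct_sub, dotProduct_smul, dotProduct_smul, h11, h12]; simp)
    (by rw [dotProduct_sub, dotProduct_sub, dotProduct_smul, dotProduct_smul, h21, h22]; simp)
  simp only [Pi.sub_apply, Pi.smul_apply, smul_eq_mul, map_sub, map_mul, sub_mul, Finset.sum_sub_distrib] at h1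
  have h2 : ∑ x, algebraMap K E ((Pi.single i 1 : Fin n → K) x) * c x = c i := by
    rw [Finset.sum_eq_single i]
    · simp
    · intro b _ hb
      simp [Pi.single_apply, hb]
    · simp
  rw [h2] at h1
  rw [Finset.mul_sum, Finset.mul_sum]
  simp only [mul_assoc] at h1 ⊢
  linear_combination h1

theorem pencil {K : Type} [Field K] [CharZero K] {m d : ℕ}
    {F : MvPolynomial (Fin (m + 2)) K} (hF : F.IsHomogeneous d) {M : Matrix (Fin (m + 2)) (Fin (m + 1)) K}
    {φ : MvPolynomial (Fin (m + 1)) K}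
    (hdeg : φ.degreeOf 0 ≠ 0) (hdvd : φ ∣ pull M F)
    {E : Type} [Field E] [Algebra K E] (π : MvPolynomial (Fin (m + 1)) K →ₐ[K] E) (hπ : ∀ g, π g = 0 ↔ φ ∣ g)
    (hg : ∃ (a b : Fin (m + 2)) (j : Fin m), dl π φ j (pull M (pderiv a F)) * π (pull M (pderiv b F)) ≠
      π (pull M (pderiv a F)) * dl π φ j (pull M (pderiv b F)))
    {l₁ l₂ : Fin (m + 2) → K} (hl : LinearIndependent K ![l₁, l₂])
    (h : ∀ v : Fin (m + 2) → K, l₁ ⬝ᵥ v = 0 → l₂ ⬝ᵥ v = 0 → φ ∣ ∑ i, C (v i) * pull M (pderiv i F)) :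
    φ ∣ pull M (lin l₁) ∧ φ ∣ pull M (lin l₂) := by
  classical
  have hπφ : π φ = 0 := (hπ φ).2 dvd_rfl
  have h0 : π (pderiv 0 φ) ≠ 0 := pderiv_zero_ne hdeg π hπ
  have hC : ∀ c : K, π (C c) = algebraMap K E c := fun c => by rw [← algebraMap_eq, AlgHom.commutes]
  obtain ⟨w₁, w₂, h11, h21, h12, h22⟩ := dual_pair hl
  obtain ⟨α, β, hn⟩ := comb h11 h21 h12 h22 (fun i => π (pull M (pderiv i F))) (by
    intro v hv1 hv2
    have h1 := (hπ _).2 (h v hv1 hv2)
    rw [map_sum] at h1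
    simpa only [map_mul, hC] using h1)
  have hn' : ∀ j : Fin m, ∃ α' β' : E, ∀ i, dl π φ j (pull M (pderiv i F)) =
      algebraMap K E (l₁ i) * α' + algebraMap K E (l₂ i) * β' := by
    intro j
    refine comb h11 h21 h12 h22 (fun i => dl π φ j (pull M (pderiv i F))) ?_
    intro v hv1 hv2
    have h1 := dl_of_dvd hπφ h0 j (h v hv1 hv2)
    rw [dl_sum] at h1
    simpa only [dl_C_mul] using h1
  have hE : ∑ i, lin (M i) * pull M (pderiv i F) = d • pull M F := by
    have h1 := congrArg (pull M) hF.sum_X_mul_pderiv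
    rw [map_sum, map_nsmul] at h1
    rw [← h1]
    refine Finset.sum_congr rfl fun i _ => ?_
    rw [map_mul]
    simp [pull]
  have hdF : φ ∣ d • pull M F := by
    rw [nsmul_eq_mul]
    exact dvd_mul_of_dvd_right hdvd _
  have e1 : ∑ i, π (lin (M i)) * π (pull M (pderiv i F)) = 0 := by
    have h1 : π (∑ i, lin (M i) * pull M (pderiv i F)) = 0 := by
      rw [hE]
      exact (hπ _).2 hdF
    rw [map_sum] at h1
    simpa only [map_mul] using h1
  have e2 : ∀ j : Fin m, ∑ i, π (lin (M i)) * dl π φ j (pull M (pderiv i F)) = 0 := by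
    intro j
    have h1 : dl π φ j (∑ i, lin (M i) * pull M (pderiv i F)) = 0 := by
      rw [hE]
      exact dl_of_dvd hπφ h0 j hdF
    have h2 : ∑ i, π (pull M (pderiv i F)) * dl π φ j (lin (M i)) = 0 := by
      rw [← dl_pull]
      exact dl_of_dvd hπφ h0 j hdvd
    rw [dl_sum] at h1
    simp only [dl_mul, Finset.sum_add_distrib] at h1
    have h3 : ∑ i, dl π φ j (lin (M i)) * π (pull M (pderiv i F)) = 0 := by
      rw [← h2]
      exact Finset.sum_congr rfl fun i _ => mul_comm _ _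
    rw [h3, zero_add] at h1
    exact h1
  have hX : ∀ l : Fin (m + 2) → K, π (pull M (lin l)) = ∑ i, algebraMap K E (l i) * π (lin (M i)) := by
    intro l
    unfold lin
    rw [map_sum, map_sum]
    refine Finset.sum_congr rfl fun i _ => ?_
    rw [map_mul, map_mul]
    congr 1
    · have : pull M (C (l i)) = C (l i) := by simp [pull]
      rw [this, hC]
    · congr 1
      simp [pull, lin]
  have r1 : α * π (pull M (lin l₁)) + β * π (pull M (lin l₂)) = 0 := by
    rw [hX, hX, Finset.mul_sum, Finset.mul_sum, ← Finset.sum_add_distrib, ← e1]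
    refine Finset.sum_congr rfl fun i _ => ?_
    rw [hn i]
    ring
  by_cases hz : π (pull M (lin l₁)) = 0 ∧ π (pull M (lin l₂)) = 0
  · exact ⟨(hπ _).1 hz.1, (hπ _).1 hz.2⟩
  exfalso
  obtain ⟨a, b, j, hab⟩ := hg
  obtain ⟨α', β', hj⟩ := hn' j
  have r2 : α' * π (pull M (lin l₁)) + β' * π (pull M (lin l₂)) = 0 := by
    rw [hX, hX, Finset.mul_sum, Finset.mul_sum, ← Finset.sum_add_distrib, ← e2 j]
    refine Finset.sum_congr rfl fun i _ => ?_
    rw [hj i]
    ring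
  have hdet : α * β' - α' * β = 0 := by
    have k1 : (α * β' - α' * β) * π (pull M (lin l₁)) = 0 := by linear_combination β' * r1 - β * r2
    have k2 : (α * β' - α' * β) * π (pull M (lin l₂)) = 0 := by linear_combination α * r2 - α' * r1
    rcases mul_eq_zero.1 k1 with h1 | h1
    · exact h1
    · rcases mul_eq_zero.1 k2 with h2 | h2
      · exact h2
      · exact absurd ⟨h1, h2⟩ hz
  apply hab
  have na : π (pull M (pderiv a F)) = algebraMap K E (l₁ a) * α + algebraMap K E (l₂ a) * β := hn a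
  have nb : π (pull M (pderiv b F)) = algebraMap K E (l₁ b) * α + algebraMap K E (l₂ b) * β := hn b
  rw [na, nb, hj a, hj b]
  linear_combination (algebraMap K E (l₂ a) * algebraMap K E (l₁ b) - algebraMap K E (l₁ a) * algebraMap K E (l₂ b)) * hdet

end Pool.Agent.H8.SD
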