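import Pool.Agent.H8.SD.Alg
import Pool.Agent.H8.SD.Hess

/-!
# SD Sta: the star points are not dense on `φ = 0`

`n a = π (pull M (pderiv a F))`, `H a b = π (pull M (pderiv a (pderiv b F)))`, `x' i = dl π φ j (lin (M i))` (fix `j`).
`∑ n i x' i = dl j (pull M F) = 0` (`dl_pull`, `dl_of_dvd`), `dl j (pull M (pderiv b F)) = ∑ i, H i b x' i` (`dl_pull`), `H` symmetric
(`pderiv` commute: `MvPolynomial.pderiv_pderiv_comm` or induction).  Suppose `φ ∣ pull M (tst F a b c e)` for all `a b c e`:
`n a n c H b e - n a n e H b c - n b n c H a e + n b n e H a c = 0`, that is `n c W e = n e W c` with `W e = n a H b e - n b H a e`.  There is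
`e` with `n e ≠ 0` (otherwise `gauss` is contradicted: all terms contain a factor; or directly).  Multiply by `x' c` and sum over `c`:
`0 = (∑ n c x' c) W e = n e ∑ W c x' c`, so `∑ W c x' c = 0`, that is `n a dl j (pull M (pderiv b F)) = n b dl j (pull M (pderiv a F))` for
all `a, b, j`: contradiction to `gauss`.
-/

set_option autoImplicit false

open MvPolynomial Matrix

namespace Pool.Agent.H8.SD

private theorem pderiv_swap {K : Type} [Field K] {n : ℕ} (F : MvPolynomial (Fin n) K) (i k : Fin n) :
    pderiv i (pderiv k F) = pderiv k (pderiv i F) := by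
  induction F using MvPolynomial.induction_on with
  | C a => simp
  | add p q hp hq => simp only [map_add, hp, hq]
  | mul_X p l hp =>
    simp only [Derivation.leibniz, smul_eq_mul, map_add, hp, pderiv_X]
    have h : ∀ (u v : Fin n), pderiv u (Pi.single (M := fun _ => MvPolynomial (Fin n) K) v (1 : MvPolynomial (Fin n) K) l) = 0 := by
      intro u v
      by_cases h : l = v
      · subst h; simp
      · rw [Pi.single_eq_of_ne h]; simp
    rw [h, h]
    ring

theorem exists_tst {K : Type} [Field K] [CharZero K] {m : ℕ}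
    {F : MvPolynomial (Fin (m + 2)) K} {M : Matrix (Fin (m + 2)) (Fin (m + 1)) K}
    {φ : MvPolynomial (Fin (m + 1)) K}
    (hdeg : φ.degreeOf 0 ≠ 0) (hdvd : φ ∣ pull M F)
    {E : Type} [Field E] [Algebra K E] (π : MvPolynomial (Fin (m + 1)) K →ₐ[K] E) (hπ : ∀ g, π g = 0 ↔ φ ∣ g)
    (hg : ∃ (a b : Fin (m + 2)) (j : Fin m), dl π φ j (pull M (pderiv a F)) * π (pull M (pderiv b F)) ≠
      π (pull M (pderiv a F)) * dl π φ j (pull M (pderiv b F))) :
    ∃ a b c e, ¬ φ ∣ pull M (tst F a b c e) := by
  by_contra hcon
  have hall : ∀ a b c e, φ ∣ pull M (tst F a b c e) := by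
    intro a b c e
    by_contra h
    exact hcon ⟨a, b, c, e, h⟩
  obtain ⟨a, b, j, hne⟩ := hg
  apply hne
  have hpi0 : π (pderiv 0 φ) ≠ 0 := pderiv_zero_ne hdeg π hπ
  have hphi : π φ = 0 := (hπ φ).2 dvd_rfl
  have hsym : ∀ i k, pderiv i (pderiv k F) = pderiv k (pderiv i F) := fun i k =>
    pderiv_swap F i k
  have h1 : ∑ c, π (pull M (pderiv c F)) * dl π φ j (lin (M c)) = 0 := by
    rw [← dl_pull]
    exact dl_of_dvd hphi hpi0 j hdvd
  have h2 : ∀ a, dl π φ j (pull M (pderiv a F)) =
      ∑ c, π (pull M (pderiv a (pderiv c F))) * dl π φ j (lin (M c)) := by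
    intro a
    rw [dl_pull]
    refine Finset.sum_congr rfl fun c _ => ?_
    rw [hsym c a]
  have h3 : ∀ e, π (pull M (pderiv e F)) *
      (π (pull M (pderiv b F)) * dl π φ j (pull M (pderiv a F)) -
        π (pull M (pderiv a F)) * dl π φ j (pull M (pderiv b F))) = 0 := by
    intro e
    have key : ∀ c, (π (pull M (pderiv a F)) * π (pull M (pderiv c F)) * π (pull M (pderiv b (pderiv e F))) -
        π (pull M (pderiv a F)) * π (pull M (pderiv e F)) * π (pull M (pderiv b (pderiv c F))) -
        π (pull M (pderiv b F)) * π (pull M (pderiv c F)) * π (pull M (pderiv a (pderiv e F))) +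
        π (pull M (pderiv b F)) * π (pull M (pderiv e F)) * π (pull M (pderiv a (pderiv c F)))) *
          dl π φ j (lin (M c)) = 0 := by
      intro c
      have h4 := (hπ _).2 (hall a b c e)
      simp only [tst, map_add, map_sub, map_mul] at h4
      rw [h4, zero_mul]
    have hsum : ∑ c, (π (pull M (pderiv a F)) * π (pull M (pderiv c F)) * π (pull M (pderiv b (pderiv e F))) -
        π (pull M (pderiv a F)) * π (pull M (pderiv e F)) * π (pull M (pderiv b (pderiv c F))) -
        π (pull M (pderiv b F)) * π (pull M (pderiv c F)) * π (pull M (pderiv a (pderiv e F))) +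
        π (pull M (pderiv b F)) * π (pull M (pderiv e F)) * π (pull M (pderiv a (pderiv c F)))) *
          dl π φ j (lin (M c)) = 0 := Finset.sum_eq_zero fun c _ => key c
    have hexp : ∑ c, (π (pull M (pderiv a F)) * π (pull M (pderiv c F)) * π (pull M (pderiv b (pderiv e F))) -
        π (pull M (pderiv a F)) * π (pull M (pderiv e F)) * π (pull M (pderiv b (pderiv c F))) -
        π (pull M (pderiv b F)) * π (pull M (pderiv c F)) * π (pull M (pderiv a (pderiv e F))) +
        π (pull M (pderiv b F)) * π (pull M (pderiv e F)) * π (pull M (pderiv a (pderiv c F)))) *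
          dl π φ j (lin (M c)) =
        (π (pull M (pderiv a F)) * π (pull M (pderiv b (pderiv e F))) -
          π (pull M (pderiv b F)) * π (pull M (pderiv a (pderiv e F)))) *
            (∑ c, π (pull M (pderiv c F)) * dl π φ j (lin (M c))) -
        π (pull M (pderiv a F)) * π (pull M (pderiv e F)) *
            (∑ c, π (pull M (pderiv b (pderiv c F))) * dl π φ j (lin (M c))) +
        π (pull M (pderiv b F)) * π (pull M (pderiv e F)) *
            (∑ c, π (pull M (pderiv a (pderiv c F))) * dl π φ j (lin (M c))) := by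
      rw [Finset.mul_sum, Finset.mul_sum, Finset.mul_sum, ← Finset.sum_sub_distrib, ← Finset.sum_add_distrib]
      refine Finset.sum_congr rfl fun c _ => ?_
      ring
    rw [hexp, h1, ← h2 a, ← h2 b, mul_zero, zero_sub] at hsum
    linear_combination hsum
  by_cases ha : π (pull M (pderiv a F)) = 0
  · by_cases hb : π (pull M (pderiv b F)) = 0
    · rw [ha, hb, mul_zero, zero_mul]
    · have h5 := (mul_eq_zero.1 (h3 b)).resolve_left hb
      linear_combination h5
  · have h5 := (mul_eq_zero.1 (h3 a)).resolve_left ha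
    linear_combination h5

end Pool.Agent.H8.SD
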