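import Pool.Agent.H8.SD.Irr
import Pool.Agent.H8.SD.Par
import Pool.Agent.H8.SD.Deg
import Pool.Agent.H8.SD.Cls
import Pool.Agent.H8.SD.Gau
import Pool.Agent.H8.SD.GauN
import Pool.Agent.H8.SD.Pen
import Pool.Agent.H8.SD.Sta
import Pool.Agent.H8.SD.Hess
import Pool.Agent.H8.SD.Lin

/-!
# SD Main: the zeros are dense
-/

set_option autoImplicit false

open MvPolynomial Matrix

namespace Pool.Agent.H8.SD

/-- The Gauss map is not constant along `φ = 0`: the gradient of `F` is not proportional to a constant vector modulo `φ`. -/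
def NonConst {K : Type} [Field K] {n k : ℕ} (F : MvPolynomial (Fin n) K) (M : Matrix (Fin n) (Fin k) K)
    (φ : MvPolynomial (Fin k) K) : Prop :=
  ∀ c : Fin n → K, c ≠ 0 → ∃ a b, ¬ φ ∣ pull M (pderiv a F) * C (c b) - pull M (pderiv b F) * C (c a)

theorem grd_ne_of_smooth {K L : Type} [Field K] [Field L] [Algebra K L] {n : ℕ} {F : MvPolynomial (Fin n) K} (hs : Smooth L F)
    {Q : Fin n → K} (hQ : Q ≠ 0) : grd F Q ≠ 0 := by
  intro h0
  obtain ⟨i, hi⟩ := hs (fun k => algebraMap K L (Q k)) (by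
    intro h
    apply hQ
    funext k
    have := congrFun h k
    simpa using this)
  apply hi
  have h1 : eval Q (pderiv i F) = 0 := congrFun h0 i
  have h2 : aeval (fun k => algebraMap K L (Q k)) (pderiv i F) = algebraMap K L (eval Q (pderiv i F)) := by
    rw [aeval_def, eval₂_comp]
    rfl
  rw [h2, h1, map_zero]

theorem star_zero {K : Type} [Field K] {n : ℕ} (F : MvPolynomial (Fin n) K) : Star F 0 := by
  intro v _
  rw [zero_add]

/-- the polynomial which vanishes at the points of one class -/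
theorem exists_theta {K : Type} [Field K] [CharZero K] {m d : ℕ}
    {F : MvPolynomial (Fin (m + 2)) K} (hF : F.IsHomogeneous d) {P : Fin (m + 2) → K}
    {M : Matrix (Fin (m + 2)) (Fin (m + 1)) K} {φ : MvPolynomial (Fin (m + 1)) K} (hgood : Good F P M φ) (hN : NonConst F M φ)
    {E : Type} [Field E] [Algebra K E] (π : MvPolynomial (Fin (m + 1)) K →ₐ[K] E) (hπ : ∀ g, π g = 0 ↔ φ ∣ g)
    (hg : ∃ (a b : Fin (m + 2)) (j : Fin m), dl π φ j (pull M (pderiv a F)) * π (pull M (pderiv b F)) ≠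
      π (pull M (pderiv a F)) * dl π φ j (pull M (pderiv b F)))
    (p : Ideal (MvPolynomial (Fin (m + 2)) K)) :
    ∃ θ : MvPolynomial (Fin (m + 1)) K, ¬ φ ∣ θ ∧
      ∀ y, eval y φ = 0 → ∀ M' φ', Good F (M *ᵥ y) M' φ' → cls M' φ' = p → eval y θ = 0 := by
  classical
  have hone : ¬ φ ∣ 1 := fun h => hgood.irr.not_isUnit (isUnit_of_dvd_one h)
  by_cases hex : ∃ Q₀ M₀ φ₀, Good F Q₀ M₀ φ₀ ∧ cls M₀ φ₀ = p
  swap
  · refine ⟨1, hone, fun y _ M' φ' h1 h2 => ?_⟩
    exact absurd ⟨_, _, _, h1, h2⟩ hex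
  obtain ⟨Q₀, M₀, φ₀, hg₀, rfl⟩ := hex
  have hl0 := grd_ne_zero hg₀
  rcases lin_cases hg₀ with hc | ⟨l₂, hind, hmem, hc⟩
  · obtain ⟨a, b, hab⟩ := hN _ hl0
    refine ⟨_, hab, fun y hy M' φ' h1 h2 => ?_⟩
    obtain ⟨c, hc'⟩ := hc (grd F (M *ᵥ y)) (by rw [← h2]; exact lin_grd_mem h1)
    have ha : eval (M *ᵥ y) (pderiv a F) = c * grd F Q₀ a := by
      have := congrFun hc' a
      simpa [grd] using this
    have hb : eval (M *ᵥ y) (pderiv b F) = c * grd F Q₀ b := by
      have := congrFun hc' b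
      simpa [grd] using this
    rw [map_sub, map_mul, map_mul, eval_pull, eval_pull, eval_C, eval_C, ha, hb]
    ring
  · by_cases hv : ∃ v : Fin (m + 2) → K, grd F Q₀ ⬝ᵥ v = 0 ∧ l₂ ⬝ᵥ v = 0 ∧ ¬ φ ∣ ∑ i, C (v i) * pull M (pderiv i F)
    · obtain ⟨v, hv1, hv2, hv3⟩ := hv
      refine ⟨_, hv3, fun y hy M' φ' h1 h2 => ?_⟩
      obtain ⟨a, b, hc'⟩ := hc (grd F (M *ᵥ y)) (by rw [← h2]; exact lin_grd_mem h1)
      have h3 : eval y (∑ i, C (v i) * pull M (pderiv i F)) = grd F (M *ᵥ y) ⬝ᵥ v := by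
        rw [map_sum, dotProduct]
        refine Finset.sum_congr rfl fun i _ => ?_
        rw [map_mul, eval_C, eval_pull, mul_comm]
        rfl
      rw [h3, hc', add_dotProduct, smul_dotProduct, smul_dotProduct, hv1, hv2, smul_zero, smul_zero, add_zero]
    · push Not at hv
      obtain ⟨d1, d2⟩ := pencil hF hgood.deg hgood.dvd π hπ hg hind hv
      refine ⟨1, hone, fun y hy M' φ' h1 h2 => ?_⟩
      exfalso
      have key : ∀ l : Fin (m + 2) → K, φ ∣ pull M (lin l) → l ⬝ᵥ (M *ᵥ y) = 0 := by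
        intro l hl
        obtain ⟨g, hg⟩ := hl
        have h3 : eval y (pull M (lin l)) = l ⬝ᵥ (M *ᵥ y) := by
          rw [eval_pull, eval_lin]
        rw [← h3, hg, map_mul, hy, zero_mul]
      refine not_both h1 hind ?_ ?_ (key _ d1) (key _ d2)
      · rw [h2]
        exact lin_grd_mem hg₀
      · rw [h2]
        exact hmem

/-- The general theorem: `F` irreducible, `φ` a component of the tangent section at `P` which is not a cone with vertex `P` and along which
the Gauss map is not constant. -/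
theorem main_gen {K : Type} [Field K] [CharZero K] (hK : Sol K) {m d : ℕ}
    (hd : 3 ≤ d) (hd6 : d ≤ 6) {F : MvPolynomial (Fin (m + 2)) K} (hF : F.IsHomogeneous d) (hFirr : Irreducible F)
    {P : Fin (m + 2) → K} {M : Matrix (Fin (m + 2)) (Fin (m + 1)) K} {φ : MvPolynomial (Fin (m + 1)) K} (hgood : Good F P M φ)
    (hN : NonConst F M φ) {G : MvPolynomial (Fin (m + 2)) K} (hG : ∀ x, eval x F = 0 → eval x G = 0) :
    F ∣ G := by
  classical
  by_contra hFG
  have hprime : Prime φ := hgood.irr.prime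
  have hpr : (Ideal.span {φ} : Ideal (MvPolynomial (Fin (m + 1)) K)).IsPrime :=
    (Ideal.span_singleton_prime hprime.ne_zero).2 hprime
  let A := MvPolynomial (Fin (m + 1)) K ⧸ (Ideal.span {φ} : Ideal (MvPolynomial (Fin (m + 1)) K))
  let E := FractionRing A
  let π : MvPolynomial (Fin (m + 1)) K →ₐ[K] E := (IsScalarTower.toAlgHom K A E).comp (Ideal.Quotient.mkₐ K _)
  have hπ : ∀ g, π g = 0 ↔ φ ∣ g := by
    intro g
    have h1 : π g = algebraMap A E (Ideal.Quotient.mk _ g) := rfl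
    rw [h1, FaithfulSMul.algebraMap_eq_zero_iff, Ideal.Quotient.eq_zero_iff_mem, Ideal.mem_span_singleton]
  have hgs := gaussN hK hgood.irr hgood.deg hgood.deg4 hN π hπ
  obtain ⟨a, b, c, e, htst⟩ := exists_tst hgood.deg hgood.dvd π hπ hgs
  obtain ⟨a₀, ha₀⟩ : ∃ a₀, ¬ φ ∣ pull M (pderiv a₀ F) := by
    by_contra h0
    push Not at h0
    obtain ⟨a, b, hab⟩ := hN (fun _ => 1) (by
      intro h
      exact one_ne_zero (congrFun h 0))
    exact hab ((Dvd.dvd.mul_right (h0 a) _).sub (Dvd.dvd.mul_right (h0 b) _))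
  have hT : ((Ideal.span {F, G} : Ideal (MvPolynomial (Fin (m + 2)) K)).minimalPrimes).Finite :=
    Ideal.finite_minimalPrimes_of_isNoetherianRing _ _
  have hθ := exists_theta hF hgood hN π hπ hgs
  choose θ hθ1 hθ2 using hθ
  have hprod : φ ∣ pull M (tst F a b c e) * pull M (pderiv a₀ F) * ∏ p ∈ hT.toFinset, θ p := by
    apply dens hK hgood.irr hgood.deg hgood.deg4
    intro y hy
    rw [map_mul, map_mul, map_prod, eval_pull, eval_pull]
    have hz : eval (M *ᵥ y) F = 0 := by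
      rw [← eval_pull]
      obtain ⟨g, hg⟩ := hgood.dvd
      rw [hg, map_mul, hy, zero_mul]
    by_cases hst : Star F (M *ᵥ y)
    · rw [tst_star hd hF hst, zero_mul, zero_mul]
    by_cases hgr : grd F (M *ᵥ y) = 0
    · have h1 : eval (M *ᵥ y) (pderiv a₀ F) = 0 := congrFun hgr a₀
      rw [h1, mul_zero, zero_mul]
    · have hy0 : M *ᵥ y ≠ 0 := by
        intro h
        rw [h] at hst
        exact hst (star_zero F)
      obtain ⟨M', hM'⟩ := exists_par hF hy0 hz hgr
      obtain ⟨φ', hgood'⟩ := good_of_not_star hd hd6 hF hz hM' hst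
      have hmem := cls_mem_minimalPrimes hK hFirr hG hFG hgood'
      rw [Finset.prod_eq_zero ((hT.mem_toFinset).2 hmem) (hθ2 _ y hy _ _ hgood' rfl), mul_zero]
  rcases hprime.dvd_or_dvd hprod with h | h
  · rcases hprime.dvd_or_dvd h with h | h
    · exact htst h
    · exact ha₀ h
  · obtain ⟨p, _, hp⟩ := (Prime.dvd_finsetProd_iff hprime _).1 h
    exact hθ1 p hp

/-- Smooth hypersurfaces of dimension at least two. -/
theorem main_smooth {K L : Type} [Field K] [CharZero K] [Field L] [IsAlgClosed L] [Algebra K L] (hK : Sol K) {m d : ℕ} (hm : 2 ≤ m)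
    (hd : 3 ≤ d) (hd6 : d ≤ 6) {F : MvPolynomial (Fin (m + 2)) K} (hF : F.IsHomogeneous d) (hs : Smooth L F) {P : Fin (m + 2) → K} (hP0 : P ≠ 0)
    (hP : eval P F = 0) (hstar : ¬ Star F P) {G : MvPolynomial (Fin (m + 2)) K} (hG : ∀ x, eval x F = 0 → eval x G = 0) :
    F ∣ G := by
  have hFirr : Irreducible F := irreducible_of_smooth (L := L) (by omega) hF hs
  obtain ⟨M, hM⟩ := exists_par hF hP0 hP (grd_ne_of_smooth hs hP0)
  obtain ⟨φ, hgood⟩ := good_of_not_star hd hd6 hF hP hM hstar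
  exact main_gen hK hd hd6 hF hFirr hgood
    (fun c hc => not_const (L := L) hm (by omega) hF hs hM.inv hgood.orig hc) hG

end Pool.Agent.H8.SD
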