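import Pool.Agent.H8.SD.Defs

/-!
# SD SpanA: isotropic vectors which are not in the radical span, if the rank is at least two

`V` a vector space over `K`, square roots exist in `K` (`Sol`), `B` a symmetric bilinear form, `L` linear with `L u = 0` whenever
`B u u = 0` and `B u w ≠ 0` for some `w`.  Let some 2x2 minor of `B` be not zero.  Then `L = 0`.
Proof.  (1) `B u u ≠ 0`: there is `w` with `B u w = 0`, `B w w ≠ 0`: otherwise (polarisation) `B` is zero on the orthogonal complement of
`u`, `B x y = B u x * B u y / B u u` for all `x, y` (write `x = (B u x / B u u) u + x'`), and all minors are zero.  Scale `w` such that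
`B w w = - B u u`; `u + w`, `u - w` are isotropic and `B (u ± w) u = B u u ≠ 0`, so `L (u + w) = L (u - w) = 0`, `2 L u = 0`.
(2) `B u u = 0`: if `B u w ≠ 0` for some `w`, then `L u = 0` by hypothesis.  Otherwise take `a` with `B a a ≠ 0` (exists, else `B = 0` by
polarisation): `B (u + a) (u + a) = B a a ≠ 0`, so `L (u + a) = L a = 0`.
-/

set_option autoImplicit false

namespace Pool.Agent.H8.SD

private theorem sa_sqrt {K : Type} [Field K] (hK : Sol K) (c : K) : ∃ s : K, s * s = c := by
  have hd : (Polynomial.X ^ 2 - Polynomial.C c : Polynomial K).natDegree = 2 :=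
    Polynomial.natDegree_X_pow_sub_C
  obtain ⟨s, hs⟩ := hK (Polynomial.X ^ 2 - Polynomial.C c) (by rw [hd]; norm_num) (by rw [hd]; norm_num)
  refine ⟨s, ?_⟩
  have h := hs
  simp only [Polynomial.eval_sub, Polynomial.eval_pow, Polynomial.eval_X,
    Polynomial.eval_C, sub_eq_zero] at h
  rw [← h, sq]

/-- polarisation. -/
private theorem sa_pol {K V : Type} [Field K] [CharZero K] [AddCommGroup V] [Module K V]
    (B : V →ₗ[K] V →ₗ[K] K) (hB : ∀ u v, B u v = B v u) (P : V → Prop)
    (hP : ∀ x y, P x → P y → P (x + y)) (h0 : ∀ x, P x → B x x = 0) (x y : V) (hx : P x)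
    (hy : P y) : B x y = 0 := by
  have h := h0 _ (hP x y hx hy)
  simp only [map_add, LinearMap.add_apply] at h
  rw [h0 x hx, h0 y hy, hB y x, zero_add, add_zero] at h
  have h2 : (2 : K) * B x y = 0 := by rw [two_mul]; exact h
  rcases mul_eq_zero.1 h2 with h3 | h3
  · exact absurd h3 two_ne_zero
  · exact h3

private theorem sa_one {K V : Type} [Field K] [CharZero K] (hK : Sol K) [AddCommGroup V] [Module K V]
    (B : V →ₗ[K] V →ₗ[K] K) (hB : ∀ u v, B u v = B v u) (L : V →ₗ[K] K)
    (hL : ∀ u w, B u u = 0 → B u w ≠ 0 → L u = 0) {a a' b b' : V}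
    (hr : B a a' * B b b' - B a b' * B b a' ≠ 0) (u : V) (hu : B u u ≠ 0) : L u = 0 := by
  have hw : ∃ w, B u w = 0 ∧ B w w ≠ 0 := by
    by_contra hcon
    push Not at hcon
    have hz : ∀ x y, B u x = 0 → B u y = 0 → B x y = 0 := by
      intro x y hx hy
      refine sa_pol B hB (fun x => B u x = 0) ?_ hcon x y hx hy
      intro x y hx hy
      show B u (x + y) = 0
      rw [map_add, hx, hy, add_zero]
    have hform : ∀ x y, B x y = B u x * B u y / B u u := by
      intro x y
      have hx : B u (x - (B u x / B u u) • u) = 0 := by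
        rw [map_sub, map_smul, smul_eq_mul, div_mul_cancel₀ _ hu, sub_self]
      have hy : B u (y - (B u y / B u u) • u) = 0 := by
        rw [map_sub, map_smul, smul_eq_mul, div_mul_cancel₀ _ hu, sub_self]
      have h := hz _ _ hx hy
      simp only [map_sub, map_smul, LinearMap.sub_apply, LinearMap.smul_apply, smul_eq_mul] at h
      rw [hB x u] at h
      field_simp at h ⊢
      linear_combination h
    apply hr
    rw [hform a a', hform b b', hform a b', hform b a']
    ring
  obtain ⟨w, hw1, hw2⟩ := hw
  obtain ⟨s, hs⟩ := sa_sqrt hK (-(B u u) / B w w)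
  have hsw : B (s • w) (s • w) = -(B u u) := by
    simp only [map_smul, LinearMap.smul_apply, smul_eq_mul]
    rw [← mul_assoc, hs, div_mul_cancel₀ _ hw2]
  have huw : B u (s • w) = 0 := by rw [map_smul, hw1, smul_zero]
  have hwu : B (s • w) u = 0 := by rw [hB, huw]
  have e1 : L (u + s • w) = 0 := by
    apply hL _ u
    · simp only [map_add, LinearMap.add_apply] at *
      rw [huw, hwu, hsw]
      ring
    · simp only [map_add, LinearMap.add_apply]
      rw [hwu, add_zero]
      exact hu
  have e2 : L (u - s • w) = 0 := by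
    apply hL _ u
    · simp only [map_sub, LinearMap.sub_apply] at *
      rw [huw, hwu, hsw]
      ring
    · simp only [map_sub, LinearMap.sub_apply]
      rw [hwu, sub_zero]
      exact hu
  rw [map_add] at e1
  rw [map_sub] at e2
  have h2 : (2 : K) * L u = 0 := by linear_combination e1 + e2
  rcases mul_eq_zero.1 h2 with h3 | h3
  · exact absurd h3 two_ne_zero
  · exact h3

theorem span_iso {K V : Type} [Field K] [CharZero K] (hK : Sol K) [AddCommGroup V] [Module K V] (B : V →ₗ[K] V →ₗ[K] K)
    (hB : ∀ u v, B u v = B v u) (L : V →ₗ[K] K) (hL : ∀ u w, B u u = 0 → B u w ≠ 0 → L u = 0) {a a' b b' : V}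
    (hr : B a a' * B b b' - B a b' * B b a' ≠ 0) (u : V) : L u = 0 := by
  by_cases hu : B u u = 0
  · by_cases hw : ∃ w, B u w ≠ 0
    · obtain ⟨w, hw⟩ := hw
      exact hL u w hu hw
    · push Not at hw
      have hc : ∃ c, B c c ≠ 0 := by
        by_contra hcon
        push Not at hcon
        have hz : ∀ x y, B x y = 0 := fun x y =>
          sa_pol B hB (fun _ => True) (fun _ _ _ _ => trivial) (fun x _ => hcon x) x y trivial trivial
        apply hr
        simp [hz]
      obtain ⟨c, hc⟩ := hc
      have h1 : B (u + c) (u + c) ≠ 0 := by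
        simp only [map_add, LinearMap.add_apply]
        rw [hu, hw c, hB c u, hw c, zero_add, zero_add, zero_add]
        exact hc
      have e1 := sa_one hK B hB L hL hr _ h1
      have e2 := sa_one hK B hB L hL hr _ hc
      rw [map_add, e2, add_zero] at e1
      exact e1
  · exact sa_one hK B hB L hL hr u hu

end Pool.Agent.H8.SD
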