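import Pool.Agent.H8.SD.Elim
import Pool.Agent.H8.SD.LocA
import Pool.Agent.H8.SD.SpanA

/-!
# SD MainA: points where the second fundamental form has rank at least two
-/

set_option autoImplicit false

open MvPolynomial Matrix

namespace Pool.Agent.H8.SD

variable {K : Type} [Field K] {n : ℕ}

theorem pderiv_comm (F : MvPolynomial (Fin n) K) (i j : Fin n) : pderiv i (pderiv j F) = pderiv j (pderiv i F) := by
  induction F using MvPolynomial.induction_on with
  | C a => simp
  | add p q hp hq => simp only [map_add, hp, hq]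
  | mul_X p l hp =>
    simp only [Derivation.leibniz, smul_eq_mul, map_add, hp, pderiv_X]
    have h : ∀ (u v : Fin n), pderiv u (Pi.single (M := fun _ => MvPolynomial (Fin n) K) v (1 : MvPolynomial (Fin n) K) l) = 0 := by
      intro u v
      by_cases h : l = v
      · subst h; simp
      · rw [Pi.single_eq_of_ne h]; simp
    rw [h, h]
    ring

theorem hes_symm (F : MvPolynomial (Fin n) K) (Q u v : Fin n → K) : hes F Q u v = hes F Q v u := by
  unfold hes
  rw [Finset.sum_comm]
  refine Finset.sum_congr rfl fun j _ => Finset.sum_congr rfl fun i _ => ?_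
  rw [pderiv_comm F i j]
  ring

theorem hes_add_left (F : MvPolynomial (Fin n) K) (Q u u' v : Fin n → K) :
    hes F Q (u + u') v = hes F Q u v + hes F Q u' v := by
  unfold hes
  rw [← Finset.sum_add_distrib]
  refine Finset.sum_congr rfl fun i _ => ?_
  rw [← Finset.sum_add_distrib]
  refine Finset.sum_congr rfl fun j _ => ?_
  rw [Pi.add_apply]
  ring

theorem hes_smul_left (F : MvPolynomial (Fin n) K) (Q u v : Fin n → K) (s : K) :
    hes F Q (s • u) v = s * hes F Q u v := by
  unfold hes
  rw [Finset.mul_sum]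
  refine Finset.sum_congr rfl fun i _ => ?_
  rw [Finset.mul_sum]
  refine Finset.sum_congr rfl fun j _ => ?_
  rw [Pi.smul_apply, smul_eq_mul]
  ring

theorem hes_add_right (F : MvPolynomial (Fin n) K) (Q u v v' : Fin n → K) :
    hes F Q u (v + v') = hes F Q u v + hes F Q u v' := by
  rw [hes_symm, hes_add_left, hes_symm F Q v u, hes_symm F Q v' u]

theorem hes_smul_right (F : MvPolynomial (Fin n) K) (Q u v : Fin n → K) (s : K) :
    hes F Q u (s • v) = s * hes F Q u v := by
  rw [hes_symm, hes_smul_left, hes_symm F Q v u]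

/-- the Hessian form as a bilinear form on a subspace -/
noncomputable def hesB (F : MvPolynomial (Fin n) K) (Q : Fin n → K) (T : Submodule K (Fin n → K)) : T →ₗ[K] T →ₗ[K] K :=
  LinearMap.mk₂ K (fun u v => hes F Q u.1 v.1) (fun u u' v => hes_add_left F Q u.1 u'.1 v.1)
    (fun s u v => hes_smul_left F Q u.1 v.1 s) (fun u v v' => hes_add_right F Q u.1 v.1 v'.1)
    (fun s u v => hes_smul_right F Q u.1 v.1 s)

/-- the linear form `u ↦ l ⬝ᵥ u` -/
noncomputable def dot (l : Fin n → K) : (Fin n → K) →ₗ[K] K where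
  toFun u := l ⬝ᵥ u
  map_add' u v := dotProduct_add _ _ _
  map_smul' s u := dotProduct_smul _ _ _

/-- the tangent vectors `F_c e_a - F_a e_c` -/
noncomputable def tv (F : MvPolynomial (Fin n) K) (c a : Fin n) (Q : Fin n → K) : Fin n → K :=
  eval Q (pderiv c F) • Pi.single a 1 - eval Q (pderiv a F) • Pi.single c 1

theorem dot_tv (F : MvPolynomial (Fin n) K) (c a : Fin n) (Q : Fin n → K) : grd F Q ⬝ᵥ tv F c a Q = 0 := by
  unfold tv
  rw [dotProduct_sub, dotProduct_smul, dotProduct_smul, dotProduct_single_one, dotProduct_single_one]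
  unfold grd
  rw [smul_eq_mul, smul_eq_mul]
  ring

theorem hes_single (F : MvPolynomial (Fin n) K) (Q : Fin n → K) (a b : Fin n) :
    hes F Q (Pi.single a 1) (Pi.single b 1) = eval Q (pderiv a (pderiv b F)) := by
  unfold hes
  rw [Finset.sum_eq_single a]
  · rw [Finset.sum_eq_single b]
    · simp
    · intro j _ hj
      rw [Pi.single_eq_of_ne hj]
      ring
    · simp
  · intro i _ hi
    refine Finset.sum_eq_zero fun j _ => ?_
    rw [Pi.single_eq_of_ne hi]
    ring
  · simp

/-- the Hessian form on the vectors `tv` -/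
noncomputable def bf (F : MvPolynomial (Fin n) K) (c a b : Fin n) : MvPolynomial (Fin n) K :=
  pderiv c F * pderiv c F * pderiv a (pderiv b F) - pderiv c F * pderiv b F * pderiv a (pderiv c F)
    - pderiv a F * pderiv c F * pderiv c (pderiv b F) + pderiv a F * pderiv b F * pderiv c (pderiv c F)

theorem eval_bf (F : MvPolynomial (Fin n) K) (c a b : Fin n) (Q : Fin n → K) :
    eval Q (bf F c a b) = hes F Q (tv F c a Q) (tv F c b Q) := by
  have hsub : ∀ u u' v : Fin n → K, hes F Q (u - u') v = hes F Q u v - hes F Q u' v := by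
    intro u u' v
    rw [sub_eq_add_neg, hes_add_left, ← neg_one_smul K u', hes_smul_left]
    ring
  have hsub' : ∀ u v v' : Fin n → K, hes F Q u (v - v') = hes F Q u v - hes F Q u v' := by
    intro u v v'
    rw [hes_symm, hsub, hes_symm F Q v u, hes_symm F Q v' u]
  unfold bf tv
  rw [hsub, hsub', hsub']
  simp only [hes_smul_left, hes_smul_right, hes_single, map_add, map_sub, map_mul]
  ring

/-- a nonzero minor on the tangent space gives a nonzero minor on the vectors `tv` -/
theorem exists_minor {F : MvPolynomial (Fin n) K} {P : Fin n → K} {c : Fin n} (hc : eval P (pderiv c F) ≠ 0)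
    (hr : ∃ a a' b b', grd F P ⬝ᵥ a = 0 ∧ grd F P ⬝ᵥ a' = 0 ∧ grd F P ⬝ᵥ b = 0 ∧ grd F P ⬝ᵥ b' = 0 ∧
      hes F P a a' * hes F P b b' - hes F P a b' * hes F P b a' ≠ 0) :
    ∃ i i' j j', eval P (bf F c i i') * eval P (bf F c j j') - eval P (bf F c i j') * eval P (bf F c j i') ≠ 0 := by
  by_contra hcon
  push Not at hcon
  obtain ⟨a, a', b, b', ha, ha', hb, hb', hne⟩ := hr
  apply hne
  have hexp : ∀ u : Fin n → K, grd F P ⬝ᵥ u = 0 → eval P (pderiv c F) • u = ∑ i, u i • tv F c i P := by
    intro u hu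
    have h1 : ∑ i, u i • tv F c i P = eval P (pderiv c F) • (∑ i, u i • (Pi.single i 1 : Fin n → K)) -
        (grd F P ⬝ᵥ u) • (Pi.single c 1 : Fin n → K) := by
      unfold tv
      simp only [smul_sub, Finset.sum_sub_distrib]
      congr 1
      · rw [Finset.smul_sum]
        refine Finset.sum_congr rfl fun i _ => ?_
        rw [smul_comm]
      · rw [dotProduct, Finset.sum_smul]
        refine Finset.sum_congr rfl fun i _ => ?_
        rw [smul_smul]
        congr 1
        unfold grd
        ring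
    rw [h1, hu, zero_smul, sub_zero]
    congr 1
    funext k
    rw [Finset.sum_apply, Finset.sum_eq_single k]
    · simp
    · intro i _ hi
      rw [Pi.smul_apply, Pi.single_eq_of_ne hi.symm, smul_zero]
    · simp
  have hsl : ∀ (x : Fin n → K) (w : Fin n → Fin n → K) (v : Fin n → K),
      hes F P (∑ i, x i • w i) v = ∑ i, x i * hes F P (w i) v := by
    intro x w v
    have h2 : ∀ s : Finset (Fin n), hes F P (∑ i ∈ s, x i • w i) v = ∑ i ∈ s, x i * hes F P (w i) v := by
      intro s
      induction s using Finset.induction_on with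
      | empty => simp [hes]
      | insert i s hi ih => rw [Finset.sum_insert hi, Finset.sum_insert hi, hes_add_left, hes_smul_left, ih]
    exact h2 _
  have hbil : ∀ u v : Fin n → K, grd F P ⬝ᵥ u = 0 → grd F P ⬝ᵥ v = 0 →
      eval P (pderiv c F) * (eval P (pderiv c F) * hes F P u v) = ∑ i, ∑ j, u i * v j * eval P (bf F c i j) := by
    intro u v hu hv
    rw [← hes_smul_right, ← hes_smul_left, hexp u hu, hexp v hv, hsl]
    refine Finset.sum_congr rfl fun i _ => ?_
    rw [hes_symm, hsl, Finset.mul_sum]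
    refine Finset.sum_congr rfl fun j _ => ?_
    rw [hes_symm, eval_bf]
    ring
  have hprod : ∀ x x' z z' : Fin n → K,
      (∑ i, ∑ j, x i * x' j * eval P (bf F c i j)) * (∑ i, ∑ j, z i * z' j * eval P (bf F c i j)) =
      (∑ i, ∑ j, x i * z' j * eval P (bf F c i j)) * (∑ i, ∑ j, z i * x' j * eval P (bf F c i j)) := by
    intro x x' z z'
    have h3 : ∀ i j k l : Fin n, x i * x' j * eval P (bf F c i j) * (z k * z' l * eval P (bf F c k l)) =
        x i * z' l * eval P (bf F c i l) * (z k * x' j * eval P (bf F c k j)) := by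
      intro i j k l
      have h4 := hcon i j k l
      linear_combination x i * x' j * z k * z' l * h4
    have hex : ∀ (f g : Fin n → Fin n → K), (∑ i, ∑ j, f i j) * (∑ k, ∑ l, g k l) = ∑ i, ∑ k, ∑ j, ∑ l, f i j * g k l := by
      intro f g
      rw [Finset.sum_mul_sum]
      exact Finset.sum_congr rfl fun i _ => Finset.sum_congr rfl fun k _ => Finset.sum_mul_sum _ _ _ _
    rw [hex, hex]
    refine Finset.sum_congr rfl fun i _ => Finset.sum_congr rfl fun k _ => ?_
    rw [Finset.sum_comm]
    exact Finset.sum_congr rfl fun l _ => Finset.sum_congr rfl fun j _ => h3 i j k l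
  have hF2 : eval P (pderiv c F) * eval P (pderiv c F) ≠ 0 := mul_ne_zero hc hc
  have e1 := hbil a a' ha ha'
  have e2 := hbil b b' hb hb'
  have e3 := hbil a b' ha hb'
  have e4 := hbil b a' hb ha'
  have e5 := hprod a a' b b'
  rw [← e1, ← e2, ← e3, ← e4] at e5
  have e6 : (eval P (pderiv c F) * eval P (pderiv c F)) * (eval P (pderiv c F) * eval P (pderiv c F)) *
      (hes F P a a' * hes F P b b' - hes F P a b' * hes F P b a') = 0 := by
    linear_combination e5
  exact (mul_eq_zero.1 e6).resolve_left (mul_ne_zero hF2 hF2)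

theorem main_rank {K : Type} [Field K] [CharZero K] (hK : Sol K) {n : ℕ} {F : MvPolynomial (Fin (n + 1)) K} (hF : F.totalDegree ≤ 6)
    (hirr : Irreducible F) {P : Fin (n + 1) → K} (hP : eval P F = 0) (hgr : grd F P ≠ 0)
    (hr : ∃ a a' b b', grd F P ⬝ᵥ a = 0 ∧ grd F P ⬝ᵥ a' = 0 ∧ grd F P ⬝ᵥ b = 0 ∧ grd F P ⬝ᵥ b' = 0 ∧
      hes F P a a' * hes F P b b' - hes F P a b' * hes F P b a' ≠ 0)
    {G : MvPolynomial (Fin (n + 1)) K} (hG : ∀ x, eval x F = 0 → eval x G = 0) : F ∣ G := by
  obtain ⟨c, hc⟩ := Function.ne_iff.1 hgr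
  obtain ⟨i, i', j, j', hm⟩ := exists_minor (c := c) hc hr
  set h : MvPolynomial (Fin (n + 1)) K := pderiv c F * (bf F c i i' * bf F c j j' - bf F c i j' * bf F c j i') with hh
  have hhe : ∀ Q, eval Q h = eval Q (pderiv c F) *
      (eval Q (bf F c i i') * eval Q (bf F c j j') - eval Q (bf F c i j') * eval Q (bf F c j i')) := by
    intro Q
    rw [hh]
    simp only [map_mul, map_sub]
  refine dvd_of_tangent hirr (U := {Q | eval Q F = 0 ∧ eval Q h ≠ 0}) (fun Q hQ => hQ.1) (P := P)
    ⟨hP, by rw [hhe]; exact mul_ne_zero hc hm⟩ c (fun Q hQ => ?_) (fun g hg Q hQ u hu => ?_) (fun Q hQ => hG Q hQ.1)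
  · have h1 := hQ.2
    rw [hhe] at h1
    exact left_ne_zero_of_mul h1
  · have h1 := hQ.2
    rw [hhe] at h1
    have h2 := right_ne_zero_of_mul h1
    rw [eval_bf, eval_bf, eval_bf, eval_bf] at h2
    let T : Submodule K (Fin (n + 1) → K) := LinearMap.ker (dot (grd F Q))
    have hT : ∀ v, v ∈ T ↔ grd F Q ⬝ᵥ v = 0 := fun v => LinearMap.mem_ker
    have hs := span_iso hK (hesB F Q T) (fun u v => hes_symm F Q u.1 v.1) ((dot (grd g Q)).comp T.subtype)
      (fun v w hvv hvw => ?_) (a := ⟨tv F c i Q, (hT _).2 (dot_tv F c i Q)⟩) (a' := ⟨tv F c i' Q, (hT _).2 (dot_tv F c i' Q)⟩)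
      (b := ⟨tv F c j Q, (hT _).2 (dot_tv F c j Q)⟩) (b' := ⟨tv F c j' Q, (hT _).2 (dot_tv F c j' Q)⟩) h2 ⟨u, (hT _).2 hu⟩
    · exact hs
    · exact loc_dir hK hF hQ.1 hQ.2 (fun x hx1 hx2 => hg x ⟨hx1, hx2⟩) ((hT _).1 v.2) ((hT _).1 w.2) hvv hvw

end Pool.Agent.H8.SD
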