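import Pool.Agent.H8.SD.Main

/-!
# SD Sec: irreducible tangent sections
-/

set_option autoImplicit false

open MvPolynomial Matrix

namespace Pool.Agent.H8.SD

theorem pderiv_pull {K : Type} [Field K] {n k : ℕ} (M : Matrix (Fin n) (Fin k) K) (j : Fin k) (F : MvPolynomial (Fin n) K) :
    pderiv j (pull M F) = ∑ a, C (M a j) * pull M (pderiv a F) := by
  have hlin : ∀ a, pderiv j (lin (M a)) = C (M a j) := by
    intro a
    unfold lin
    rw [map_sum, Finset.sum_eq_single j]
    · rw [Derivation.leibniz]
      simp
    · intro b _ hb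
      rw [Derivation.leibniz, pderiv_X_of_ne hb]
      simp
    · simp
  induction F using MvPolynomial.induction_on with
  | C a =>
    have : pull M (C a) = C a := by simp [pull]
    rw [this]
    simp
  | add p q hp hq =>
    rw [map_add, map_add, hp, hq, ← Finset.sum_add_distrib]
    refine Finset.sum_congr rfl fun i _ => ?_
    rw [map_add, map_add, mul_add]
  | mul_X p l hp =>
    have hX : pull M (X l) = lin (M l) := by simp [pull]
    rw [map_mul, Derivation.leibniz, hX, hlin, hp]
    simp only [Derivation.leibniz, smul_eq_mul, map_add, map_mul, hX, mul_add, Finset.sum_add_distrib, pderiv_X]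
    congr 1
    · rw [Finset.sum_eq_single l]
      · simp [mul_comm]
      · intro b _ hb
        simp [hb.symm]
      · simp
    · rw [Finset.mul_sum]
      refine Finset.sum_congr rfl fun i _ => ?_
      ring

/-- an irreducible polynomial does not divide all its derivatives -/
theorem exists_not_dvd_pderiv {K : Type} [Field K] [CharZero K] {n : ℕ} {φ : MvPolynomial (Fin n) K} (hφ : Irreducible φ) :
    ∃ j, ¬ φ ∣ pderiv j φ := by
  by_contra hcon
  push Not at hcon
  have h0 : ∀ j, pderiv j φ = 0 := by
    intro j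
    by_contra hne
    obtain ⟨g, hg⟩ := hcon j
    have h1 := td_pderiv j φ hne
    have h2 : g ≠ 0 := by
      rintro rfl
      rw [mul_zero] at hg
      exact hne hg
    rw [hg, totalDegree_mul_of_isDomain hφ.ne_zero h2] at h1
    omega
  have h1 := const_of_pderiv φ h0
  apply hφ.not_isUnit
  rw [h1]
  refine (IsUnit.mk0 _ ?_).map C
  intro h2
  rw [h2, map_zero] at h1
  exact hφ.ne_zero h1

/-- If the tangent section is irreducible then the Gauss map is not constant along it. -/
theorem nonConst_of_irreducible {K : Type} [Field K] [CharZero K] {n k d : ℕ} (hd : 2 ≤ d) {F : MvPolynomial (Fin n) K}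
    (hF : F.IsHomogeneous d) {M : Matrix (Fin n) (Fin k) K} (h : Irreducible (pull M F)) : NonConst F M (pull M F) := by
  intro c hc
  by_contra hcon
  push Not at hcon
  obtain ⟨b, hb⟩ : ∃ b, c b ≠ 0 := by
    by_contra h0
    push Not at h0
    exact hc (funext h0)
  have hprime := h.prime
  obtain ⟨j, hj⟩ := exists_not_dvd_pderiv h
  -- modulo the section, `c b * N a = c a * N b`
  have hC : ∀ g, pull M F ∣ C (c b) * g → pull M F ∣ g := by
    intro g hg
    have h1 : g = C (c b)⁻¹ * (C (c b) * g) := by
      rw [← mul_assoc, ← C_mul, inv_mul_cancel₀ hb, C_1, one_mul]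
    rw [h1]
    exact Dvd.dvd.mul_left hg _
  have hsum : ∀ u : Fin n → MvPolynomial (Fin k) K,
      pull M F ∣ C (c b) * (∑ a, u a * pull M (pderiv a F)) - pull M (pderiv b F) * ∑ a, u a * C (c a) := by
    intro u
    have h1 : C (c b) * (∑ a, u a * pull M (pderiv a F)) - pull M (pderiv b F) * ∑ a, u a * C (c a) =
        ∑ a, u a * (pull M (pderiv a F) * C (c b) - pull M (pderiv b F) * C (c a)) := by
      rw [Finset.mul_sum, Finset.mul_sum, ← Finset.sum_sub_distrib]
      refine Finset.sum_congr rfl fun a _ => ?_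
      ring
    rw [h1]
    exact Finset.dvd_sum fun a _ => Dvd.dvd.mul_left (hcon a b) _
  by_cases hNb : pull M F ∣ pull M (pderiv b F)
  · apply hj
    apply hC
    have h1 := hsum fun a => C (M a j)
    rw [← pderiv_pull] at h1
    have h2 := h1.add (Dvd.dvd.mul_right hNb (∑ a, C (M a j) * C (c a)))
    rwa [sub_add_cancel] at h2
  · -- Euler
    have hE : ∑ i, lin (M i) * pull M (pderiv i F) = d • pull M F := by
      have h1 := congrArg (pull M) hF.sum_X_mul_pderiv
      rw [map_sum, map_nsmul] at h1
      rw [← h1]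
      refine Finset.sum_congr rfl fun i _ => ?_
      rw [map_mul]
      simp [pull]
    have h1 := hsum fun a => lin (M a)
    rw [hE] at h1
    have h2 : pull M F ∣ pull M (pderiv b F) * ∑ a, lin (M a) * C (c a) := by
      have h3 : pull M F ∣ C (c b) * (d • pull M F) := by
        rw [nsmul_eq_mul]
        exact Dvd.dvd.mul_left (Dvd.intro_left _ rfl) _
      have h4 := h3.sub h1
      rwa [sub_sub_cancel] at h4
    have h3 : pull M F ∣ ∑ a, lin (M a) * C (c a) := (hprime.dvd_or_dvd h2).resolve_left hNb
    have h4 : ∑ a, lin (M a) * C (c a) = pull M (lin c) := by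
      unfold lin
      rw [map_sum]
      refine Finset.sum_congr rfl fun a _ => ?_
      rw [map_mul, mul_comm]
      congr 1
      · simp [pull]
      · simp [pull, lin]
    rw [h4, pull_lin] at h3
    have h5 : lin (c ᵥ* M) = 0 := by
      by_contra hne
      obtain ⟨g, hg⟩ := h3
      have hg0 : g ≠ 0 := by
        rintro rfl
        rw [mul_zero] at hg
        exact hne hg
      have h6 : (lin (c ᵥ* M)).totalDegree ≤ 1 := by
        unfold lin
        refine (totalDegree_finset_sum _ _).trans (Finset.sup_le fun i _ => ?_)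
        refine (totalDegree_mul _ _).trans ?_
        rw [totalDegree_C, totalDegree_X]
      have h7 : (pull M F).totalDegree = d := (da_pull_hom M hF).totalDegree h.ne_zero
      rw [hg, totalDegree_mul_of_isDomain h.ne_zero hg0, h7] at h6
      omega
    have h8 : ∀ j, (c ᵥ* M) j = 0 := by
      intro j
      have h9 := congrArg (eval (Pi.single j 1)) h5
      rw [eval_lin, map_zero, dotProduct_single_one] at h9
      exact h9
    apply hj
    apply hC
    have h10 := hsum fun a => C (M a j)
    rw [← pderiv_pull] at h10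
    have h11 : ∑ a, C (M a j) * C (c a) = (0 : MvPolynomial (Fin k) K) := by
      have h12 : ∑ a, C (M a j) * C (c a) = (C ((c ᵥ* M) j) : MvPolynomial (Fin k) K) := by
        rw [vecMul, dotProduct, map_sum]
        refine Finset.sum_congr rfl fun a _ => ?_
        rw [← C_mul, mul_comm]
      rw [h12, h8 j, C_0]
    rwa [h11, mul_zero, sub_zero] at h10

/-- A form with an irreducible section is irreducible. -/
theorem irreducible_of_pull {K : Type} [Field K] {n k d : ℕ} {F : MvPolynomial (Fin n) K} (hF : F.IsHomogeneous d)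
    {M : Matrix (Fin n) (Fin k) K} (h : Irreducible (pull M F)) : Irreducible F := by
  have hF0 : F ≠ 0 := by
    rintro rfl
    rw [map_zero] at h
    exact h.ne_zero rfl
  have key : ∀ A : MvPolynomial (Fin n) K, ∀ a : ℕ, A.IsHomogeneous a → IsUnit (pull M A) → IsUnit A := by
    intro A a hA hu
    have h1 : (pull M A).totalDegree = a := (da_pull_hom M hA).totalDegree hu.ne_zero
    obtain ⟨u, hu', hCu⟩ := isUnit_iff_eq_C_of_isReduced.1 hu
    have h2 : a = 0 := by
      rw [← h1, hCu, totalDegree_C]
    have h3 : A.totalDegree = 0 := by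
      have := hA.totalDegree_le
      omega
    rw [totalDegree_eq_zero_iff_eq_C] at h3
    have hA0 : A ≠ 0 := by
      rintro rfl
      rw [map_zero] at hu
      exact hu.ne_zero rfl
    rw [h3]
    refine (IsUnit.mk0 _ ?_).map C
    intro h4
    rw [h4, C_0] at h3
    exact hA0 h3
  refine ⟨fun hu => h.not_isUnit (hu.map (pull M)), fun A B hAB => ?_⟩
  have hA0 : A ≠ 0 := by
    rintro rfl
    rw [zero_mul] at hAB
    exact hF0 hAB
  have hB0 : B ≠ 0 := by
    rintro rfl
    rw [mul_zero] at hAB
    exact hF0 hAB
  obtain ⟨a, b, ha, hb, -⟩ := hom_of_mul (hAB ▸ hF) hA0 hB0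
  rcases h.isUnit_or_isUnit (by rw [hAB, map_mul]) with h1 | h1
  · exact Or.inl (key A a ha h1)
  · exact Or.inr (key B b hb h1)

/-- Irreducible tangent section at a point which is not a star point. -/
theorem main_section {K : Type} [Field K] [CharZero K] (hK : Sol K) {m d : ℕ}
    (hd : 3 ≤ d) (hd6 : d ≤ 6) {F : MvPolynomial (Fin (m + 2)) K} (hF : F.IsHomogeneous d)
    {P : Fin (m + 2) → K} {M : Matrix (Fin (m + 2)) (Fin (m + 1)) K} (hP : eval P F = 0) (hM : Par F P M)
    (hirr : Irreducible (pull M F)) (hstar : ¬ Star F P)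
    {G : MvPolynomial (Fin (m + 2)) K} (hG : ∀ x, eval x F = 0 → eval x G = 0) :
    F ∣ G := by
  obtain ⟨φ, hgood⟩ := good_of_not_star hd hd6 hF hP hM hstar
  have h1 : pull M F ∣ φ := (hgood.irr.dvd_symm hirr hgood.dvd)
  refine main_gen hK hd hd6 hF (irreducible_of_pull hF hirr) hgood ?_ hG
  intro c hc
  obtain ⟨a, b, hab⟩ := nonConst_of_irreducible (by omega) hF hirr c hc
  exact ⟨a, b, fun h2 => hab (h1.trans h2)⟩

end Pool.Agent.H8.SD
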