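import Pool.Agent.H8.SD.Defs

/-!
# SD Zero: two polynomials without constant term in at least three variables have a common zero

Krull's height theorem and the Nullstellensatz (copy of `Pool.Agent.H17.ZeroLemma` over an algebraically closed field).
-/

set_option autoImplicit false

open MvPolynomial

namespace Pool.Agent.H8.SD

private theorem le_height {L : Type} [Field L] [IsAlgClosed L] (σ : Type) [Finite σ] :
    (Nat.card σ : ℕ∞) ≤ (vanishingIdeal L ({0} : Set (σ → L))).height := by
  classical
  have hdim : ringKrullDim (MvPolynomial σ L) = (Nat.card σ : WithBot ℕ∞) := by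
    rw [MvPolynomial.ringKrullDim_of_isNoetherianRing]
    simp
  have : FiniteRingKrullDim (MvPolynomial σ L) := by
    rw [finiteRingKrullDim_iff_ne_bot_and_top, hdim]
    constructor
    · exact WithBot.coe_ne_bot
    · intro h
      have := WithBot.coe_injective h
      exact absurd this (by simp)
  obtain ⟨p, hp, hh⟩ := Ideal.exists_isMaximal_height (R := MvPolynomial σ L)
  obtain ⟨x, hx⟩ := isMaximal_iff_eq_vanishingIdeal_singleton.mp hp
  let e : MvPolynomial σ L ≃ₐ[L] MvPolynomial σ L :=
    AlgEquiv.ofAlgHom (aeval (fun i => X i + C (x i))) (aeval (fun i => X i - C (x i)))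
      (by ext i; simp) (by ext i; simp)
  have hcomap : Ideal.comap (e : MvPolynomial σ L ≃+* MvPolynomial σ L)
      (vanishingIdeal L ({0} : Set (σ → L))) = p := by
    rw [hx]
    ext q
    rw [Ideal.mem_comap, mem_vanishingIdeal_singleton_iff, mem_vanishingIdeal_singleton_iff]
    have : aeval (0 : σ → L) ((e : MvPolynomial σ L ≃+* MvPolynomial σ L) q) = aeval x q := by
      have h1 : (aeval (0 : σ → L)).comp (e : MvPolynomial σ L →ₐ[L] MvPolynomial σ L)
          = aeval x := by
        ext i
        simp [e]
      exact DFunLike.congr_fun h1 q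
    rw [this]
  have h2 := RingEquiv.height_comap (e : MvPolynomial σ L ≃+* MvPolynomial σ L)
    (vanishingIdeal L ({0} : Set (σ → L)))
  rw [hcomap] at h2
  rw [← h2]
  have h3 : ((p.height : ℕ∞) : WithBot ℕ∞) = (Nat.card σ : WithBot ℕ∞) := by
    rw [hh, hdim]
  have h4 : p.height = (Nat.card σ : ℕ∞) := by
    exact_mod_cast h3
  rw [h4]

private theorem exists_zero {L : Type} [Field L] [IsAlgClosed L] (σ : Type) [Finite σ] (κ : Type) [Finite κ]
    (hcard : Nat.card κ < Nat.card σ) (f : κ → MvPolynomial σ L)
    (hf : ∀ k, eval (0 : σ → L) (f k) = 0) :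
    ∃ x : σ → L, x ≠ 0 ∧ ∀ k, eval x (f k) = 0 := by
  classical
  by_contra hcon
  push Not at hcon
  have : Fintype κ := Fintype.ofFinite κ
  set s : Finset (MvPolynomial σ L) := Finset.univ.image f with hs
  set I : Ideal (MvPolynomial σ L) := Ideal.span (s : Set (MvPolynomial σ L)) with hI
  have hzero : zeroLocus L I = {(0 : σ → L)} := by
    ext x
    rw [hI, zeroLocus_span]
    constructor
    · intro hx
      by_contra hne
      obtain ⟨k, hk⟩ := hcon x hne
      apply hk
      have := hx (f k) (by simp [hs])
      simpa [MvPolynomial.aeval_eq_eval] using this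
    · rintro rfl
      intro p hp
      simp only [hs, Finset.coe_image, Finset.coe_univ, Set.image_univ, Set.mem_range] at hp
      obtain ⟨k, rfl⟩ := hp
      simpa [MvPolynomial.aeval_eq_eval] using hf k
  have hrad : I.radical = vanishingIdeal L ({0} : Set (σ → L)) := by
    rw [← vanishingIdeal_zeroLocus_eq_radical (K := L) I, hzero]
  have hmax : (vanishingIdeal L ({0} : Set (σ → L))).IsMaximal :=
    isMaximal_iff_eq_vanishingIdeal_singleton.mpr ⟨0, rfl⟩
  have hmin : vanishingIdeal L ({0} : Set (σ → L)) ∈ I.minimalPrimes := by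
    refine ⟨⟨hmax.isPrime, ?_⟩, ?_⟩
    · rw [← hrad]; exact Ideal.le_radical
    · rintro J ⟨hJ, hIJ⟩ _
      rw [← hrad]
      exact (Ideal.IsPrime.radical_le_iff hJ).mpr hIJ
  have h1 := Ideal.height_le_card_of_mem_minimalPrimes_span_finset (s := s) hmin
  have h2 := le_height (L := L) σ
  have h3 : s.card ≤ Nat.card κ := by
    rw [hs, Nat.card_eq_fintype_card]
    exact Finset.card_image_le
  have h4 : (Nat.card σ : ℕ∞) ≤ (s.card : ℕ∞) := h2.trans h1
  have h5 : Nat.card σ ≤ s.card := by exact_mod_cast h4
  omega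

theorem exists_common_zero {K L : Type} [Field K] [Field L] [IsAlgClosed L] [Algebra K L] {n : ℕ} (hn : 3 ≤ n)
    (f g : MvPolynomial (Fin n) K) (hf : eval 0 f = 0) (hg : eval 0 g = 0) :
    ∃ x : Fin n → L, x ≠ 0 ∧ aeval x f = 0 ∧ aeval x g = 0 := by
  have h0 : ∀ f : MvPolynomial (Fin n) K, eval 0 f = 0 →
      eval (0 : Fin n → L) (map (algebraMap K L) f) = 0 := by
    intro f hf
    have h1 : eval (0 : Fin n → L) (map (algebraMap K L) f) = algebraMap K L (eval 0 f) := by
      have h2 : (0 : Fin n → L) = fun i => algebraMap K L ((0 : Fin n → K) i) := by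
        funext i; simp
      rw [eval_map, eval₂_comp, h2]
      rfl
    rw [h1, hf, map_zero]
  obtain ⟨x, hx, h⟩ := exists_zero (L := L) (Fin n) (Fin 2) (by simpa using by omega)
    ![map (algebraMap K L) f, map (algebraMap K L) g] (by
      intro k
      fin_cases k
      · exact h0 f hf
      · exact h0 g hg)
  refine ⟨x, hx, ?_, ?_⟩
  · have := h 0
    simpa [eval_map, aeval_def] using this
  · have := h 1
    simpa [eval_map, aeval_def] using this

end Pool.Agent.H8.SD
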